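import Pool.Agent.H85.LB.Defs

/-!
# Module Barr: lower barriers

If `f - B` is negative somewhere on `[t₀,t₁]` then it has a negative minimum over `[t₀,t₁] × torus × {‖v‖ ≤ V}` (compactness, periodicity; outside
`‖v‖ < V` it is `≥ 0`), at a point with `t > t₀` and `‖v‖ < V`. There the derivative of `f - B` along the characteristic is `≤ 0` (difference
quotients from the left), so `Q ≤ D`, against `hQ`. The derivative of `f` along the characteristic: `IsClassicalSol` (see H25/Kin/Char or the proof of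
`local_lower` in H82/CL/Bar).
-/

set_option autoImplicit false

open MeasureTheory Set Filter Topology Pool.Agent.H25.Kin

namespace Pool.Agent.H85.LB

variable {d : ℕ}

/-- reduction of the position to the unit cube -/
private lemma barr_per {F : Vec d → ℝ} (hF : Per F) (x : Vec d) :
    ∃ y ∈ Icc (0 : Vec d) 1, F y = F x := by
  refine ⟨fun i => Int.fract (x i), ⟨fun i => Int.fract_nonneg _, fun i => (Int.fract_lt_one _).le⟩, ?_⟩
  have hl : (fun i => (-(⌊x i⌋ : ℤ) : ℝ)) ∈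
      Submodule.span ℤ (Set.range (Pi.basisFun ℝ (Fin d))) := by
    have e : (fun i => (-(⌊x i⌋ : ℤ) : ℝ)) = ∑ i, (-⌊x i⌋ : ℤ) • (Pi.basisFun ℝ (Fin d) i) := by
      funext j
      rw [Finset.sum_apply]
      simp only [Pi.basisFun_apply, Pi.smul_apply, Pi.single_apply]
      rw [Finset.sum_eq_single j]
      · simp
      · intro b _ hb
        simp [Ne.symm hb]
      · intro h
        exact absurd (Finset.mem_univ _) h
    rw [e]
    exact Submodule.sum_mem _ fun i _ => Submodule.smul_mem _ _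
      (Submodule.subset_span (Set.mem_range_self i))
  have h := hF.span hl x
  have e2 : (fun i => (-(⌊x i⌋ : ℤ) : ℝ)) + x = fun i => Int.fract (x i) := by
    funext i
    simp only [Pi.add_apply, Int.fract]
    ring
  rw [e2] at h
  exact h

/-- a function which is at least its value at `τ` on the left of `τ` has a nonpositive derivative -/
private lemma barr_deriv {g : ℝ → ℝ} {g' τ t₀ : ℝ} (hτ : t₀ < τ) (hg : HasDerivAt g g' τ)
    (h : ∀ r ∈ Ioo t₀ τ, g τ ≤ g r) : g' ≤ 0 := by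
  have h1 := (hasDerivAt_iff_tendsto_slope.mp hg).mono_left
    (nhdsWithin_mono τ (fun r (hr : r ∈ Iio τ) => (ne_of_lt hr : r ≠ τ)))
  refine le_of_tendsto h1 ?_
  filter_upwards [Ioo_mem_nhdsLT hτ] with r hr
  rw [slope_def_field]
  exact div_nonpos_of_nonneg_of_nonpos (by linarith [h r hr]) (by linarith [hr.2])

theorem lower_barrier {T : ℝ} {Q f : ℝ → Vec d → Vec d → ℝ} (hf : IsClassicalSol T Q f) {t₀ t₁ V : ℝ}
    (h0 : 0 ≤ t₀) (h1 : t₀ ≤ t₁) (h2 : t₁ < T) {B : ℝ → Vec d → Vec d → ℝ}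
    (hBc : ContinuousOn (unc B) (Icc t₀ t₁ ×ˢ univ))
    (hBp : ∀ t ∈ Icc t₀ t₁, ∀ x v i, B t (x + Pi.single i 1) v = B t x v)
    (hBV : ∀ t ∈ Icc t₀ t₁, ∀ x v, V ≤ ‖v‖ → B t x v ≤ 0) (hB0 : ∀ x v, B t₀ x v ≤ f t₀ x v)
    (hQ : ∀ t ∈ Ioc t₀ t₁, ∀ x v, ‖v‖ < V → f t x v < B t x v →
      (∀ u, f t x v - B t x v ≤ f t x u - B t x u) →
      ∃ D : ℝ, HasDerivAt (fun r => B r (x + (r - t) • v) v) D t ∧ D < Q t x v) :
    ∀ t ∈ Icc t₀ t₁, ∀ x v, B t x v ≤ f t x v := by
  by_contra hcon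
  push Not at hcon
  obtain ⟨t, ht, x, v, hlt⟩ := hcon
  have hsub : Icc t₀ t₁ ⊆ Ico 0 T := fun s hs => ⟨h0.trans hs.1, hs.2.trans_lt h2⟩
  have hper : ∀ s ∈ Icc t₀ t₁, ∀ w : Vec d, Per fun y => f s y w - B s y w := fun s hs w y i => by
    show f s (y + Pi.single i 1) w - B s (y + Pi.single i 1) w = f s y w - B s y w
    rw [hf.periodic s (hsub hs) y w i, hBp s hs y w i]
  set K : Set (ℝ × Vec d × Vec d) :=
    Icc t₀ t₁ ×ˢ (Icc (0 : Vec d) 1 ×ˢ Metric.closedBall (0 : Vec d) V) with hK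
  have hKc : IsCompact K := isCompact_Icc.prod (isCompact_Icc.prod (isCompact_closedBall _ _))
  have hGc : ContinuousOn (fun q : ℝ × Vec d × Vec d => unc f q - unc B q) K := by
    refine ContinuousOn.sub ?_ ?_
    · exact (show ContinuousOn (unc f) (Ico 0 T ×ˢ univ) from hf.isCont).mono
        fun q hq => ⟨hsub hq.1, mem_univ _⟩
    · exact hBc.mono fun q hq => ⟨hq.1, mem_univ _⟩
  have hpos : ∀ s ∈ Icc t₀ t₁, ∀ y w, V ≤ ‖w‖ → 0 ≤ f s y w - B s y w := fun s hs y w hw => by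
    have h3 := hBV s hs y w hw
    have h4 := hf.nonneg s (hsub hs) y w
    linarith
  have hv : ‖v‖ < V := by
    by_contra h
    have := hpos t ht x v (not_lt.1 h)
    linarith
  obtain ⟨y₁, hy₁, hy₁x⟩ := barr_per (hper t ht v) x
  have hmem : (t, y₁, v) ∈ K := ⟨ht, hy₁, by
    rw [Metric.mem_closedBall, dist_zero_right]
    exact hv.le⟩
  obtain ⟨q, hqK, hq⟩ := hKc.exists_isMinOn ⟨_, hmem⟩ hGc
  obtain ⟨τ, y, w⟩ := q
  have hτ : τ ∈ Icc t₀ t₁ := hqK.1
  have hneg : f τ y w - B τ y w < 0 := by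
    have h3 : f τ y w - B τ y w ≤ f t y₁ v - B t y₁ v := hq hmem
    have h4 : f t y₁ v - B t y₁ v = f t x v - B t x v := hy₁x
    linarith
  have hmin : ∀ s ∈ Icc t₀ t₁, ∀ z u, f τ y w - B τ y w ≤ f s z u - B s z u := by
    intro s hs z u
    rcases le_or_gt V ‖u‖ with h | h
    · exact hneg.le.trans (hpos s hs z u h)
    · obtain ⟨z₁, hz₁, hz₁z⟩ := barr_per (hper s hs u) z
      have hm : (s, z₁, u) ∈ K := ⟨hs, hz₁, by
        rw [Metric.mem_closedBall, dist_zero_right]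
        exact h.le⟩
      have h3 : f τ y w - B τ y w ≤ f s z₁ u - B s z₁ u := hq hm
      have h4 : f s z₁ u - B s z₁ u = f s z u - B s z u := hz₁z
      linarith
  have hw : ‖w‖ < V := by
    by_contra h
    have := hpos τ hτ y w (not_lt.1 h)
    linarith
  have hτ0 : t₀ < τ := by
    rcases hτ.1.lt_or_eq with h | h
    · exact h
    · exfalso
      have h3 := hB0 y w
      rw [h] at h3
      linarith
  obtain ⟨D, hD, hDQ⟩ := hQ τ ⟨hτ0, hτ.2⟩ y w hw (by linarith) (fun u => hmin τ hτ y u)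
  have hτT : τ ∈ Ioo 0 T := ⟨h0.trans_lt hτ0, hτ.2.trans_lt h2⟩
  have hfd : HasDerivAt (fun r => f r (y + (r - τ) • w) w) (Q τ y w) τ := by
    have h3 := hf.hasDerivAt_char hτT (y - τ • w) w
    have e : y - τ • w + τ • w = y := sub_add_cancel _ _
    rw [e] at h3
    have e2 : (fun s => f s (y - τ • w + s • w) w) = fun r => f r (y + (r - τ) • w) w := by
      funext r
      congr 1
      rw [sub_smul]
      abel
    rw [e2] at h3
    exact h3
  have hg := hfd.sub hD
  have h5 : Q τ y w - D ≤ 0 := by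
    refine barr_deriv hτ0 hg ?_
    intro r hr
    have h6 := hmin r ⟨hr.1.le, hr.2.le.trans hτ.2⟩ (y + (r - τ) • w) w
    show f τ (y + (τ - τ) • w) w - B τ (y + (τ - τ) • w) w ≤
      f r (y + (r - τ) • w) w - B r (y + (r - τ) • w) w
    rw [sub_self, zero_smul, add_zero]
    exact h6
  linarith

end Pool.Agent.H85.LB
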