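import Pool.Agent.H85.LB.Defs
import Pool.Agent.H48.PL.Ang

/-!
# Module GeoA: the mass of the collisions with `1/4 ≤ cos θ ≤ 1/2`

`surf` gives a positive mass to the set `{σ | 1/4 ≤ n·σ ≤ 1/2}`, uniformly in the unit vector `n`: it contains a cap of fixed radius (cap bound in H48/PL/Ang)
around a unit vector with `n·σ₀ = 3/8`, or use the rotation invariance of `surf`. The set `{w | 1 ≤ |v-w| ≤ 2}` has a positive volume which does not depend on `v`.
-/

set_option autoImplicit false

open MeasureTheory Set Filter Topology Pool.Agent.H25.Kin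
open scoped ENNReal

namespace Pool.Agent.H85.LB

variable {d : ℕ}

private lemma geo_real {x t : ℝ} (h : x ^ 2 ≤ 1 * (1 / 8) ^ 2) (e : t = 3 / 8 + x) : 1 / 4 ≤ t ∧ t ≤ 1 / 2 := by
  have h1 : |x| ≤ 1 / 8 := by
    refine abs_le_of_sq_le_sq ?_ (by norm_num)
    linarith
  have h2 := abs_le.1 h1
  constructor <;> linarith [h2.1, h2.2]

theorem mid_mass (hd : 2 ≤ d) : ∃ c : ℝ, 0 < c ∧ ∀ v w : Vec d, v ≠ w →
    ENNReal.ofReal c ≤ surf d {σ : Vec d | 1 / 4 ≤ cosTh v w σ ∧ cosTh v w σ ≤ 1 / 2} := by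
  obtain ⟨c, hc, h⟩ := Pool.Agent.H48.PL.cap_low hd
  refine ⟨c * (1 / 8 : ℝ) ^ ((d : ℝ) - 1), by positivity, fun v w hvw => ?_⟩
  have hn := nsq_dirk hvw
  set n := dirk v w with hn'
  obtain ⟨e, he, hne⟩ := Pool.Agent.H82.CM.exists_perp hd hn
  set k : Vec d := (3 / 8 : ℝ) • n + Real.sqrt (55 / 64) • e with hk'
  have hs : Real.sqrt (55 / 64) ^ 2 = 55 / 64 := Real.sq_sqrt (by norm_num)
  have hnk : dot n k = 3 / 8 := by
    rw [hk', dot_add, dot_smul, dot_smul, hne, dot_self, hn]
    ring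
  have hk : nsq k = 1 := by
    rw [hk', nsq_add, smul_dot, dot_smul, hne, ← dot_self, ← dot_self, smul_dot, dot_smul, smul_dot,
      dot_smul, dot_self, dot_self, hn, he]
    linear_combination hs
  refine le_trans (h k hk (1 / 8) (by norm_num) (by norm_num)) (measure_mono ?_)
  rintro σ ⟨-, h2⟩
  have h3 : dot n (σ - k) ^ 2 ≤ 1 * (1 / 8 : ℝ) ^ 2 := by
    refine le_trans (dot_sq_le _ _) ?_
    rw [hn]
    exact mul_le_mul_of_nonneg_left h2 zero_le_one
  have h4 : cosTh v w σ = 3 / 8 + dot n (σ - k) := by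
    rw [cosTh_eq, dot_sub, hnk]
    ring
  exact geo_real h3 h4

theorem mid_shell (hd : 2 ≤ d) : ∃ c : ℝ, 0 < c ∧ ∀ v : Vec d,
    ENNReal.ofReal c ≤ (volume : Measure (Vec d)) {w : Vec d | 1 ≤ len (v - w) ∧ len (v - w) ≤ 2} := by
  set S : Set (Vec d) := {z | 1 ≤ len z ∧ len z ≤ 2} with hS
  have hSm : MeasurableSet S := by
    have h1 : MeasurableSet {z : Vec d | 1 ≤ len z} := (isClosed_le continuous_const continuous_len).measurableSet
    have h2 : MeasurableSet {z : Vec d | len z ≤ 2} := (isClosed_le continuous_len continuous_const).measurableSet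
    exact h1.inter h2
  have hpos : 0 < (volume : Measure (Vec d)) S := by
    have ho : IsOpen {z : Vec d | 1 < len z ∧ len z < 2} := by
      have h1 : IsOpen {z : Vec d | 1 < len z} := isOpen_lt continuous_const continuous_len
      have h2 : IsOpen {z : Vec d | len z < 2} := isOpen_lt continuous_len continuous_const
      exact h1.inter h2
    have hz : ({z : Vec d | 1 < len z ∧ len z < 2}).Nonempty := by
      refine ⟨fun i => if i = ⟨0, by omega⟩ then 3 / 2 else 0, ?_⟩
      have h1 : nsq (fun i : Fin d => if i = ⟨0, by omega⟩ then (3 / 2 : ℝ) else 0) = (3 / 2) ^ 2 := by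
        unfold nsq
        rw [Finset.sum_eq_single ⟨0, by omega⟩]
        · simp
        · intro b _ hb
          simp [hb]
        · simp
      have h2 : len (fun i : Fin d => if i = ⟨0, by omega⟩ then (3 / 2 : ℝ) else 0) = 3 / 2 := by
        unfold len
        rw [h1]
        exact Real.sqrt_sq (by norm_num)
      show 1 < len _ ∧ len _ < 2
      rw [h2]
      norm_num
    refine lt_of_lt_of_le (ho.measure_pos volume hz) (measure_mono ?_)
    rintro z ⟨h1, h2⟩
    exact ⟨h1.le, h2.le⟩
  have hm0 : min ((volume : Measure (Vec d)) S) 1 ≠ 0 := by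
    rw [← pos_iff_ne_zero]
    exact lt_min hpos zero_lt_one
  have hmt : min ((volume : Measure (Vec d)) S) 1 ≠ ⊤ := ne_top_of_le_ne_top ENNReal.one_ne_top (min_le_right _ _)
  refine ⟨(min ((volume : Measure (Vec d)) S) 1).toReal, ENNReal.toReal_pos hm0 hmt, fun v => ?_⟩
  rw [ENNReal.ofReal_toReal hmt]
  refine le_trans (min_le_left _ _) (le_of_eq ?_)
  have h := (Measure.measurePreserving_sub_left (volume : Measure (Vec d)) v).measure_preimage hSm.nullMeasurableSet
  rw [← h]
  rfl

end Pool.Agent.H85.LB
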