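import Pool.Agent.H85.LB.PushH
import Pool.Agent.H85.LB.GeoA
import Pool.Agent.H82.CM.LowK

/-!
# Module GeoG: lower bound of the gain when the good set fills most of the ball

Restrict to `1 ≤ |v-w| ≤ 2` and `1/4 ≤ cos θ ≤ 1/2`: there `kerB ≥ c |v-w|^γ ≥ c/4` (`LowB`: `b x ≥ cb (1-x)^(-β) ≥ cb`; `-2 < γ ≤ 2`), and `v'`, `w'` are in the
ball of radius `4` (`|v'-v|, |w'-v| ≤ |v-w| ≤ 2`). The set of these `(w,σ)` has a measure `≥ M₀ > 0` independent of `v` (`mid_mass`, `mid_shell`). The `(w,σ)` with `v'` or `w'` in `closedBall 0 4 \ A` have measure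
`≤ 2 A₀ μ` by `push_half` with `z = v`, `a = w` and `G` the indicator: `post v w σ = post w v σ`, `cosTh w v σ = - cosTh v w σ ≥ -1/2`;
`post' v w σ = post w v (-σ)`, `cosTh w v (-σ) = cosTh v w σ ≥ 0`, `surf` is invariant under `σ ↦ -σ` (`surf_neg`). Choose `μ` with `2 A₀ μ ≤ M₀/2`.
-/

set_option autoImplicit false

open MeasureTheory Set Filter Topology Pool.Agent.H25.Kin Pool.Agent.H82.BK Pool.Agent.H82.CM
open scoped ENNReal

namespace Pool.Agent.H85.LB

variable {d : ℕ} {γ s C Ca cb : ℝ} {b : ℝ → ℝ}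

private lemma gg_post_near {v w σ : Vec d} (hσ : nsq σ = 1) (hl : len (v - w) ≤ 2)
    (hv : ‖v‖ ≤ 2) : post v w σ ∈ Metric.closedBall (0 : Vec d) 4 := by
  have e : post v w σ = v + ((1 / 2 : ℝ) • (w - v) + (len (v - w) / 2) • σ) := by
    unfold post; module
  have h0 := len_nonneg (v - w)
  have h1 : ‖(1 / 2 : ℝ) • (w - v)‖ ≤ 1 := by
    rw [norm_smul, Real.norm_eq_abs, abs_of_pos (by norm_num : (0 : ℝ) < 1 / 2)]
    have := norm_le_len (w - v)
    rw [len_comm w v] at this
    linarith
  have h2 : ‖(len (v - w) / 2) • σ‖ ≤ 1 := by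
    rw [norm_smul, Real.norm_eq_abs, abs_of_nonneg (by positivity)]
    have h3 := norm_le_len σ
    have h4 : len σ = 1 := by unfold len; rw [hσ, Real.sqrt_one]
    rw [h4] at h3
    nlinarith [norm_nonneg σ]
  rw [mem_closedBall_zero_iff, e]
  calc ‖v + ((1 / 2 : ℝ) • (w - v) + (len (v - w) / 2) • σ)‖
      ≤ ‖v‖ + ‖(1 / 2 : ℝ) • (w - v) + (len (v - w) / 2) • σ‖ := norm_add_le _ _
    _ ≤ ‖v‖ + (‖(1 / 2 : ℝ) • (w - v)‖ + ‖(len (v - w) / 2) • σ‖) := by
        gcongr; exact norm_add_le _ _
    _ ≤ 4 := by linarith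

private lemma gg_nsq_neg (σ : Vec d) : nsq (-σ) = nsq σ := by
  unfold nsq; simp

private lemma gg_post'_near {v w σ : Vec d} (hσ : nsq σ = 1) (hl : len (v - w) ≤ 2)
    (hv : ‖v‖ ≤ 2) : post' v w σ ∈ Metric.closedBall (0 : Vec d) 4 := by
  have e : post' v w σ = post v w (-σ) := by
    unfold post post'; rw [smul_neg, ← sub_eq_add_neg]
  rw [e]
  exact gg_post_near (by rw [gg_nsq_neg, hσ]) hl hv

private lemma gg_post_comm (v w σ : Vec d) : post v w σ = post w v σ := by
  unfold post; rw [add_comm v w, len_comm v w]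

private lemma gg_cos_comm (v w σ : Vec d) : cosTh w v σ = -cosTh v w σ := by
  unfold cosTh
  rw [len_comm w v, ← neg_sub v w, dot_neg, neg_div]

private lemma gg_cos_neg (v w σ : Vec d) : cosTh v w (-σ) = -cosTh v w σ := by
  unfold cosTh; rw [neg_dot, neg_div]

private lemma gg_post'_neg (v w σ : Vec d) : post' v w (-σ) = post v w σ := by
  unfold post post'; rw [smul_neg, sub_neg_eq_add]

/-- the good set of collisions -/
private def gE (v : Vec d) : Set (Vec d × Vec d) :=
  {q | (1 ≤ len (v - q.1) ∧ len (v - q.1) ≤ 2) ∧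
    (1 / 4 ≤ cosTh v q.1 q.2 ∧ cosTh v q.1 q.2 ≤ 1 / 2)}

private lemma gE_meas (v : Vec d) : MeasurableSet (gE v) := by
  have m0 : Measurable fun q : Vec d × Vec d => ((v, q.1, q.2) : Vec d × Vec d × Vec d) :=
    measurable_const.prodMk (measurable_fst.prodMk measurable_snd)
  have m1 : Measurable fun q : Vec d × Vec d => len (v - q.1) :=
    continuous_len.measurable.comp (measurable_const.sub measurable_fst)
  have m2 : Measurable fun q : Vec d × Vec d => cosTh v q.1 q.2 := measurable_cosTh.comp m0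
  exact ((measurableSet_le measurable_const m1).inter (measurableSet_le m1 measurable_const)).inter
    ((measurableSet_le measurable_const m2).inter (measurableSet_le m2 measurable_const))

/-- mass of the good set -/
private lemma gg_mass {cm cs : ℝ} (hcm : 0 < cm)
    (hmass : ∀ v w : Vec d, v ≠ w →
      ENNReal.ofReal cm ≤ surf d {σ : Vec d | 1 / 4 ≤ cosTh v w σ ∧ cosTh v w σ ≤ 1 / 2})
    (hshell : ∀ v : Vec d, ENNReal.ofReal cs ≤
      (volume : Measure (Vec d)) {w : Vec d | 1 ≤ len (v - w) ∧ len (v - w) ≤ 2}) (v : Vec d) :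
    ENNReal.ofReal (cm * cs) ≤
      ∫⁻ w, ∫⁻ σ, (gE v).indicator (fun _ => (1 : ℝ≥0∞)) (w, σ) ∂(surf d) := by
  have hSm : MeasurableSet {w : Vec d | 1 ≤ len (v - w) ∧ len (v - w) ≤ 2} := by
    have m1 : Measurable fun w : Vec d => len (v - w) :=
      continuous_len.measurable.comp (measurable_const.sub measurable_id)
    exact (measurableSet_le measurable_const m1).inter (measurableSet_le m1 measurable_const)
  calc ENNReal.ofReal (cm * cs) = ENNReal.ofReal cm * ENNReal.ofReal cs :=
        ENNReal.ofReal_mul hcm.le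
    _ ≤ ENNReal.ofReal cm *
        (volume : Measure (Vec d)) {w : Vec d | 1 ≤ len (v - w) ∧ len (v - w) ≤ 2} := by
        gcongr; exact hshell v
    _ = ∫⁻ _w in {w : Vec d | 1 ≤ len (v - w) ∧ len (v - w) ≤ 2}, ENNReal.ofReal cm := by
        rw [setLIntegral_const]
    _ ≤ ∫⁻ w in {w : Vec d | 1 ≤ len (v - w) ∧ len (v - w) ≤ 2},
          ∫⁻ σ, (gE v).indicator (fun _ => (1 : ℝ≥0∞)) (w, σ) ∂(surf d) := by
        refine setLIntegral_mono' hSm fun w hw => ?_
        have hne : v ≠ w := by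
          rintro rfl
          have := hw.1
          rw [sub_self, len_zero] at this
          norm_num at this
        have hTm : MeasurableSet {σ : Vec d | 1 / 4 ≤ cosTh v w σ ∧ cosTh v w σ ≤ 1 / 2} :=
          (measurableSet_le measurable_const (measurable_cosTh' v w)).inter
            (measurableSet_le (measurable_cosTh' v w) measurable_const)
        refine (hmass v w hne).trans ?_
        rw [← lintegral_indicator_one hTm]
        refine lintegral_mono fun σ => ?_
        by_cases h : σ ∈ {σ : Vec d | 1 / 4 ≤ cosTh v w σ ∧ cosTh v w σ ≤ 1 / 2}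
        · rw [indicator_of_mem h, indicator_of_mem (show (w, σ) ∈ gE v from ⟨hw, h⟩)]
          exact le_rfl
        · rw [indicator_of_notMem h]
          exact zero_le
    _ ≤ _ := setLIntegral_le_lintegral _ _

/-- bound of the collisions with `v'` in a small set -/
private lemma gg_bad1 {A0 : ℝ} (hpush : ∀ (z : Vec d) (G : Vec d → ℝ≥0∞), Measurable G →
    ∫⁻ a, ∫⁻ σ in {σ : Vec d | -(1 / 2) ≤ cosTh a z σ}, G (post a z σ) ∂(surf d) ≤
      ENNReal.ofReal A0 * ∫⁻ v, G v) (v : Vec d) {G : Vec d → ℝ≥0∞} (hG : Measurable G) :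
    ∫⁻ w, ∫⁻ σ, (gE v).indicator (fun _ => (1 : ℝ≥0∞)) (w, σ) * G (post v w σ) ∂(surf d) ≤
      ENNReal.ofReal A0 * ∫⁻ v, G v := by
  refine le_trans (lintegral_mono fun w => ?_) (hpush v G hG)
  have hTm : MeasurableSet {σ : Vec d | -(1 / 2) ≤ cosTh w v σ} :=
    measurableSet_le measurable_const (measurable_cosTh' w v)
  rw [← lintegral_indicator hTm]
  refine lintegral_mono fun σ => ?_
  by_cases h : (w, σ) ∈ gE v
  · rw [indicator_of_mem h, one_mul, indicator_of_mem, gg_post_comm]
    show -(1 / 2) ≤ cosTh w v σ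
    rw [gg_cos_comm]
    have := h.2.2
    simp only at this
    linarith
  · rw [indicator_of_notMem h, zero_mul]
    exact zero_le

/-- bound of the collisions with `w'` in a small set -/
private lemma gg_bad2 (hd : 1 ≤ d) {A0 : ℝ}
    (hpush : ∀ (z : Vec d) (G : Vec d → ℝ≥0∞), Measurable G →
    ∫⁻ a, ∫⁻ σ in {σ : Vec d | -(1 / 2) ≤ cosTh a z σ}, G (post a z σ) ∂(surf d) ≤
      ENNReal.ofReal A0 * ∫⁻ v, G v) (v : Vec d) {G : Vec d → ℝ≥0∞} (hG : Measurable G) :
    ∫⁻ w, ∫⁻ σ, (gE v).indicator (fun _ => (1 : ℝ≥0∞)) (w, σ) * G (post' v w σ) ∂(surf d) ≤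
      ENNReal.ofReal A0 * ∫⁻ v, G v := by
  refine le_trans (lintegral_mono fun w => ?_) (hpush v G hG)
  have hTm : MeasurableSet {σ : Vec d | -(1 / 2) ≤ cosTh w v σ} :=
    measurableSet_le measurable_const (measurable_cosTh' w v)
  have hm : Measurable fun σ : Vec d =>
      (gE v).indicator (fun _ => (1 : ℝ≥0∞)) (w, σ) * G (post' v w σ) := by
    have h1 : Measurable fun σ : Vec d => ((w, σ) : Vec d × Vec d) :=
      measurable_const.prodMk measurable_id
    have h2 : Measurable ((gE v).indicator fun _ => (1 : ℝ≥0∞)) :=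
      measurable_const.indicator (gE_meas v)
    have h3 : Measurable fun σ : Vec d => post' v w σ :=
      (continuous_post' (d := d)).measurable.comp
        (measurable_const.prodMk (measurable_const.prodMk measurable_id))
    exact (h2.comp h1).mul (hG.comp h3)
  rw [← lintegral_indicator hTm, ← (neg_preserving hd).lintegral_comp hm]
  refine lintegral_mono fun σ => ?_
  show (gE v).indicator (fun _ => (1 : ℝ≥0∞)) (w, -σ) * G (post' v w (-σ)) ≤ _
  by_cases h : (w, -σ) ∈ gE v
  · rw [indicator_of_mem h, one_mul, gg_post'_neg, indicator_of_mem, gg_post_comm]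
    show -(1 / 2) ≤ cosTh w v σ
    rw [gg_cos_comm]
    have := h.2.1
    simp only [gg_cos_neg] at this
    linarith
  · rw [indicator_of_notMem h, zero_mul]
    exact zero_le

/-- the kernel on the good set -/
private lemma gg_ker (HL : HypL d γ s b C Ca cb) {v w σ : Vec d} (h : (w, σ) ∈ gE v) :
    cb / 4 ≤ kerB γ (bmid b) (1 / 2) v w σ := by
  obtain ⟨⟨h1, h2⟩, h3, h4⟩ := h
  simp only at h1 h2 h3 h4
  have hcb := HL.lo.1
  have hβ := HL.H.β0
  unfold kerB
  rw [if_pos (by linarith : cosTh v w σ ≤ 1 - 1 / 2)]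
  unfold bmid
  rw [if_pos ⟨h3, h4⟩]
  set x := cosTh v w σ with hx
  have h5 := HL.lo.2 x (by linarith) (by linarith)
  have h6 : 1 ≤ (1 - x) ^ (-(((d : ℝ) - 1) / 2 + s)) :=
    Real.one_le_rpow_of_pos_of_le_one_of_nonpos (by linarith) (by linarith) (by linarith)
  have h7 : cb ≤ b x := by nlinarith
  have h8 : (1 : ℝ) / 4 ≤ len (v - w) ^ γ := by
    rcases le_total 0 γ with hγ | hγ
    · have := Real.one_le_rpow h1 hγ
      linarith
    · have h9 : (2 : ℝ) ^ γ ≤ len (v - w) ^ γ :=
        Real.rpow_le_rpow_of_nonpos (by linarith) h2 hγ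
      have h10 : (2 : ℝ) ^ (-2 : ℝ) ≤ 2 ^ γ :=
        Real.rpow_le_rpow_of_exponent_le (by norm_num) HL.H.g1.le
      have h11 : (2 : ℝ) ^ (-2 : ℝ) = 1 / 4 := by
        rw [Real.rpow_neg (by norm_num)]; norm_num
      rw [h11] at h10
      clear h11
      exact h10.trans h9
  calc cb / 4 = 1 / 4 * cb := by ring
    _ ≤ len (v - w) ^ γ * b x := mul_le_mul h8 h7 hcb.le (by linarith)

theorem geo_gain (HL : HypL d γ s b C Ca cb) : ∃ μ c₃ : ℝ, 0 < μ ∧ 0 < c₃ ∧
    ∀ A : Set (Vec d), MeasurableSet A →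
      volume (Metric.closedBall (0 : Vec d) 4 \ A) ≤ ENNReal.ofReal μ → ∀ v : Vec d, ‖v‖ ≤ 2 →
        ENNReal.ofReal c₃ ≤ Gn γ (bmid b) (1 / 2) (A.indicator fun _ => (1 : ℝ)) v := by
  obtain ⟨A0, hA0, hpush⟩ := push_half HL.H.hd
  obtain ⟨cm, hcm, hmass⟩ := mid_mass HL.H.hd
  obtain ⟨cs, hcs, hshell⟩ := mid_shell HL.H.hd
  have hcb := HL.lo.1
  refine ⟨cm * cs / (4 * (A0 + 1)), cb / 4 * (cm * cs / 2), by positivity, by positivity,
    fun A hA hvol v hv => ?_⟩
  set G : Vec d → ℝ≥0∞ := (Metric.closedBall (0 : Vec d) 4 \ A).indicator fun _ => 1 with hGd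
  have hBm : MeasurableSet (Metric.closedBall (0 : Vec d) 4 \ A) :=
    Metric.isClosed_closedBall.measurableSet.diff hA
  have hG : Measurable G := measurable_const.indicator hBm
  have hGi : ∫⁻ v, G v ≤ ENNReal.ofReal (cm * cs / (4 * (A0 + 1))) := by
    have : ∫⁻ v, G v = volume (Metric.closedBall (0 : Vec d) 4 \ A) := lintegral_indicator_one hBm
    rw [this]; exact hvol
  set e : Vec d × Vec d → ℝ≥0∞ := (gE v).indicator fun _ => 1 with he
  have hem : Measurable e := measurable_const.indicator (gE_meas v)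
  set a : Vec d → ℝ≥0∞ := A.indicator fun _ => 1 with ha
  have m0 : Measurable fun q : Vec d × Vec d => ((v, q.1, q.2) : Vec d × Vec d × Vec d) :=
    measurable_const.prodMk (measurable_fst.prodMk measurable_snd)
  have m1 : Measurable fun q : Vec d × Vec d => e q * G (post v q.1 q.2) :=
    hem.mul (hG.comp ((continuous_post (d := d)).measurable.comp m0))
  have m2 : Measurable fun q : Vec d × Vec d => e q * G (post' v q.1 q.2) :=
    hem.mul (hG.comp ((continuous_post' (d := d)).measurable.comp m0))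
  have mw : ∀ w : Vec d, Measurable fun σ : Vec d => ((w, σ) : Vec d × Vec d) := fun w =>
    measurable_const.prodMk measurable_id
  -- the mass splits
  have hsplit : ENNReal.ofReal (cm * cs) ≤
      (∫⁻ w, ∫⁻ σ, e (w, σ) * G (post v w σ) ∂(surf d)) +
        ((∫⁻ w, ∫⁻ σ, e (w, σ) * G (post' v w σ) ∂(surf d)) +
          ∫⁻ w, ∫⁻ σ, e (w, σ) * (a (post' v w σ) * a (post v w σ)) ∂(surf d)) := by
    refine (gg_mass hcm hmass hshell v).trans ?_
    rw [← lintegral_add_left m2.lintegral_prod_right', ← lintegral_add_left m1.lintegral_prod_right']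
    refine lintegral_mono fun w => ?_
    simp only
    have n1 : Measurable fun σ : Vec d => e (w, σ) * G (post v w σ) := m1.comp (mw w)
    have n2 : Measurable fun σ : Vec d => e (w, σ) * G (post' v w σ) := m2.comp (mw w)
    rw [← lintegral_add_left n2, ← lintegral_add_left n1]
    refine lintegral_mono_ae ?_
    filter_upwards [surf_ae] with σ hσ
    by_cases h : (w, σ) ∈ gE v
    · have h1 : e (w, σ) = 1 := indicator_of_mem h _
      have h2 : (gE v).indicator (fun _ => (1 : ℝ≥0∞)) (w, σ) = 1 := indicator_of_mem h _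
      rw [h2]
      simp only [h1, one_mul]
      have p1 := gg_post_near hσ h.1.2 hv
      have p2 := gg_post'_near hσ h.1.2 hv
      simp only at p1 p2
      by_cases q1 : post v w σ ∈ A
      · by_cases q2 : post' v w σ ∈ A
        · have r1 : a (post v w σ) = 1 := indicator_of_mem q1 _
          have r2 : a (post' v w σ) = 1 := indicator_of_mem q2 _
          rw [r1, r2, mul_one]
          exact le_add_left (le_add_left le_rfl)
        · have r2 : G (post' v w σ) = 1 :=
            indicator_of_mem (s := Metric.closedBall (0 : Vec d) 4 \ A) ⟨p2, q2⟩ _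
          rw [r2]
          exact le_add_left (le_add_right le_rfl)
      · have r1 : G (post v w σ) = 1 :=
          indicator_of_mem (s := Metric.closedBall (0 : Vec d) 4 \ A) ⟨p1, q1⟩ _
        rw [r1]
        exact le_add_right le_rfl
    · have h2 : (gE v).indicator (fun _ => (1 : ℝ≥0∞)) (w, σ) = 0 := indicator_of_notMem h _
      rw [h2]
      exact zero_le
  have hb1 := gg_bad1 hpush v hG
  have hb2 := gg_bad2 (by have := HL.H.hd; omega) hpush v hG
  -- the gain
  have hgain : ENNReal.ofReal (cb / 4) *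
      (∫⁻ w, ∫⁻ σ, e (w, σ) * (a (post' v w σ) * a (post v w σ)) ∂(surf d)) ≤
      Gn γ (bmid b) (1 / 2) (A.indicator fun _ => (1 : ℝ)) v := by
    unfold Gn
    rw [← lintegral_const_mul' _ _ ENNReal.ofReal_ne_top]
    refine lintegral_mono fun w => ?_
    simp only
    rw [← lintegral_const_mul' _ _ ENNReal.ofReal_ne_top]
    refine lintegral_mono fun σ => ?_
    simp only
    by_cases h : (w, σ) ∈ gE v
    · by_cases q1 : post v w σ ∈ A
      · by_cases q2 : post' v w σ ∈ A
        · have r0 : e (w, σ) = 1 := indicator_of_mem h _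
          have r1 : a (post v w σ) = 1 := indicator_of_mem q1 _
          have r2 : a (post' v w σ) = 1 := indicator_of_mem q2 _
          rw [r0, r1, r2, indicator_of_mem q1, indicator_of_mem q2]
          simp only [mul_one]
          exact ENNReal.ofReal_le_ofReal (gg_ker HL h)
        · have r2 : a (post' v w σ) = 0 := indicator_of_notMem q2 _
          rw [r2, zero_mul, mul_zero, mul_zero]
          exact zero_le
      · have r1 : a (post v w σ) = 0 := indicator_of_notMem q1 _
        rw [r1, mul_zero, mul_zero, mul_zero]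
        exact zero_le
    · have r0 : e (w, σ) = 0 := indicator_of_notMem h _
      rw [r0, zero_mul, mul_zero]
      exact zero_le
  refine le_trans ?_ hgain
  rw [ENNReal.ofReal_mul (by positivity)]
  refine mul_le_mul_right ?_ _
  set X := ∫⁻ w, ∫⁻ σ, e (w, σ) * (a (post' v w σ) * a (post v w σ)) ∂(surf d) with hX
  have hμ : ENNReal.ofReal A0 * ENNReal.ofReal (cm * cs / (4 * (A0 + 1))) ≤
      ENNReal.ofReal (cm * cs / 4) := by
    rw [← ENNReal.ofReal_mul hA0]
    refine ENNReal.ofReal_le_ofReal ?_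
    have h1 : A0 / (A0 + 1) ≤ 1 := by rw [div_le_one (by positivity)]; linarith
    calc A0 * (cm * cs / (4 * (A0 + 1))) = A0 / (A0 + 1) * (cm * cs / 4) := by field_simp
      _ ≤ 1 * (cm * cs / 4) := by gcongr
      _ = cm * cs / 4 := one_mul _
  have hb1' := hb1.trans ((mul_le_mul_right hGi _).trans hμ)
  have hb2' := hb2.trans ((mul_le_mul_right hGi _).trans hμ)
  have h2 : ENNReal.ofReal (cm * cs) ≤ ENNReal.ofReal (cm * cs / 4) +
      (ENNReal.ofReal (cm * cs / 4) + X) :=
    hsplit.trans (add_le_add hb1' (add_le_add hb2' le_rfl))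
  have h3 : ENNReal.ofReal (cm * cs) = ENNReal.ofReal (cm * cs / 4) +
      (ENNReal.ofReal (cm * cs / 4) + ENNReal.ofReal (cm * cs / 2)) := by
    rw [← ENNReal.ofReal_add (by positivity) (by positivity),
      ← ENNReal.ofReal_add (by positivity) (by positivity)]
    congr 1; ring
  rw [h3] at h2
  exact (ENNReal.add_le_add_iff_left ENNReal.ofReal_ne_top).1
    ((ENNReal.add_le_add_iff_left ENNReal.ofReal_ne_top).1 h2)

end Pool.Agent.H85.LB
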