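import Pool.Agent.H85.LB.Defs

/-!
# Module MassB: lower bound of the mass from a lower bound on a ball

The ball `{nsq (v - v₀) ≤ r²}` contains the sup-norm ball of radius `r/√d` around `v₀` (`nsq ≤ d ‖·‖²`), of volume `(2r/√d)^d`; `F x` is integrable and `≥ 0`.
-/

set_option autoImplicit false

open MeasureTheory Set Filter Topology Pool.Agent.H25.Kin Pool.Agent.H15.AV

namespace Pool.Agent.H85.LB

variable {d : ℕ}

private lemma massB_int {F : Vec d → Vec d → ℝ} (hF : Slice F) (x : Vec d) : Integrable (F x) := by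
  have hc : Continuous (F x) := hF.cont.comp (continuous_const.prodMk continuous_id)
  refine RD.integrable ?_ hc.aestronglyMeasurable
  intro N
  obtain ⟨C, hC⟩ := hF.decay N
  refine ⟨C, fun v => ?_⟩
  rw [Real.norm_of_nonneg (hF.nonneg x v)]
  exact hC x v

theorem mass_ball (hd : 1 ≤ d) {r : ℝ} (hr : 0 < r) : ∃ c : ℝ, 0 < c ∧ ∀ F : Vec d → Vec d → ℝ, Slice F →
    ∀ (x v₀ : Vec d) (a : ℝ), 0 ≤ a → (∀ v, nsq (v - v₀) ≤ r ^ 2 → a ≤ F x v) → c * a ≤ ∫ v, F x v := by
  have hd0 : (0 : ℝ) < d := by exact_mod_cast hd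
  have hs : 0 < Real.sqrt d := Real.sqrt_pos.mpr hd0
  set ρ : ℝ := r / Real.sqrt d with hρ
  have hρ0 : 0 < ρ := div_pos hr hs
  refine ⟨(2 * ρ) ^ d, by positivity, fun F hF x v₀ a ha h => ?_⟩
  have hI := massB_int hF x
  have hK : ∀ v ∈ Metric.closedBall v₀ ρ, a ≤ F x v := by
    intro v hv
    refine h v ((sq_le _).trans ?_)
    have h1 : ‖v - v₀‖ ≤ ρ := by rwa [Metric.mem_closedBall, dist_eq_norm] at hv
    have h2 : ‖v - v₀‖ ^ 2 ≤ ρ ^ 2 := pow_le_pow_left₀ (norm_nonneg _) h1 2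
    have h3 : (d : ℝ) * ρ ^ 2 = r ^ 2 := by
      rw [hρ, div_pow, Real.sq_sqrt hd0.le]
      field_simp
    calc (d : ℝ) * ‖v - v₀‖ ^ 2 ≤ d * ρ ^ 2 := mul_le_mul_of_nonneg_left h2 hd0.le
      _ = r ^ 2 := h3
  have hvol : (volume : Measure (Vec d)).real (Metric.closedBall v₀ ρ) = (2 * ρ) ^ d := by
    rw [Measure.real, Real.volume_pi_closedBall v₀ hρ0.le, ENNReal.toReal_ofReal (by positivity)]
    simp
  calc (2 * ρ) ^ d * a = ∫ _v in Metric.closedBall v₀ ρ, a := by
        rw [setIntegral_const, hvol, smul_eq_mul]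
    _ ≤ ∫ v in Metric.closedBall v₀ ρ, F x v := by
        refine setIntegral_mono_on ?_ hI.integrableOn Metric.isClosed_closedBall.measurableSet hK
        exact integrableOn_const (by
          rw [Real.volume_pi_closedBall v₀ hρ0.le]; exact ENNReal.ofReal_ne_top)
    _ ≤ ∫ v, F x v := setIntegral_le_integral hI (ae_of_all _ fun v => hF.nonneg x v)

end Pool.Agent.H85.LB
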