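import Pool.Agent.H85.LB.MomU
import Pool.Agent.H85.LB.MassB
import Pool.Agent.H82.CL.Bar
import Pool.Agent.H82.CL.Unif

/-!
# Module InitL: the lower bound near the initial time, with constants which do not depend on the solution

`unif_pos` (H82/CL/Unif) for `F₀` (a continuous function with positive integral is positive somewhere): `c, r, V`. `local_lower` (H82/CL/Bar) with `t₀ = 0`, `x₀ = x`,
the `v₀` of `x`, and `Λ = 2 K κ / r² + 1`: `low_Q` (H82/CL/LowQ) with the constant `2c/r² ≥ c` (`r ≤ 1`) and `conv_le` (radius `V + 1`). For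
`t ≤ h`, `h` small, and `nsq (v - v₀) ≤ r²/4` the barrier is `≥ c/2` at `x`; `mass_ball`.
-/

set_option autoImplicit false

open MeasureTheory Set Filter Topology Pool.Agent.H25.Kin Pool.Agent.H15.AV

namespace Pool.Agent.H85.LB

variable {d : ℕ} {γ s : ℝ} {b : ℝ → ℝ}

private lemma initL_norm_le {z : Vec d} {r : ℝ} (hr : 0 ≤ r) (h : nsq z ≤ r ^ 2) : ‖z‖ ≤ r := by
  refine (pi_norm_le_iff_of_nonneg hr).2 fun i => ?_
  rw [Real.norm_eq_abs]
  refine abs_le_of_sq_le_sq ?_ hr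
  refine le_trans ?_ h
  unfold nsq
  exact Finset.single_le_sum (f := fun i => z i ^ 2) (fun i _ => sq_nonneg (z i)) (Finset.mem_univ i)

theorem init_low (hd : 2 ≤ d) (hs : s ∈ Ioo (0 : ℝ) 1) (h0 : 0 ≤ γ + 2 * s) (h2 : γ + 2 * s ≤ 2) (hb : IsKernel d s b)
    (U : ℕ → ℝ) {F₀ : Vec d → Vec d → ℝ} (hF : Slice F₀) (hm : ∀ x, 0 < ∫ v, F₀ x v) :
    ∃ c h : ℝ, 0 < c ∧ 0 < h ∧ h ≤ 1 ∧ ∀ (T : ℝ) (f : ℝ → Vec d → Vec d → ℝ), IsBoltzmannSol γ b T f →
      UB U T f → f 0 = F₀ → ∀ t ∈ Ico 0 T, t ≤ h → ∀ x, c ≤ ∫ v, f t x v := by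
  have hpos : ∀ x, ∃ v, 0 < F₀ x v := by
    intro x
    by_contra hcon
    push Not at hcon
    have h1 := integral_nonpos (μ := (volume : Measure (Vec d))) (f := fun v => F₀ x v)
      (fun v => hcon v)
    exact absurd (hm x) (not_lt.2 h1)
  obtain ⟨c, r, V, hc, hr, hr1, hV, hx⟩ := Pool.Agent.H82.CL.unif_pos (f0 := F₀) hF.cont
    (fun v x i => hF.per x v i) hpos
  obtain ⟨C, Ca, H⟩ := exists_hyp hd hs.1 hs.2 h0 h2 hb
  obtain ⟨K, hK0, hK⟩ := Pool.Agent.H82.CL.low_Q H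
  obtain ⟨κ, hκ0, hκ⟩ := conv_le (d := d) U h0 h2 (V + 1)
  obtain ⟨c₁, hc₁, hmass⟩ := mass_ball (d := d) (by omega) (r := r / 2) (by positivity)
  have hr2 : 0 < r ^ 2 := by positivity
  set Λ : ℝ := 2 * K * κ / r ^ 2 + 1 with hΛ
  have hΛ0 : 0 ≤ Λ := by positivity
  set B : ℝ := (2 * V ^ 2 + 2) / r ^ 2 + Λ with hB
  have hB0 : 0 < B := by positivity
  have hB1 : 1 ≤ B := by
    have h3 : 0 ≤ (2 * V ^ 2 + 2) / r ^ 2 := by positivity
    have h4 : 1 ≤ Λ := by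
      have : 0 ≤ 2 * K * κ / r ^ 2 := by positivity
      linarith
    linarith
  refine ⟨c₁ * (c / 2), 1 / (4 * B), by positivity, by positivity, ?_, ?_⟩
  · rw [div_le_one (by positivity)]
    linarith
  intro T f hf hU h00 t ht hth x
  obtain ⟨v₀, hv₀, hinit⟩ := hx x
  have hv₀n : ‖v₀‖ ≤ V := initL_norm_le hV hv₀
  have hth1 : t ≤ 1 := hth.trans (by rw [div_le_one (by positivity)]; linarith)
  have hlow := Pool.Agent.H82.CL.local_lower (show IsClassicalSol T _ f from hf) (t₀ := 0)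
    (t₁ := t) le_rfl ht.1 ht.2 (by linarith) hc hr hΛ0 (x₀ := x) (v₀ := v₀)
    (fun y w hyw => by rw [h00]; exact hinit y w hyw)
    (by
      intro t' ht' x' v' hv' hfc hsec
      have htT : t' ∈ Ioo 0 T := ⟨ht'.1, ht'.2.trans_lt ht.2⟩
      have hn := sol_nice (show IsClassicalSol T _ f from hf) htT x'
      have hnn : ∀ u, 0 ≤ f t' x' u := fun u => hf.nonneg t' ⟨htT.1.le, htT.2⟩ x' u
      have hcc : c ≤ 2 * c / r ^ 2 := by
        rw [le_div_iff₀ hr2]
        have : r ^ 2 ≤ 1 := pow_le_one₀ hr.le hr1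
        nlinarith
      have e1 := hK (f t' x') hn hnn v' (2 * c / r ^ 2) (by positivity) (hfc.trans hcc)
        (fun h => hsec h)
      have hv'n : ‖v'‖ ≤ V + 1 := by
        have e2 : ‖v' - v₀‖ ≤ r := initL_norm_le hr.le hv'
        have e3 : v' = v₀ + (v' - v₀) := by abel
        rw [e3]
        exact (norm_add_le _ _).trans (by linarith)
      have e4 := hκ (f t' x') hn hnn (fun N v => hU N t' ⟨htT.1.le, htT.2⟩ x' v) v' hv'n
      have e5 : K * (2 * c / r ^ 2) * (∫ z, f t' x' z * len (v' - z) ^ (γ + 2 * s)) ≤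
          K * (2 * c / r ^ 2) * κ := mul_le_mul_of_nonneg_left e4 (by positivity)
      have e6 : c * Λ = K * (2 * c / r ^ 2) * κ + c := by
        rw [hΛ]
        ring
      show -(c * Λ) < boltzQ γ b (f t' x') v'
      linarith)
  have hball : ∀ v, nsq (v - v₀) ≤ (r / 2) ^ 2 → c / 2 ≤ f t x v := by
    intro v hv
    have e1 := hlow t ⟨ht.1, le_rfl⟩ x v
    refine le_trans ?_ e1
    have e2 : x - x - (t - 0) • v = (-t) • v := by
      rw [sub_self, sub_zero, zero_sub, neg_smul]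
    rw [e2, nsq_smul, sub_zero]
    have e3 : nsq v ≤ 2 * V ^ 2 + 2 := by
      have h3 := nsq_par v₀ (v - v₀)
      rw [add_sub_cancel] at h3
      have h4 := sq_nonneg' (v₀ - (v - v₀))
      have h5 : (r / 2) ^ 2 ≤ 1 := pow_le_one₀ (by positivity) (by linarith)
      linarith
    have e4 : t ^ 2 ≤ t := by
      have := ht.1
      nlinarith
    have e5 : (-t) ^ 2 * nsq v / r ^ 2 ≤ t * ((2 * V ^ 2 + 2) / r ^ 2) := by
      rw [neg_sq, ← mul_div_assoc]
      refine div_le_div_of_nonneg_right ?_ hr2.le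
      exact mul_le_mul e4 e3 (sq_nonneg' v) ht.1
    have e6 : t * B ≤ 1 / 4 := by
      calc t * B ≤ 1 / (4 * B) * B := mul_le_mul_of_nonneg_right hth hB0.le
        _ = 1 / 4 := by field_simp
    have e7 : nsq (v - v₀) / r ^ 2 ≤ 1 / 4 := by
      rw [div_le_iff₀ hr2]
      linarith [hv, show (r / 2) ^ 2 = 1 / 4 * r ^ 2 by ring]
    have e8 : t * B = t * ((2 * V ^ 2 + 2) / r ^ 2) + Λ * t := by rw [hB]; ring
    have e9 : 1 / 2 ≤ 1 - nsq (v - v₀) / r ^ 2 - (-t) ^ 2 * nsq v / r ^ 2 - Λ * t := by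
      linarith
    calc c / 2 = c * (1 / 2) := by ring
      _ ≤ _ := mul_le_mul_of_nonneg_left e9 hc.le
  exact hmass (f t) (sol_slice (show IsClassicalSol T _ f from hf) ht) x v₀ (c / 2)
    (by positivity) hball

end Pool.Agent.H85.LB
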