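import Pool.Agent.H85.LB.Win
import Pool.Agent.H85.LB.InitL

/-!
# Module Top: no vacuum, uniformly in time, for plane symmetric solutions with uniform upper bounds

`init_low` gives `h`; `window` with `h/2`, `m` the total mass of `F₀` (positive: `hm`, `Slice F₀`), `Glob m M` for all times from `glob_bounds`, `mass_const`; `mass_ball` with `r = 1/2`.
-/

set_option autoImplicit false

open MeasureTheory Set Filter Topology Pool.Agent.H25.Kin Pool.Agent.H15.AV Pool.Agent.H82.CM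

namespace Pool.Agent.H85.LB

variable {d : ℕ} {γ s : ℝ} {b : ℝ → ℝ}

/-- the total mass of a slice with positive local mass is positive -/
private theorem mass_pos' {F : Vec d → Vec d → ℝ} (hF : Slice F) (hm : ∀ x, 0 < ∫ v, F x v) :
    0 < ∫ q, F q.2 q.1 ∂(nu d) := by
  obtain ⟨C, hC⟩ := hF.decay (d + 1)
  have hcont : Continuous fun q : Vec d × Vec d => F q.2 q.1 := hF.cont.comp continuous_swap
  have hb : ∀ q : Vec d × Vec d, |F q.2 q.1| ≤ C * wt d q.1 := by
    intro q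
    have h1 := hC q.2 q.1
    have h2 : 0 < (1 + ‖q.1‖) ^ (d + 1) := pow_pos (w_pos q.1) _
    rw [abs_of_nonneg (hF.nonneg _ _)]
    unfold wt
    rw [← div_eq_mul_inv, le_div_iff₀ h2]
    linarith
  have hi : Integrable (fun q : Vec d × Vec d => F q.2 q.1) (nu d) :=
    integrable_nu hcont.aestronglyMeasurable hb
  rw [nu_integral hi]
  have hi2 : Integrable (fun x => ∫ v, F x v) (muD d) := by
    unfold nu at hi
    exact hi.integral_prod_right
  rw [integral_pos_iff_support_of_nonneg (fun x => (hm x).le) hi2]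
  have : Function.support (fun x => ∫ v, F x v) = univ := by
    ext x
    simp [(hm x).ne']
  rw [this]
  unfold muD
  rw [Measure.restrict_apply_univ, Real.volume_Icc_pi]
  simp

theorem lower_unif (hd : 2 ≤ d) (hs : s ∈ Ioo (0 : ℝ) 1) (h0 : 0 ≤ γ + 2 * s) (h2 : γ + 2 * s < 2) (hb : IsKernel d s b)
    (e : Fin d) (U : ℕ → ℝ) {M : ℝ} {F₀ : Vec d → Vec d → ℝ} (hF : Slice F₀) (hm : ∀ x, 0 < ∫ v, F₀ x v)
    (hM : Pool.Agent.H48.PL.GB M F₀) :
    ∃ m₀ : ℝ, 0 < m₀ ∧ ∀ (T : ℝ) (f : ℝ → Vec d → Vec d → ℝ), IsBoltzmannSol γ b T f →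
      Pool.Agent.H48.PL.Planar e T f → f 0 = F₀ → UB U T f → ∀ t ∈ Ico 0 T, ∀ x, m₀ ≤ ∫ v, f t x v := by
  obtain ⟨C, Ca, cb, HL⟩ := exists_hypL hd hs.1 hs.2 h0 h2.le hb
  obtain ⟨c₁, h, hc₁, hh, hh1, hinit⟩ := init_low hd hs h0 h2.le hb U hF hm
  obtain ⟨m, hmd⟩ : ∃ m : ℝ, m = ∫ q, F₀ q.2 q.1 ∂(nu d) := ⟨_, rfl⟩
  have hm0 : 0 < m := by rw [hmd]; exact mass_pos' hF hm
  obtain ⟨c₂, hc₂, hwin⟩ := window hd hs h0 h2 hb e U hm0 M (h := h / 2) (by positivity) (by linarith)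
  obtain ⟨c₃, hc₃, hball⟩ := mass_ball (d := d) (by omega) (r := 1 / 2) (by norm_num)
  refine ⟨min c₁ (c₃ * c₂), lt_min hc₁ (mul_pos hc₃ hc₂), fun T f hf hp hf0 hU t ht x => ?_⟩
  rcases le_total t h with hth | hth
  · exact (min_le_left _ _).trans (hinit T f hf hU hf0 t ht hth x)
  · have hglob : ∀ t ∈ Ico 0 T, Glob m M (f t) := by
      intro t ht
      have g1 := Pool.Agent.H48.PL.glob_bounds HL.H hf (by rw [hf0]; exact hM) ht
      refine ⟨?_, g1.mass, g1.energy, g1.entropy⟩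
      have h3 := mass_const (Q := boltzQ γ b) hf (boltz_HasInvariants HL.H hf) ht
      rw [h3, hf0, hmd]
    refine (min_le_right _ _).trans ?_
    exact hball (f t) (sol_slice hf ht) x 0 c₂ hc₂.le fun v hv =>
      hwin T f hf hp hU hglob t ht (by linarith) x v (by simpa using hv)

end Pool.Agent.H85.LB
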