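import Pool.Agent.H85.LB.Defs

/-!
# Module DissD: the pairing of the deficit with a function of the velocity

`pU_deriv`: `pairU_diff` (H15/AV/TrC) for `φ (v,x) = φ v` (`pU φ δ f t` is `pairU (fun q => φ q.1) δ f t`), the continuity of
`t ↦ ∫ src` (`src_cont`, compactness of `[0,1]^d`) and the fundamental theorem of calculus. `pU_le`: `φ ≤ 1`, support in the ball of radius `2R`.
-/

set_option autoImplicit false

open MeasureTheory Set Filter Topology Pool.Agent.H25.Kin Pool.Agent.H15.AV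

namespace Pool.Agent.H85.LB

variable {d : ℕ} {T R K : ℝ} {Q : (Vec d → ℝ) → Vec d → ℝ} {f : ℝ → Vec d → Vec d → ℝ} {φ : Vec d → ℝ}

private theorem dd_abs (hφ : Cut R K φ) (v : Vec d) : |φ v| ≤ 1 := by
  rw [abs_of_nonneg (hφ.nonneg v)]
  exact hφ.le_one v

private theorem dd_sU_cont (hf : IsClassicalSol T (fun t x => Q (f t x)) f) {δ : ℝ} (h0 : 0 < δ) (h1 : δ ≤ 1)
    (hφ : Cut R K φ) {a b : ℝ} (ha : 0 < a) (hb : b < T) : ContinuousOn (sU Q φ δ f) (Icc a b) := by
  have hsub : Icc a b ×ˢ (univ : Set (Vec d)) ⊆ Ioo 0 T ×ˢ (univ : Set (Vec d)) := fun p hp =>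
    ⟨⟨ha.trans_le hp.1.1, hp.1.2.trans_lt hb⟩, mem_univ _⟩
  have hc : ContinuousOn (fun p : ℝ × Vec d => src Q δ (f p.1 p.2) φ) (Icc a b ×ˢ univ) :=
    (src_cont hf h0 h1 hφ.tst.smooth.continuous (dd_abs hφ) hφ.tst.supp).mono hsub
  obtain ⟨C, hC⟩ := ((isCompact_Icc (a := a) (b := b)).prod (isCompact_Icc (a := (0 : Vec d)) (b := 1))).exists_bound_of_continuousOn
    (hc.mono fun p hp => ⟨hp.1, mem_univ _⟩)
  unfold sU
  refine continuousOn_of_dominated (bound := fun _ => C) ?_ ?_ (integrable_const C) ?_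
  · intro r hr
    have h2 : Continuous fun x : Vec d => src Q δ (f r x) φ := by
      rw [← continuousOn_univ]
      exact hc.comp (f := fun x : Vec d => (r, x)) (by fun_prop) fun x _ => ⟨hr, mem_univ _⟩
    exact h2.aestronglyMeasurable
  · intro r hr
    unfold muD
    refine (ae_restrict_iff' measurableSet_Icc).2 (Eventually.of_forall fun x hx => ?_)
    exact hC (r, x) ⟨hr, hx⟩
  · refine Eventually.of_forall fun x => ?_
    exact hc.comp (f := fun r : ℝ => (r, x)) (by fun_prop) fun r hr => ⟨hr, mem_univ _⟩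

private theorem dd_ftc (hf : IsClassicalSol T (fun t x => Q (f t x)) f) {δ : ℝ} (h0 : 0 < δ) (h1 : δ ≤ 1)
    (hφ : Cut R K φ) {a b : ℝ} (ha : 0 < a) (hab : a ≤ b) (hb : b < T) :
    pU φ δ f b = pU φ δ f a - ∫ r in a..b, sU Q φ δ f r := by
  have h2 := pairU_diff (φ := fun q : Vec d × Vec d => φ q.1) (A := 1) (R := 2 * R) hf h0 h1
    (hφ.tst.smooth.continuous.comp continuous_fst) (fun q => dd_abs hφ q.1) (fun v y hv => hφ.tst.supp v hv)
    (fun v x i => rfl) ha hab hb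
  have hsub : Icc a b ×ˢ (univ : Set (Vec d)) ⊆ Ioo 0 T ×ˢ (univ : Set (Vec d)) := fun p hp =>
    ⟨⟨ha.trans_le hp.1.1, hp.1.2.trans_lt hb⟩, mem_univ _⟩
  have hc : ContinuousOn (fun p : ℝ × Vec d => src Q δ (f p.1 p.2) φ) (Icc a b ×ˢ univ) :=
    (src_cont hf h0 h1 hφ.tst.smooth.continuous (dd_abs hφ) hφ.tst.supp).mono hsub
  have h3 := st_integral hab (st_integrable hc)
  have h4 : pU φ δ f b - pU φ δ f a = -∫ p, src Q δ (f p.1 p.2) φ ∂(st d a b) := h2
  rw [h3] at h4
  have h5 : (∫ τ in a..b, ∫ x, src Q δ (f τ x) φ ∂(muD d)) = ∫ r in a..b, sU Q φ δ f r := rfl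
  rw [← h5]
  linarith

theorem pU_deriv (hf : IsClassicalSol T (fun t x => Q (f t x)) f) {δ : ℝ} (h0 : 0 < δ) (h1 : δ ≤ 1)
    (hφ : Cut R K φ) {t : ℝ} (ht : t ∈ Ioo 0 T) :
    HasDerivAt (fun r => pU φ δ f r) (-sU Q φ δ f t) t := by
  obtain ⟨ht0, htT⟩ := ht
  have ha : 0 < t / 2 := by linarith
  have hb : (t + T) / 2 < T := by linarith
  have hc := dd_sU_cont hf h0 h1 hφ ha hb
  have hmem : Icc (t / 2) ((t + T) / 2) ∈ 𝓝 t := Icc_mem_nhds (by linarith) (by linarith)
  have h2 : IntervalIntegrable (sU Q φ δ f) volume (t / 2) t := by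
    refine ContinuousOn.intervalIntegrable (hc.mono ?_)
    rw [uIcc_of_le (by linarith)]
    exact Icc_subset_Icc le_rfl (by linarith)
  have h3 : StronglyMeasurableAtFilter (sU Q φ δ f) (𝓝 t) volume :=
    ContinuousOn.stronglyMeasurableAtFilter isOpen_Ioo (hc.mono Ioo_subset_Icc_self) t
      ⟨by linarith, by linarith⟩
  have h4 : HasDerivAt (fun r => ∫ τ in (t / 2)..r, sU Q φ δ f τ) (sU Q φ δ f t) t :=
    intervalIntegral.integral_hasDerivAt_right h2 h3 (hc.continuousAt hmem)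
  have h5 : HasDerivAt (fun r => pU φ δ f (t / 2) - ∫ τ in (t / 2)..r, sU Q φ δ f τ) (-sU Q φ δ f t) t := by
    have := h4.const_sub (pU φ δ f (t / 2))
    exact this
  refine h5.congr_of_eventuallyEq ?_
  filter_upwards [hmem] with r hr
  exact dd_ftc hf h0 h1 hφ ha hr.1 (hr.2.trans_lt hb)

theorem pU_nonneg (hf : IsClassicalSol T (fun t x => Q (f t x)) f) {δ : ℝ} (h0 : 0 < δ) (h1 : δ ≤ 1)
    (hφ : Cut R K φ) {t : ℝ} (ht : t ∈ Ico 0 T) : 0 ≤ pU φ δ f t := by
  unfold pU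
  exact integral_nonneg fun q => mul_nonneg (hφ.nonneg _) (uf_nonneg h0 h1 (hf.nonneg t ht _ _))

private theorem dd_uf_cont (hf : IsClassicalSol T (fun t x => Q (f t x)) f) {δ : ℝ} (h0 : 0 < δ) {t : ℝ}
    (ht : t ∈ Ico 0 T) : Continuous fun q : Vec d × Vec d => H15.AV.uf δ (f t q.2 q.1) := by
  have e1 : Continuous fun q : Vec d × Vec d => f t q.2 q.1 :=
    (IsClassicalSol.cont_slice hf ht).comp (by fun_prop : Continuous fun q : Vec d × Vec d => (q.2, q.1))
  have hnn : ∀ q : Vec d × Vec d, 0 ≤ f t q.2 q.1 := fun q => hf.nonneg t ht q.2 q.1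
  unfold H15.AV.uf
  refine Continuous.sub ?_ ?_
  · exact Continuous.log (continuous_const.add e1) fun q => by
      have := hnn q
      positivity
  · exact Continuous.log (continuous_const.add e1) fun q => by
      have := hnn q
      positivity

theorem pU_le (hf : IsClassicalSol T (fun t x => Q (f t x)) f) {δ : ℝ} (h0 : 0 < δ) (h1 : δ ≤ 1)
    (hφ : Cut R K φ) {R' : ℝ} (hR : 2 * R ≤ R') {t : ℝ} (ht : t ∈ Ico 0 T) :
    pU φ δ f t ≤ ∫ x, ub δ R' (f t x) ∂(muD d) := by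
  have hcu := dd_uf_cont hf h0 ht
  have hnn : ∀ x v : Vec d, 0 ≤ H15.AV.uf δ (f t x v) := fun x v => uf_nonneg h0 h1 (hf.nonneg t ht x v)
  have hle : ∀ x v : Vec d, H15.AV.uf δ (f t x v) ≤ lam δ := fun x v => uf_le_lam h0 h1 (hf.nonneg t ht x v)
  have hl0 : 0 ≤ lam δ := (hnn 0 0).trans (hle 0 0)
  have hcF : Continuous fun q : Vec d × Vec d => φ q.1 * H15.AV.uf δ (f t q.2 q.1) :=
    (hφ.tst.smooth.continuous.comp continuous_fst).mul hcu
  have hbd : ∀ q : Vec d × Vec d, |φ q.1 * H15.AV.uf δ (f t q.2 q.1)| ≤ (lam δ * (1 + |2 * R|) ^ (d + 1)) * wt d q.1 := by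
    intro q
    have hw := wt_nonneg q.1
    by_cases h : 2 * R ≤ ‖q.1‖
    · rw [hφ.tst.supp q.1 h, zero_mul, abs_zero]
      positivity
    · rw [not_le] at h
      have e1 : (1 + ‖q.1‖) ^ (d + 1) ≤ (1 + |2 * R|) ^ (d + 1) :=
        pow_le_pow_left₀ (w_pos q.1).le (by linarith [le_abs_self (2 * R)]) _
      have e2 : 1 ≤ (1 + |2 * R|) ^ (d + 1) * wt d q.1 := by
        unfold wt
        rw [← div_eq_mul_inv, one_le_div (pow_pos (w_pos q.1) _)]
        exact e1
      rw [abs_mul, abs_of_nonneg (hnn _ _)]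
      calc |φ q.1| * H15.AV.uf δ (f t q.2 q.1) ≤ 1 * lam δ :=
            mul_le_mul (dd_abs hφ _) (hle _ _) (hnn _ _) zero_le_one
        _ = lam δ * 1 := by ring
        _ ≤ lam δ * ((1 + |2 * R|) ^ (d + 1) * wt d q.1) := mul_le_mul_of_nonneg_left e2 hl0
        _ = _ := by ring
  have hi : Integrable (fun q : Vec d × Vec d => φ q.1 * H15.AV.uf δ (f t q.2 q.1)) (nu d) :=
    integrable_nu hcF.aestronglyMeasurable hbd
  have hi' : Integrable (fun q : Vec d × Vec d => φ q.1 * H15.AV.uf δ (f t q.2 q.1)) ((volume : Measure (Vec d)).prod (muD d)) := hi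
  have h2 : pU φ δ f t = ∫ x, (∫ v, φ v * H15.AV.uf δ (f t x v)) ∂(muD d) := by
    have := integral_prod_symm (fun q : Vec d × Vec d => φ q.1 * H15.AV.uf δ (f t q.2 q.1)) hi'
    exact this
  rw [h2]
  have hub : Continuous fun x : Vec d => ub δ R' (f t x) := by
    rw [← continuousOn_univ]
    exact (ub_cont hf h0 h1 R').comp (f := fun x : Vec d => (t, x)) (by fun_prop) fun x _ => ⟨ht, mem_univ _⟩
  have hui : Integrable (fun x : Vec d => ub δ R' (f t x)) (muD d) := by
    unfold muD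
    exact hub.continuousOn.integrableOn_compact isCompact_Icc
  refine integral_mono hi'.integral_prod_right hui fun x => ?_
  show (∫ v, φ v * H15.AV.uf δ (f t x v)) ≤ ub δ R' (f t x)
  unfold ub
  have hcx : Continuous fun v : Vec d => H15.AV.uf δ (f t x v) :=
    hcu.comp (by fun_prop : Continuous fun v : Vec d => (v, x))
  rw [← integral_indicator measurableSet_closedBall]
  refine integral_mono_of_nonneg (Eventually.of_forall fun v => mul_nonneg (hφ.nonneg v) (hnn x v)) ?_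
    (Eventually.of_forall fun v => ?_)
  · exact (hcx.continuousOn.integrableOn_compact (isCompact_closedBall (0 : Vec d) R')).integrable_indicator
      measurableSet_closedBall
  · show φ v * H15.AV.uf δ (f t x v) ≤ (Metric.closedBall (0 : Vec d) R').indicator (fun v => H15.AV.uf δ (f t x v)) v
    by_cases hv : 2 * R ≤ ‖v‖
    · rw [hφ.tst.supp v hv, zero_mul]
      exact indicator_nonneg (fun w _ => hnn x w) v
    · rw [not_le] at hv
      have hm : v ∈ Metric.closedBall (0 : Vec d) R' := by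
        rw [mem_closedBall_zero_iff]
        linarith
      rw [indicator_of_mem hm]
      calc φ v * H15.AV.uf δ (f t x v) ≤ 1 * H15.AV.uf δ (f t x v) :=
            mul_le_mul_of_nonneg_right (hφ.le_one v) (hnn x v)
        _ = _ := one_mul _

end Pool.Agent.H85.LB
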