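import Pool.Agent.H85.LB.Defs

/-!
# Module LowG: lower bound of the operator with the gain of a set where `g ≥ a`

The proof of `low_Q` (H82/CL/LowQ) with one change. Let `A₁ = A`, `4c ≤ a`. In `lowQ_pt` apply `refl_avg_low` to `G' h = g(v+h) - (a/2) 1[v+h ∈ A]` (it is
`≥ a/2 ≥ 2c ≥ 2 g v` on `A`, `≥ 0` everywhere and equal to `g(v+h)` off `A`, so the hypothesis `2 g v ≤ G' h + G' (-h) + 2 RR` still holds). This gives, at
fixed `m`: loss `+ (a/2) ∫ Kn(bt b ε) 1[v+hh ∈ A] ≤` gain `+` remainder. Multiply with `|m|^γ g(v-m) ≥ |m|^γ a 1_A(v-m)` and integrate in `m`: the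
extra term is `≥ (a²/2) Gn γ (bmid b) (1/2) 1_A v` by `gain_eq` (H82/CM/FoldG) for the kernel `bmid b` and `g = 1_A`, since
`bt (bmid b) (1/2) ≤ bt b ε` on `(-1,1)` for `ε ≤ 1/2` (`Hyp.bd` for the sign). Then `cut_eq` (H82/CM/RealG): `loss + S ≤ gain + R` gives `S - R ≤ boltzCut`.
-/

set_option autoImplicit false

open MeasureTheory Set Filter Topology Pool.Agent.H25.Kin Pool.Agent.H82.BK Pool.Agent.H82.CM
open scoped ENNReal

namespace Pool.Agent.H85.LB

variable {d : ℕ} {γ s C Ca : ℝ} {b : ℝ → ℝ}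

/-- the angular integral of the second order remainder -/
private lemma lowG_ang {γ s : ℝ} {b : ℝ → ℝ} {C Ca : ℝ} (H : Hyp d γ s b C Ca) {c : ℝ}
    (hc : 0 ≤ c) {m : Vec d} (hm : m ≠ 0) {ε : ℝ} (hε : 0 < ε) :
    ∫⁻ σ in {σ : Vec d | 0 < dot m σ}, ENNReal.ofReal (Kn d γ (bt b ε) (co m σ)) *
        ENNReal.ofReal (c * min (nsq m * ((1 - co m σ ^ 2) / co m σ ^ 2)) 1) ∂(surf d) ≤
      ENNReal.ofReal (4 * ((2 ^ (d - 1) * 4 * (2 * C)) * Ca) * c * len m ^ (2 * s)) := by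
  have hC0 : 0 ≤ C := H.bd.1
  have hCa0 : 0 ≤ Ca := H.an.1
  have hs := H.hs
  have hs1 := H.hs1
  have hl := len_pos hm
  have hR : 0 < 2 * len m := by positivity
  have h1 := fast_kint H hm ε hR
  set A := (2 ^ (d - 1) * 4 * (2 * C)) * Ca with hA
  have hA0 : 0 ≤ A := by positivity
  calc ∫⁻ σ in {σ : Vec d | 0 < dot m σ}, ENNReal.ofReal (Kn d γ (bt b ε) (co m σ)) *
        ENNReal.ofReal (c * min (nsq m * ((1 - co m σ ^ 2) / co m σ ^ 2)) 1) ∂(surf d)
      ≤ ∫⁻ σ in {σ : Vec d | 0 < dot m σ}, ENNReal.ofReal c * ENNReal.ofReal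
          (Kn d γ (bt b ε) (co m σ) * min ((2 * len m) ^ 2 * (1 - co m σ)) 1) ∂(surf d) := by
        refine lintegral_mono_ae ?_
        filter_upwards [ae_restrict_of_ae surf_ae, ae_restrict_mem (measurableSet_half m)]
          with σ hσ hmσ
        have hK0 := fast_Kn0 (γ := γ) H.bd hε hσ hmσ
        have hc0 := co_pos hmσ
        have hc1 := co_le_one (m := m) hσ
        rw [← ENNReal.ofReal_mul hK0, ← ENNReal.ofReal_mul hc]
        refine ENNReal.ofReal_le_ofReal ?_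
        rcases lt_or_ge (2 * co m σ ^ 2 - 1) 0 with h2 | h2
        · have : Kn d γ (bt b ε) (co m σ) = 0 := by
            unfold Kn; rw [bt_neg h2, mul_zero]
          rw [this, zero_mul, zero_mul, mul_zero]
        · have h3 : (1 - co m σ ^ 2) / co m σ ^ 2 ≤ 4 * (1 - co m σ) := by
            rw [div_le_iff₀ (by positivity)]
            nlinarith
          have h4 : nsq m * ((1 - co m σ ^ 2) / co m σ ^ 2) ≤
              (2 * len m) ^ 2 * (1 - co m σ) := by
            have h5 := mul_le_mul_of_nonneg_left h3 (sq_nonneg' m)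
            have h6 : (2 * len m) ^ 2 = 4 * nsq m := by rw [mul_pow, len_sq]; norm_num
            rw [h6]
            linarith
          have h7 : min (nsq m * ((1 - co m σ ^ 2) / co m σ ^ 2)) 1 ≤
              min ((2 * len m) ^ 2 * (1 - co m σ)) 1 := min_le_min_right _ h4
          calc Kn d γ (bt b ε) (co m σ) *
                (c * min (nsq m * ((1 - co m σ ^ 2) / co m σ ^ 2)) 1)
              ≤ Kn d γ (bt b ε) (co m σ) * (c * min ((2 * len m) ^ 2 * (1 - co m σ)) 1) := by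
                gcongr
            _ = _ := by ring
    _ = ENNReal.ofReal c * ∫⁻ σ in {σ : Vec d | 0 < dot m σ}, ENNReal.ofReal
          (Kn d γ (bt b ε) (co m σ) * min ((2 * len m) ^ 2 * (1 - co m σ)) 1) ∂(surf d) := by
        rw [lintegral_const_mul' _ _ ENNReal.ofReal_ne_top]
    _ ≤ ENNReal.ofReal c * ENNReal.ofReal (A * (2 * len m) ^ (2 * s)) := mul_le_mul_right h1 _
    _ ≤ _ := by
        rw [← ENNReal.ofReal_mul hc]
        refine ENNReal.ofReal_le_ofReal ?_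
        have h8 : (2 * len m) ^ (2 * s) ≤ 4 * len m ^ (2 * s) := by
          rw [Real.mul_rpow (by norm_num) hl.le]
          refine mul_le_mul_of_nonneg_right ?_ (Real.rpow_nonneg hl.le _)
          calc (2 : ℝ) ^ (2 * s) ≤ 2 ^ (2 : ℝ) :=
                Real.rpow_le_rpow_of_exponent_le (by norm_num) (by linarith)
            _ = 4 := by norm_num
        calc c * (A * (2 * len m) ^ (2 * s)) ≤ c * (A * (4 * len m ^ (2 * s))) := by gcongr
          _ = 4 * A * c * len m ^ (2 * s) := by ring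

private lemma lowG_bcut {b : ℝ → ℝ} {C β ε : ℝ} (hC : AngBound b C β) (hε : 0 < ε) (hε2 : ε ≤ 1 / 2)
    {x : ℝ} (h1 : -1 ≤ x) (h2 : x ≤ 1) : bcut (bmid b) (1 / 2) x ≤ bcut b ε x := by
  have h0 := bcut_nonneg hC hε h1 h2
  unfold bcut bmid
  unfold bcut at h0
  by_cases h3 : x ≤ 1 - 1 / 2
  · rw [if_pos h3]
    by_cases h4 : 1 / 4 ≤ x ∧ x ≤ 1 / 2
    · rw [if_pos h4, if_pos (by linarith [h4.2] : x ≤ 1 - ε)]
    · rw [if_neg h4]
      exact h0
  · rw [if_neg h3]
    exact h0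

private lemma lowG_bt {b : ℝ → ℝ} {C β ε : ℝ} (hC : AngBound b C β) (hε : 0 < ε) (hε2 : ε ≤ 1 / 2)
    {x : ℝ} (h1 : -1 ≤ x) (h2 : x ≤ 1) : bt (bmid b) (1 / 2) x ≤ bt b ε x := by
  unfold bt
  refine add_le_add ?_ ?_
  · split_ifs
    · exact lowG_bcut hC hε hε2 h1 h2
    · exact le_rfl
  · split_ifs
    · exact lowG_bcut hC hε hε2 (by linarith) (by linarith)
    · exact le_rfl

private lemma lowG_bmid_bound {b : ℝ → ℝ} {C β : ℝ} (hC : AngBound b C β) :
    AngBound (bmid b) C β := by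
  refine ⟨hC.1, fun x h1 h2 => ?_⟩
  have h3 := hC.2 x h1 h2
  unfold bmid
  split_ifs
  · exact h3
  · exact ⟨le_rfl, h3.1.trans h3.2⟩

private lemma lowG_bmid_meas {b : ℝ → ℝ} (hb : Measurable b) : Measurable (bmid b) := by
  unfold bmid
  exact Measurable.ite (measurableSet_Icc (a := (1 / 4 : ℝ)) (b := 1 / 2)) hb measurable_const

/-- loss plus the gain of the set `A` at most gain plus remainder, at fixed `m` -/
private lemma lowG_pt {γ s : ℝ} {b : ℝ → ℝ} {C Ca : ℝ} (H : Hyp d γ s b C Ca)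
    {g : Vec d → ℝ} (hgm : Measurable g) (hg0 : ∀ u, 0 ≤ g u) {v : Vec d} {c a : ℝ} (hc : 0 ≤ c)
    (h4 : 4 * c ≤ a) (hgc : g v ≤ c) (hsec : ∀ h, 2 * g v - 2 * c * nsq h ≤ g (v + h) + g (v - h))
    {A : Set (Vec d)} (hA : MeasurableSet A) (hgA : ∀ w ∈ A, a ≤ g w) {m : Vec d}
    (hm : m ≠ 0) {ε : ℝ} (hε : 0 < ε) :
    ENNReal.ofReal (g v) * BB b ε (dir m) +
      ∫⁻ σ in {σ : Vec d | 0 < dot m σ}, ENNReal.ofReal (Kn d γ (bt b ε) (co m σ)) *
        ENNReal.ofReal (a / 2 * A.indicator (fun _ => (1 : ℝ)) (v + hh σ m)) ∂(surf d) ≤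
      (∫⁻ σ in {σ : Vec d | 0 < dot m σ},
        ENNReal.ofReal (Kn d γ (bt b ε) (co m σ) * g (v + hh σ m)) ∂(surf d)) +
      ENNReal.ofReal (4 * ((2 ^ (d - 1) * 4 * (2 * C)) * Ca) * c * len m ^ (2 * s)) := by
  have hgv := hg0 v
  have ha0 : 0 ≤ a := by linarith
  have hd2 : (2 : ℝ) ≤ d := by exact_mod_cast H.hd
  have he : 0 ≤ (d : ℝ) + γ := by have := H.g1; linarith
  have hI0 : ∀ u, 0 ≤ a / 2 * A.indicator (fun _ => (1 : ℝ)) u := fun u =>
    mul_nonneg (by linarith) (Set.indicator_nonneg (fun _ _ => zero_le_one) _)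
  have hIm : Measurable fun u : Vec d => a / 2 * A.indicator (fun _ => (1 : ℝ)) u :=
    (measurable_const.indicator hA).const_mul _
  have hG0 : ∀ u, 0 ≤ g u - a / 2 * A.indicator (fun _ => (1 : ℝ)) u := by
    intro u
    by_cases hu : u ∈ A
    · rw [Set.indicator_of_mem hu]
      have := hgA u hu
      linarith
    · rw [Set.indicator_of_notMem hu]
      have := hg0 u
      linarith
  let K : ℝ → ℝ≥0∞ := fun c' => ENNReal.ofReal (Kn d γ (bt b ε) c')
  let G : Vec d → ℝ≥0∞ := fun h =>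
    ENNReal.ofReal (g (v + h) - a / 2 * A.indicator (fun _ => (1 : ℝ)) (v + h))
  let RR : ℝ → ℝ≥0∞ := fun c' => ENNReal.ofReal (c * min (nsq m * ((1 - c' ^ 2) / c' ^ 2)) 1)
  have hbt := measurable_bt (b := b) H.bm ε
  have hKm' : Measurable (Kn d γ (bt b ε)) := by
    unfold Kn
    have h1 : Measurable fun c : ℝ => c ^ (-2 - γ) := measurable_id.pow_const _
    have h2 : Measurable fun c : ℝ => bt b ε (2 * c ^ 2 - 1) := hbt.comp (by fun_prop)
    exact (measurable_const.mul h1).mul h2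
  have hKm : Measurable K := hKm'.ennreal_ofReal
  have hGm : Measurable G :=
    ((hgm.sub hIm).comp (measurable_const.add measurable_id)).ennreal_ofReal
  have hRm : Measurable RR := by
    have h1 : Measurable fun c' : ℝ => nsq m * ((1 - c' ^ 2) / c' ^ 2) :=
      measurable_const.mul ((measurable_const.sub (measurable_id.pow_const 2)).div
        (measurable_id.pow_const 2))
    exact (measurable_const.mul (h1.min measurable_const)).ennreal_ofReal
  have hpt : ∀ σ : Vec d, nsq σ = 1 → 0 < dot m σ →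
      2 * ENNReal.ofReal (g v) ≤ G (hh σ m) + G (-(hh σ m)) + 2 * RR (co m σ) := by
    intro σ hσ hmσ
    have hX := nsq_hh hσ hmσ
    have hX0 : 0 ≤ nsq (hh σ m) := sq_nonneg' _
    have h2 : ∀ x : ℝ, (2 : ℝ≥0∞) * ENNReal.ofReal x = ENNReal.ofReal (2 * x) := fun x => by
      rw [ENNReal.ofReal_mul (p := 2) (by norm_num)]
      simp
    simp only [G, RR]
    rw [← hX, h2, h2, ← ENNReal.ofReal_add (hG0 _) (hG0 _), ← ENNReal.ofReal_add
      (add_nonneg (hG0 _) (hG0 _)) (by positivity)]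
    refine ENNReal.ofReal_le_ofReal ?_
    have hR0 : 0 ≤ 2 * (c * min (nsq (hh σ m)) 1) := by positivity
    have k1 := hG0 (v + hh σ m)
    have k2 := hG0 (v + -(hh σ m))
    by_cases hu : v + hh σ m ∈ A
    · have h3 : a / 2 ≤ g (v + hh σ m) - a / 2 * A.indicator (fun _ => (1 : ℝ)) (v + hh σ m) := by
        rw [Set.indicator_of_mem hu]
        have := hgA _ hu
        linarith
      linarith
    by_cases hw : v + -(hh σ m) ∈ A
    · have h3 : a / 2 ≤ g (v + -(hh σ m)) -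
          a / 2 * A.indicator (fun _ => (1 : ℝ)) (v + -(hh σ m)) := by
        rw [Set.indicator_of_mem hw]
        have := hgA _ hw
        linarith
      linarith
    rw [Set.indicator_of_notMem hu, Set.indicator_of_notMem hw] at *
    rcases le_total (nsq (hh σ m)) 1 with h | h
    · rw [min_eq_left h]
      have h3 := hsec (hh σ m)
      rw [sub_eq_add_neg v] at h3
      linarith
    · rw [min_eq_right h]
      linarith
  have hav := Pool.Agent.H82.CL.refl_avg_low (R₁ := fun _ => ENNReal.ofReal (g v)) H.hd1 hm hKm hGm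
    measurable_const hRm hpt
  have e1 : ENNReal.ofReal (g v) * BB b ε (dir m) ≤
      ∫⁻ σ in {σ : Vec d | 0 < dot m σ}, K (co m σ) * ENNReal.ofReal (g v) ∂(surf d) := by
    rw [← BB_eq H.hd γ H.bm ε hm, ← lintegral_const_mul' _ _ ENNReal.ofReal_ne_top]
    refine lintegral_mono_ae ?_
    filter_upwards [ae_restrict_of_ae surf_ae, ae_restrict_mem (measurableSet_half m)]
      with σ hσ hmσ
    have hK0 := fast_Kn0 (γ := γ) H.bd hε hσ hmσ
    have hc0 := co_pos hmσ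
    have hc1 := co_le_one (m := m) hσ
    rw [mul_comm]
    refine mul_le_mul_left (ENNReal.ofReal_le_ofReal ?_) _
    have h1 : co m σ ^ ((d : ℝ) + γ) ≤ 1 := Real.rpow_le_one hc0.le hc1 he
    nlinarith
  have e2 : (∫⁻ σ in {σ : Vec d | 0 < dot m σ}, K (co m σ) * G (hh σ m) ∂(surf d)) +
      (∫⁻ σ in {σ : Vec d | 0 < dot m σ}, ENNReal.ofReal (Kn d γ (bt b ε) (co m σ)) *
        ENNReal.ofReal (a / 2 * A.indicator (fun _ => (1 : ℝ)) (v + hh σ m)) ∂(surf d)) ≤
      ∫⁻ σ in {σ : Vec d | 0 < dot m σ},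
        ENNReal.ofReal (Kn d γ (bt b ε) (co m σ) * g (v + hh σ m)) ∂(surf d) := by
    refine (le_lintegral_add _ _).trans (lintegral_mono fun σ => ?_)
    simp only [K, G]
    rw [← mul_add, ← ENNReal.ofReal_add (hG0 _) (hI0 _), ENNReal.ofReal_mul' (hg0 _),
      sub_add_cancel]
  calc ENNReal.ofReal (g v) * BB b ε (dir m) +
      ∫⁻ σ in {σ : Vec d | 0 < dot m σ}, ENNReal.ofReal (Kn d γ (bt b ε) (co m σ)) *
        ENNReal.ofReal (a / 2 * A.indicator (fun _ => (1 : ℝ)) (v + hh σ m)) ∂(surf d)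
      ≤ ((∫⁻ σ in {σ : Vec d | 0 < dot m σ}, K (co m σ) * G (hh σ m) ∂(surf d)) +
        ∫⁻ σ in {σ : Vec d | 0 < dot m σ}, K (co m σ) * RR (co m σ) ∂(surf d)) +
        ∫⁻ σ in {σ : Vec d | 0 < dot m σ}, ENNReal.ofReal (Kn d γ (bt b ε) (co m σ)) *
          ENNReal.ofReal (a / 2 * A.indicator (fun _ => (1 : ℝ)) (v + hh σ m)) ∂(surf d) := by
        gcongr
        exact e1.trans hav
    _ = ((∫⁻ σ in {σ : Vec d | 0 < dot m σ}, K (co m σ) * G (hh σ m) ∂(surf d)) +
        ∫⁻ σ in {σ : Vec d | 0 < dot m σ}, ENNReal.ofReal (Kn d γ (bt b ε) (co m σ)) *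
          ENNReal.ofReal (a / 2 * A.indicator (fun _ => (1 : ℝ)) (v + hh σ m)) ∂(surf d)) +
        ∫⁻ σ in {σ : Vec d | 0 < dot m σ}, K (co m σ) * RR (co m σ) ∂(surf d) := by
        ring
    _ ≤ _ := add_le_add e2 (lowG_ang H hc hm hε)

/-- the gain of the set `A` -/
private lemma lowG_set {γ s : ℝ} {b : ℝ → ℝ} {C Ca : ℝ} (H : Hyp d γ s b C Ca)
    {g : Vec d → ℝ} {v : Vec d} {a : ℝ} (ha : 0 ≤ a)
    {A : Set (Vec d)} (hA : MeasurableSet A) (hgA : ∀ w ∈ A, a ≤ g w)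
    {ε : ℝ} (hε : 0 < ε) (hε2 : ε ≤ 1 / 2) :
    ENNReal.ofReal (a ^ 2 / 2) * Gn γ (bmid b) (1 / 2) (A.indicator fun _ => (1 : ℝ)) v ≤
      ∫⁻ m, ENNReal.ofReal (len m ^ γ * g (v - m)) *
        ∫⁻ σ in {σ : Vec d | 0 < dot m σ}, ENNReal.ofReal (Kn d γ (bt b ε) (co m σ)) *
          ENNReal.ofReal (a / 2 * A.indicator (fun _ => (1 : ℝ)) (v + hh σ m)) ∂(surf d) := by
  have hI0 : ∀ u, 0 ≤ A.indicator (fun _ => (1 : ℝ)) u := fun u =>
    Set.indicator_nonneg (fun _ _ => zero_le_one) _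
  have hIm : Measurable (A.indicator fun _ : Vec d => (1 : ℝ)) := measurable_const.indicator hA
  rw [gain_eq H.hd γ (lowG_bmid_meas H.bm) (lowG_bmid_bound H.bd) (by norm_num) hIm hI0 v,
    ← lintegral_const_mul' _ _ ENNReal.ofReal_ne_top]
  refine lintegral_mono fun m => ?_
  have hlγ : 0 ≤ len m ^ γ := Real.rpow_nonneg (len_nonneg m) γ
  by_cases hm : v - m ∈ A
  · have h1 : ENNReal.ofReal (a ^ 2 / 2) = ENNReal.ofReal a * ENNReal.ofReal (a / 2) := by
      rw [← ENNReal.ofReal_mul ha]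
      congr 1; ring
    have h2 : ENNReal.ofReal a * ENNReal.ofReal (len m ^ γ *
        A.indicator (fun _ => (1 : ℝ)) (v - m)) ≤ ENNReal.ofReal (len m ^ γ * g (v - m)) := by
      rw [Set.indicator_of_mem hm, ← ENNReal.ofReal_mul ha]
      refine ENNReal.ofReal_le_ofReal ?_
      have h3 := mul_le_mul_of_nonneg_left (hgA _ hm) hlγ
      linarith
    rw [h1]
    calc ENNReal.ofReal a * ENNReal.ofReal (a / 2) * (ENNReal.ofReal (len m ^ γ *
          A.indicator (fun _ => (1 : ℝ)) (v - m)) * ∫⁻ σ in {σ : Vec d | 0 < dot m σ},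
          ENNReal.ofReal (Kn d γ (bt (bmid b) (1 / 2)) (co m σ) *
            A.indicator (fun _ => (1 : ℝ)) (v + hh σ m)) ∂(surf d))
        = (ENNReal.ofReal a * ENNReal.ofReal (len m ^ γ *
          A.indicator (fun _ => (1 : ℝ)) (v - m))) * (ENNReal.ofReal (a / 2) *
          ∫⁻ σ in {σ : Vec d | 0 < dot m σ},
          ENNReal.ofReal (Kn d γ (bt (bmid b) (1 / 2)) (co m σ) *
            A.indicator (fun _ => (1 : ℝ)) (v + hh σ m)) ∂(surf d)) := by ring
      _ ≤ _ := by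
        refine mul_le_mul' h2 ?_
        rw [← lintegral_const_mul' _ _ ENNReal.ofReal_ne_top]
        refine lintegral_mono_ae ?_
        filter_upwards [ae_restrict_of_ae surf_ae, ae_restrict_mem (measurableSet_half m)]
          with σ hσ hmσ
        have hK0 := fast_Kn0 (γ := γ) H.bd hε hσ hmσ
        have hc0 := co_pos hmσ
        have hc1 := co_le_one (m := m) hσ
        have hK : Kn d γ (bt (bmid b) (1 / 2)) (co m σ) ≤ Kn d γ (bt b ε) (co m σ) := by
          unfold Kn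
          refine mul_le_mul_of_nonneg_left (lowG_bt H.bd hε hε2 ?_ ?_)
            (mul_nonneg (by positivity) (Real.rpow_nonneg hc0.le _))
          · nlinarith
          · nlinarith
        rw [← ENNReal.ofReal_mul (by linarith), ← ENNReal.ofReal_mul hK0]
        refine ENNReal.ofReal_le_ofReal ?_
        have h5 := hI0 (v + hh σ m)
        have h6 := mul_le_mul_of_nonneg_right hK (mul_nonneg (by linarith : 0 ≤ a / 2) h5)
        nlinarith
  · rw [Set.indicator_of_notMem hm, mul_zero, ENNReal.ofReal_zero, zero_mul, mul_zero]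
    exact zero_le

theorem low_Q_gain (H : Hyp d γ s b C Ca) : ∃ K : ℝ, 0 ≤ K ∧ ∀ g : Vec d → ℝ, Nice g →
    (∀ u, 0 ≤ g u) → ∀ (v : Vec d) (c a c₃ : ℝ), 0 ≤ c → 4 * c ≤ a → 0 ≤ c₃ → g v ≤ c →
    (∀ h, 2 * g v - 2 * c * nsq h ≤ g (v + h) + g (v - h)) →
    ∀ A : Set (Vec d), MeasurableSet A → (∀ w ∈ A, a ≤ g w) →
      ENNReal.ofReal c₃ ≤ Gn γ (bmid b) (1 / 2) (A.indicator fun _ => (1 : ℝ)) v →
      c₃ * (a ^ 2 / 2) - K * c * (∫ z, g z * len (v - z) ^ (γ + 2 * s)) ≤ boltzQ γ b g v := by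
  have hC0 : 0 ≤ C := H.bd.1
  have hCa0 : 0 ≤ Ca := H.an.1
  set K : ℝ := 4 * ((2 ^ (d - 1) * 4 * (2 * C)) * Ca) with hK
  have hK0 : 0 ≤ K := by positivity
  refine ⟨K, hK0, fun g hg hg0 v c a c₃ hc h4 hc₃ hgc hsec A hA hgA hGn => ?_⟩
  have ha0 : 0 ≤ a := by linarith
  have hint : Integrable fun z : Vec d => g z * len (v - z) ^ (γ + 2 * s) :=
    freq_integrable H.hd (by have := H.h0; linarith) H.h2 hg v
  have hnn : ∀ z, 0 ≤ g z * len (v - z) ^ (γ + 2 * s) := fun z =>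
    mul_nonneg (hg0 z) (Real.rpow_nonneg (len_nonneg _) _)
  have hI : 0 ≤ ∫ z, g z * len (v - z) ^ (γ + 2 * s) := integral_nonneg hnn
  refine ge_of_tendsto (boltz_tendsto H hg v) ?_
  filter_upwards [Ioc_mem_nhdsGT (show (0 : ℝ) < 1 / 2 by norm_num)] with ε hε
  have hε0 : 0 < ε := hε.1
  have mg := hg.cont.measurable
  set R : ℝ := K * c * ∫ z, g z * len (v - z) ^ (γ + 2 * s) with hR
  have hR0 : 0 ≤ R := mul_nonneg (mul_nonneg hK0 hc) hI
  have hS0 : 0 ≤ c₃ * (a ^ 2 / 2) := by positivity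
  have key : Ls γ b ε g v + ENNReal.ofReal (c₃ * (a ^ 2 / 2)) ≤
      Gn γ b ε g v + ENNReal.ofReal R := by
    set E : Vec d → ℝ≥0∞ := fun z => ENNReal.ofReal (K * c * (g z * len (v - z) ^ (γ + 2 * s)))
      with hE
    have hEm : Measurable E := by
      have hlm : Measurable fun z : Vec d => len (v - z) ^ (γ + 2 * s) :=
        (continuous_len.comp (continuous_const.sub continuous_id)).measurable.pow_const _
      exact ((mg.mul hlm).const_mul _).ennreal_ofReal
    have e1 : ENNReal.ofReal R = ∫⁻ m, E (v - m) := by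
      rw [lintegral_sub_left_eq_self E v, hE, hR, ← integral_const_mul,
        ofReal_integral_eq_lintegral_ofReal (hint.const_mul _)]
      exact Eventually.of_forall fun z => mul_nonneg (mul_nonneg hK0 hc) (hnn z)
    have hEm' : Measurable fun m : Vec d => E (v - m) :=
      hEm.comp (measurable_const.sub measurable_id)
    have e2 : ENNReal.ofReal (c₃ * (a ^ 2 / 2)) ≤
        ∫⁻ m, ENNReal.ofReal (len m ^ γ * g (v - m)) *
          ∫⁻ σ in {σ : Vec d | 0 < dot m σ}, ENNReal.ofReal (Kn d γ (bt b ε) (co m σ)) *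
            ENNReal.ofReal (a / 2 * A.indicator (fun _ => (1 : ℝ)) (v + hh σ m)) ∂(surf d) := by
      refine le_trans ?_ (lowG_set H ha0 hA hgA hε0 hε.2)
      rw [mul_comm c₃, ENNReal.ofReal_mul (by positivity)]
      exact mul_le_mul_right hGn _
    refine (add_le_add le_rfl e2).trans ?_
    rw [e1, loss_eq H.hd γ H.bm H.bd hε0 mg hg0 v, gain_eq H.hd γ H.bm H.bd hε0 mg hg0 v,
      ← lintegral_add_right _ hEm']
    refine (le_lintegral_add _ _).trans (lintegral_mono_ae ?_)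
    filter_upwards [ae_ne H.hd1 (0 : Vec d)] with m hm
    have hm0 : m ≠ 0 := hm.symm
    have hl := len_pos hm0
    have hlγ : 0 ≤ len m ^ γ := Real.rpow_nonneg (len_nonneg m) γ
    have hW : 0 ≤ len m ^ γ * g (v - m) := mul_nonneg hlγ (hg0 _)
    have h1 := lowG_pt H mg hg0 hc h4 hgc hsec hA hgA hm0 hε0
    have h2 : E (v - m) = ENNReal.ofReal (len m ^ γ * g (v - m)) *
        ENNReal.ofReal (K * c * len m ^ (2 * s)) := by
      rw [hE, ← ENNReal.ofReal_mul hW]
      simp only [sub_sub_cancel]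
      congr 1
      rw [Real.rpow_add hl]
      ring
    rw [h2, ← mul_add, ← mul_add]
    exact mul_le_mul_right h1 _
  obtain ⟨t1, t2, e⟩ := cut_eq H hg hg0 hε0 v
  rw [e]
  have h3 : (Ls γ b ε g v + ENNReal.ofReal (c₃ * (a ^ 2 / 2))).toReal ≤
      (Gn γ b ε g v + ENNReal.ofReal R).toReal :=
    ENNReal.toReal_mono (ENNReal.add_ne_top.2 ⟨t1, ENNReal.ofReal_ne_top⟩) key
  rw [ENNReal.toReal_add t1 ENNReal.ofReal_ne_top, ENNReal.toReal_ofReal hR0,
    ENNReal.toReal_add t2 ENNReal.ofReal_ne_top, ENNReal.toReal_ofReal hS0] at h3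
  linarith

end Pool.Agent.H85.LB
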