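import Pool.Agent.H85.LB.Defs

/-!
# Module MomU: moments from the uniform decay

`f ≤ U (d+3) (1+‖w‖)^(-(d+3))`, so `f (1+‖w‖)^q ≤ U (d+3) wt d w` for `q ≤ 2` (`integrable_wt`), and
`len (v - w) ^ μ ≤ (1 + len v + len w)^μ ≤ C (1+‖v‖)^2 (1+‖w‖)^2` for `0 ≤ μ ≤ 2`.
-/

set_option autoImplicit false

open MeasureTheory Set Filter Topology Pool.Agent.H25.Kin Pool.Agent.H15.AV

namespace Pool.Agent.H85.LB

variable {d : ℕ}

private lemma momu_pt (U : ℕ → ℝ) {g : Vec d → ℝ} (h0 : ∀ v, 0 ≤ g v)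
    (hU : ∀ (N : ℕ) (v : Vec d), (1 + ‖v‖) ^ N * g v ≤ U N) (w : Vec d) :
    g w * (1 + ‖w‖) ^ 2 ≤ |U (d + 3)| * wt d w := by
  have hp : 0 < 1 + ‖w‖ := w_pos w
  have h1 : g w * (1 + ‖w‖) ^ 2 = ((1 + ‖w‖) ^ (d + 3) * g w) * wt d w := by
    unfold wt
    have h2 : (1 + ‖w‖) ^ (d + 3) = (1 + ‖w‖) ^ 2 * (1 + ‖w‖) ^ (d + 1) := by ring
    rw [h2]
    have h3 : (1 + ‖w‖) ^ (d + 1) ≠ 0 := (pow_pos hp _).ne'
    field_simp
  rw [h1]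
  exact mul_le_mul_of_nonneg_right ((hU (d + 3) w).trans (le_abs_self _)) (wt_nonneg w)

private lemma momu_rpow {x μ : ℝ} (hx : 0 ≤ x) (h0 : 0 ≤ μ) (h2 : μ ≤ 2) : x ^ μ ≤ 1 + x ^ 2 := by
  rcases le_total x 1 with h | h
  · have h3 : x ^ μ ≤ 1 := Real.rpow_le_one hx h h0
    nlinarith [sq_nonneg x]
  · have h3 : x ^ μ ≤ x ^ (2 : ℝ) := Real.rpow_le_rpow_of_exponent_le h h2
    rw [Real.rpow_two] at h3
    linarith

private lemma momu_nsq (z : Vec d) : nsq z ≤ d * ‖z‖ ^ 2 := by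
  unfold nsq
  calc ∑ i, z i ^ 2 ≤ ∑ _i : Fin d, ‖z‖ ^ 2 := by
        refine Finset.sum_le_sum fun i _ => ?_
        have h := norm_le_pi_norm z i
        rw [Real.norm_eq_abs] at h
        rw [← sq_abs (z i)]
        exact pow_le_pow_left₀ (abs_nonneg _) h 2
    _ = d * ‖z‖ ^ 2 := by simp

private lemma momu_len {μ : ℝ} (h0 : 0 ≤ μ) (h2 : μ ≤ 2) (v z : Vec d) :
    len (v - z) ^ μ ≤ (1 + d) * (1 + ‖v‖) ^ 2 * (1 + ‖z‖) ^ 2 := by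
  have h1 : len (v - z) ^ μ ≤ 1 + len (v - z) ^ 2 := momu_rpow (Real.sqrt_nonneg _) h0 h2
  have h3 : len (v - z) ^ 2 = nsq (v - z) := by
    unfold len
    refine Real.sq_sqrt ?_
    unfold nsq
    exact Finset.sum_nonneg fun i _ => sq_nonneg _
  have h4 := momu_nsq (v - z)
  have h5 := w_sub_le v z
  have h6 : (1 + ‖v - z‖) ^ 2 ≤ ((1 + ‖v‖) * (1 + ‖z‖)) ^ 2 :=
    pow_le_pow_left₀ (by positivity) h5 2
  have h7 : (0 : ℝ) ≤ d := Nat.cast_nonneg d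
  have h8 : 1 + len (v - z) ^ 2 ≤ (1 + d) * (1 + ‖v - z‖) ^ 2 := by
    rw [h3]
    nlinarith [norm_nonneg (v - z), mul_nonneg h7 (norm_nonneg (v - z)), sq_nonneg ‖v - z‖]
  calc len (v - z) ^ μ ≤ (1 + d) * (1 + ‖v - z‖) ^ 2 := h1.trans h8
    _ ≤ (1 + d) * ((1 + ‖v‖) * (1 + ‖z‖)) ^ 2 := mul_le_mul_of_nonneg_left h6 (by positivity)
    _ = (1 + d) * (1 + ‖v‖) ^ 2 * (1 + ‖z‖) ^ 2 := by ring

theorem kap_le (U : ℕ → ℝ) {q : ℝ} (hq : 0 ≤ q) (hq2 : q ≤ 2) : ∃ κ : ℝ, 0 ≤ κ ∧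
    ∀ g : Vec d → ℝ, Nice g → (∀ v, 0 ≤ g v) → (∀ (N : ℕ) (v : Vec d), (1 + ‖v‖) ^ N * g v ≤ U N) → kap q g ≤ κ := by
  refine ⟨∫ w : Vec d, |U (d + 3)| * wt d w, ?_, ?_⟩
  · exact integral_nonneg fun w => mul_nonneg (abs_nonneg _) (wt_nonneg w)
  · intro g _ h0 hU
    unfold kap
    refine integral_mono_of_nonneg (Filter.Eventually.of_forall fun w => ?_)
      (integrable_wt.const_mul _) (Filter.Eventually.of_forall fun w => ?_)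
    · exact mul_nonneg (h0 w) (Real.rpow_nonneg (w_pos w).le _)
    · have h1 : (1 + ‖w‖) ^ q ≤ (1 + ‖w‖) ^ 2 := by
        have h2 : (1 + ‖w‖) ^ q ≤ (1 + ‖w‖) ^ (2 : ℝ) :=
          Real.rpow_le_rpow_of_exponent_le (by linarith [norm_nonneg w]) hq2
        rwa [Real.rpow_two] at h2
      exact (mul_le_mul_of_nonneg_left h1 (h0 w)).trans (momu_pt U h0 hU w)

theorem conv_le (U : ℕ → ℝ) {μ : ℝ} (h0 : 0 ≤ μ) (h2 : μ ≤ 2) (V : ℝ) : ∃ κ : ℝ, 0 ≤ κ ∧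
    ∀ g : Vec d → ℝ, Nice g → (∀ v, 0 ≤ g v) → (∀ (N : ℕ) (v : Vec d), (1 + ‖v‖) ^ N * g v ≤ U N) →
      ∀ v : Vec d, ‖v‖ ≤ V → ∫ z, g z * len (v - z) ^ μ ≤ κ := by
  refine ⟨∫ w : Vec d, ((1 + d) * (1 + V) ^ 2 * |U (d + 3)|) * wt d w, ?_, ?_⟩
  · refine integral_nonneg fun w => mul_nonneg ?_ (wt_nonneg w)
    positivity
  · intro g _ hg hU v hv
    refine integral_mono_of_nonneg (Filter.Eventually.of_forall fun w => ?_)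
      (integrable_wt.const_mul _) (Filter.Eventually.of_forall fun w => ?_)
    · exact mul_nonneg (hg w) (Real.rpow_nonneg (Real.sqrt_nonneg _) _)
    · have h1 := momu_len h0 h2 v w
      have h3 : (1 + ‖v‖) ^ 2 ≤ (1 + V) ^ 2 :=
        pow_le_pow_left₀ (w_pos v).le (by linarith) 2
      have h4 := momu_pt U hg hU w
      have h5 : (0 : ℝ) ≤ 1 + d := by positivity
      calc g w * len (v - w) ^ μ ≤ g w * ((1 + d) * (1 + ‖v‖) ^ 2 * (1 + ‖w‖) ^ 2) :=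
            mul_le_mul_of_nonneg_left h1 (hg w)
        _ = ((1 + d) * (g w * (1 + ‖w‖) ^ 2)) * (1 + ‖v‖) ^ 2 := by ring
        _ ≤ ((1 + d) * (g w * (1 + ‖w‖) ^ 2)) * (1 + V) ^ 2 :=
            mul_le_mul_of_nonneg_left h3 (mul_nonneg h5 (mul_nonneg (hg w) (sq_nonneg _)))
        _ ≤ ((1 + d) * (|U (d + 3)| * wt d w)) * (1 + V) ^ 2 :=
            mul_le_mul_of_nonneg_right (mul_le_mul_of_nonneg_left h4 h5) (sq_nonneg _)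
        _ = ((1 + d) * (1 + V) ^ 2 * |U (d + 3)|) * wt d w := by ring

end Pool.Agent.H85.LB
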