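import Pool.Agent.H85.LB.Defs

/-!
# Module SmallU: the normalised deficit is small in the mean at every time `t ≥ h`

(helper15's recipe.) Let `h₁ = min h 1`. For `τ ∈ [t - h₁/2, t]`: `main_pos` (H15/AV/Fin, with `h₁/2` in place of `h`): mass `≥ m₁` off a set of
measure `ε₁`; `chebyshev` (H15/AV/Abs): mass, energy, entropy `≤ N` off a set of measure `ε₂`; so the fiber is `Good m₁ N` off measure `ε₁ + ε₂`.
`good_small` (H15/AV/Dis) on `[t - h₁/2, t]`: `∫ over {Good} of ub δ (2R) ≤ η lam δ`. On the other fibers `ub δ (2R) ≤ V lam δ`, `V` the volume of the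
ball (`uf_le_lam`). Mean value over the window: some `s ∈ [t - h₁/2, t]` with `∫ ub δ (2R) (f s x) dx ≤ (2η/h₁ + V (ε₁+ε₂)) lam δ`. Then `evol`
(H15/AV/Evo) with `φ (v,x) = χ v` (`exists_chi d hR`, constant in `x`): `pairU φ δ f t ≤ pairU φ δ f s + K η lam δ`, and
`∫ ub δ R ≤ pairU φ ≤ ∫ ub δ (2R)`. The choice of a good time is inside the proof of `main_pos`: copy from there.
-/

set_option autoImplicit false

open MeasureTheory Set Filter Topology Pool.Agent.H25.Kin Pool.Agent.H15.AV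

namespace Pool.Agent.H85.LB

variable {d : ℕ} {q : ℝ} {Q : (Vec d → ℝ) → Vec d → ℝ}

/-- bounded functions with compact support in the velocity are integrable -/
private lemma su_int {H : Vec d × Vec d → ℝ} (cH : Continuous H) {B R : ℝ} (hR : 0 ≤ R)
    (hB : ∀ q, |H q| ≤ B) (h0 : ∀ q, R ≤ ‖q.1‖ → H q = 0) : Integrable H (nu d) := by
  refine integrable_nu (C := B * (1 + R) ^ (d + 1)) cH.aestronglyMeasurable fun q => ?_
  have hB0 : 0 ≤ B := (abs_nonneg _).trans (hB q)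
  rcases le_or_gt R ‖q.1‖ with h | h
  · rw [h0 q h, abs_zero]
    exact mul_nonneg (mul_nonneg hB0 (by positivity)) (wt_nonneg _)
  · refine (hB q).trans ?_
    have h1 : 1 ≤ (1 + R) ^ (d + 1) * wt d q.1 := by
      unfold wt
      rw [← div_eq_mul_inv, one_le_div (pow_pos (w_pos q.1) _)]
      exact pow_le_pow_left₀ (w_pos q.1).le (by linarith) _
    calc B = B * 1 := (mul_one B).symm
      _ ≤ B * ((1 + R) ^ (d + 1) * wt d q.1) := mul_le_mul_of_nonneg_left h1 hB0
      _ = _ := by ring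

private lemma su_ufc {F : Vec d → Vec d → ℝ} (hF : Slice F) {δ : ℝ} (h0 : 0 < δ) :
    Continuous fun q : Vec d × Vec d => Pool.Agent.H15.AV.uf δ (F q.1 q.2) := by
  have hc := hF.cont
  unfold Pool.Agent.H15.AV.uf
  refine (Continuous.log (continuous_const.add hc) fun q => ?_).sub
    (Continuous.log (continuous_const.add hc) fun q => ?_)
  · have := hF.nonneg q.1 q.2
    have h1 : 0 < 1 + F q.1 q.2 := by linarith
    exact h1.ne'
  · have := hF.nonneg q.1 q.2
    have h1 : 0 < δ + F q.1 q.2 := by linarith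
    exact h1.ne'

/-- the integral of the deficit over a ball is at most the pairing with a cut-off function -/
private lemma su_lower {F : Vec d → Vec d → ℝ} (hF : Slice F) {δ : ℝ} (h0 : 0 < δ) (h1 : δ ≤ 1)
    {χ : Vec d → ℝ} {R K : ℝ} (hR : 0 < R) (hχ : Tst (2 * R) K χ) (χ0 : ∀ v, 0 ≤ χ v)
    (χ1 : ∀ v, χ v ≤ 1) (χR : ∀ v, ‖v‖ ≤ R → χ v = 1) :
    ∫ x, ub δ R (F x) ∂(muD d) ≤ ∫ q, χ q.1 * Pool.Agent.H15.AV.uf δ (F q.2 q.1) ∂(nu d) := by
  have u0 : ∀ x v, 0 ≤ Pool.Agent.H15.AV.uf δ (F x v) := fun x v => uf_nonneg h0 h1 (hF.nonneg x v)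
  have u1 : ∀ x v, Pool.Agent.H15.AV.uf δ (F x v) ≤ lam δ := fun x v => uf_le_lam h0 h1 (hF.nonneg x v)
  have cH : Continuous fun q : Vec d × Vec d => χ q.1 * Pool.Agent.H15.AV.uf δ (F q.2 q.1) :=
    (hχ.smooth.continuous.comp continuous_fst).mul
      ((su_ufc hF h0).comp (by fun_prop : Continuous fun q : Vec d × Vec d => (q.2, q.1)))
  have iH : Integrable (fun q : Vec d × Vec d => χ q.1 * Pool.Agent.H15.AV.uf δ (F q.2 q.1)) (nu d) := by
    refine su_int cH (B := lam δ) (R := 2 * R) (by linarith) (fun q => ?_) fun q hq => ?_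
    · rw [abs_of_nonneg (mul_nonneg (χ0 _) (u0 _ _))]
      calc χ q.1 * Pool.Agent.H15.AV.uf δ (F q.2 q.1) ≤ 1 * lam δ := mul_le_mul (χ1 _) (u1 _ _) (u0 _ _) zero_le_one
        _ = lam δ := one_mul _
    · rw [hχ.supp q.1 hq, zero_mul]
  rw [nu_integral iH]
  have iΦ : Integrable (fun x => ∫ v, χ v * Pool.Agent.H15.AV.uf δ (F x v)) (muD d) := by
    unfold nu at iH
    exact iH.integral_prod_right
  have b : ∀ x, ub δ R (F x) ≤ ∫ v, χ v * Pool.Agent.H15.AV.uf δ (F x v) := by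
    intro x
    have c1 : Continuous fun v => Pool.Agent.H15.AV.uf δ (F x v) :=
      (su_ufc hF h0).comp (by fun_prop : Continuous fun v : Vec d => (x, v))
    have i1 : Integrable fun v => χ v * Pool.Agent.H15.AV.uf δ (F x v) := by
      refine (hχ.smooth.continuous.mul c1).integrable_of_hasCompactSupport ?_
      refine HasCompactSupport.intro (isCompact_closedBall (0 : Vec d) (2 * R)) fun v hv => ?_
      rw [mem_closedBall_zero_iff, not_le] at hv
      rw [Pi.mul_apply, hχ.supp v hv.le, zero_mul]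
    have e1 : ub δ R (F x) = ∫ v in Metric.closedBall (0 : Vec d) R, χ v * Pool.Agent.H15.AV.uf δ (F x v) := by
      unfold ub
      refine setIntegral_congr_fun Metric.isClosed_closedBall.measurableSet fun v hv => ?_
      rw [mem_closedBall_zero_iff] at hv
      rw [χR v hv, one_mul]
    rw [e1]
    exact setIntegral_le_integral i1 (Eventually.of_forall fun v => mul_nonneg (χ0 v) (u0 x v))
  refine integral_mono_of_nonneg (Eventually.of_forall fun x => ?_) iΦ (Eventually.of_forall b)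
  exact ub_nonneg h0 h1 R (hF.nonneg x)

theorem small_ub (hQ : FibTh q Q) (hq : 0 ≤ q) (hq2 : q < 2) {m : ℝ} (hm : 0 < m) (M : ℝ) {R h ε : ℝ}
    (hR : 0 < R) (hh : 0 < h) (hε : 0 < ε) :
    ∃ δ₀ > 0, δ₀ ≤ 1 / 2 ∧ ∀ δ ∈ Ioc (0 : ℝ) δ₀, ∀ (T : ℝ) (f : ℝ → Vec d → Vec d → ℝ),
      IsClassicalSol T (fun t x => Q (f t x)) f → (∀ t ∈ Ico 0 T, Glob m M (f t)) →
      ∀ t ∈ Ico 0 T, h ≤ t → ∫ x, ub δ R (f t x) ∂(muD d) ≤ ε * lam δ := by
  set h' := min h 1 with hh'
  have hp' : 0 < h' := lt_min hh one_pos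
  have hp1 : h' ≤ 1 := min_le_right _ _
  obtain ⟨K, χ, hχ, χ0, χ1, χR⟩ := exists_chi d hR
  have h2R : 0 < 2 * R := by linarith
  have hK : 0 ≤ K := (abs_nonneg _).trans (hχ.le0 0)
  set V := (4 * R) ^ d with hV
  have hV0 : 0 < V := by positivity
  have hε₁ : 0 < ε / (8 * V) := by positivity
  obtain ⟨m₁, hm₁, Hm⟩ := main_pos (d := d) hQ hq hq2 hm M (h := h' / 2) (by linarith) hε₁
  obtain ⟨N, HN⟩ := chebyshev (d := d) m M hε₁
  obtain ⟨δ₁, hδ₁, hδ₁h, Hev⟩ := evol hQ hq hq2 m M h2R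
    (η := ε / (4 * (K + 1))) (by positivity)
  obtain ⟨δ₂, hδ₂, hδ₂h, Hgd⟩ := good_small hQ hq hq2 m M h2R hm₁ N
    (η := ε * h' / 8) (by positivity)
  refine ⟨min δ₁ δ₂, lt_min hδ₁ hδ₂, (min_le_left _ _).trans hδ₁h, ?_⟩
  intro δ hδ T f hf hG t ht hht
  have hδ0 : 0 < δ := hδ.1
  have hδa : δ ≤ δ₁ := hδ.2.trans (min_le_left _ _)
  have hδb : δ ≤ δ₂ := hδ.2.trans (min_le_right _ _)
  have hδh : δ ≤ 1 / 2 := hδa.trans hδ₁h
  have hδ1 : δ ≤ 1 := by linarith
  have hlam0 : 0 < lam δ := lam_pos hδ0 (by linarith)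
  have hht' : h' ≤ t := (min_le_left _ _).trans hht
  set a := t - h' / 2 with ha
  have ha0 : h' / 2 ≤ a := by rw [ha]; linarith
  have hap : 0 < a := by linarith
  have hab : a ≤ t := by rw [ha]; linarith
  have hba : t - a = h' / 2 := by rw [ha]; ring
  have hI : ∀ s ∈ Icc a t, s ∈ Ico 0 T := fun s hs => ⟨by linarith [hs.1], lt_of_le_of_lt hs.2 ht.2⟩
  set gd : Set (ℝ × Vec d) := {p : ℝ × Vec d | Good m₁ N (f p.1 p.2)} ∩ (Icc a t ×ˢ univ) with hgd
  have hgdm : MeasurableSet gd := good_meas hf m₁ N hap.le ht.2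
  set A₂ : ℝ → ℝ := fun s => ∫ x, gd.indicator (fun p => ub δ (2 * R) (f p.1 p.2)) (s, x) ∂(muD d)
    with hA₂
  set L : ℝ := ∫ x, ub δ R (f t x) ∂(muD d) with hL
  have key : ∀ s ∈ Icc a t, L ≤ A₂ s + (ε / 4 * lam δ + ε / 4 * lam δ) := by
    intro s hs
    have hsI := hI s hs
    have hsl := sol_slice hf hsI
    set φ : Vec d × Vec d → ℝ := fun p => χ p.1 with hφ
    have hφc : Continuous φ := hχ.smooth.continuous.comp continuous_fst
    have e1 := Hev δ ⟨hδ0, hδa⟩ T f hf hG s t (by linarith [hs.1]) hs.2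
      (by have := hs.1; linarith) ht.2 K φ hφc (fun p => χ0 _) (fun v y i => rfl)
      (fun τ _ x => hχ)
    have e2 := su_lower (sol_slice hf ht) hδ0 hδ1 hR hχ χ0 χ1 χR
    have e3 := upper_s hsl hδ0 hδh hR hχ χ0 χ1 (G := fun _ => 1) continuous_const
      (fun _ => zero_le_one) (A := 1) (fun _ => le_rfl) (fun _ _ => rfl) m₁ N
    have p1 : pairU φ δ f t = ∫ q, χ q.1 * Pool.Agent.H15.AV.uf δ (f t q.2 q.1) ∂(nu d) := rfl
    have p2 : pairU φ δ f s = ∫ q, χ q.1 * 1 * Pool.Agent.H15.AV.uf δ (f s q.2 q.1) ∂(nu d) := by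
      unfold pairU
      congr 1
      funext p
      rw [mul_one]
    have q2 : ∫ x in {x | Good m₁ N (f s x)}, ub δ (2 * R) (f s x) ∂(muD d) = A₂ s := by
      have hm1 : MeasurableSet {x : Vec d | Good m₁ N (f s x)} := by
        have h1 : {x : Vec d | Good m₁ N (f s x)} = (fun x => (s, x)) ⁻¹' gd := by
          ext x
          simp only [hgd, mem_preimage, mem_inter_iff, mem_ofPred_eq, mem_prod, mem_univ, and_true]
          exact ⟨fun h2 => ⟨h2, hs⟩, fun h2 => h2.1⟩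
        rw [h1]
        exact hgdm.preimage measurable_prodMk_left
      rw [← integral_indicator hm1, hA₂]
      congr 1
      funext x
      by_cases hx : Good m₁ N (f s x)
      · rw [indicator_of_mem (show x ∈ {x : Vec d | Good m₁ N (f s x)} from hx)]
        have h1 : (s, x) ∈ gd := ⟨hx, hs, mem_univ _⟩
        rw [indicator_of_mem h1]
      · rw [indicator_of_notMem (show x ∉ {x : Vec d | Good m₁ N (f s x)} from hx)]
        have h1 : (s, x) ∉ gd := fun h2 => hx h2.1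
        rw [indicator_of_notMem h1]
    have q1 : ∫ _x in {x | ∫ v, f s x v < m₁}, (1 : ℝ) ∂(muD d) ≤ ε / (8 * V) := by
      rw [setIntegral_const, smul_eq_mul, mul_one, measureReal_def]
      exact ENNReal.toReal_le_of_le_ofReal hε₁.le (Hm T f hf hG s hsI (by linarith [hs.1]))
    have q3 : ((muD d) {x | m₁ ≤ (∫ v, f s x v) ∧ ¬ Good m₁ N (f s x)}).toReal ≤ ε / (8 * V) := by
      refine ENNReal.toReal_le_of_le_ofReal hε₁.le
        ((measure_mono fun x hx => ?_).trans (HN (f s) hsl (hG s hsI)))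
      intro hc
      exact hx.2 ⟨hx.1, hc.1, hc.2.1, hc.2.2⟩
    rw [q2, ← hV, one_mul, one_mul, ← p2] at e3
    rw [← p1] at e2
    have t1 : V * lam δ * ∫ _x in {x | ∫ v, f s x v < m₁}, (1 : ℝ) ∂(muD d) ≤ ε / 8 * lam δ := by
      calc V * lam δ * ∫ _x in {x | ∫ v, f s x v < m₁}, (1 : ℝ) ∂(muD d)
          ≤ V * lam δ * (ε / (8 * V)) := mul_le_mul_of_nonneg_left q1 (by positivity)
        _ = ε / 8 * lam δ := by field_simp
    have t2 : V * lam δ * ((muD d) {x | m₁ ≤ (∫ v, f s x v) ∧ ¬ Good m₁ N (f s x)}).toReal ≤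
        ε / 8 * lam δ := by
      calc V * lam δ * ((muD d) {x | m₁ ≤ (∫ v, f s x v) ∧ ¬ Good m₁ N (f s x)}).toReal
          ≤ V * lam δ * (ε / (8 * V)) := mul_le_mul_of_nonneg_left q3 (by positivity)
        _ = ε / 8 * lam δ := by field_simp
    have t3 : K * (ε / (4 * (K + 1)) * lam δ) ≤ ε / 4 * lam δ := by
      have h1 : K * (ε / (4 * (K + 1))) ≤ ε / 4 := by
        have h2 : K * (ε / (4 * (K + 1))) = ε / 4 * (K / (K + 1)) := by field_simp
        rw [h2]
        have h3 : K / (K + 1) ≤ 1 := (div_le_one (by linarith)).2 (by linarith)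
        exact mul_le_of_le_one_right (by positivity) h3
      calc K * (ε / (4 * (K + 1)) * lam δ) = K * (ε / (4 * (K + 1))) * lam δ := by ring
        _ ≤ _ := mul_le_mul_of_nonneg_right h1 hlam0.le
    linarith
  -- integrate over the window
  have hsub : Icc a t ×ˢ (univ : Set (Vec d)) ⊆ Ico 0 T ×ˢ univ := fun p hp => ⟨hI _ hp.1, hp.2⟩
  have iu : Integrable (fun p : ℝ × Vec d => ub δ (2 * R) (f p.1 p.2)) (st d a t) :=
    st_integrable ((ub_cont hf hδ0 hδ1 (2 * R)).mono hsub)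
  have iug : Integrable (gd.indicator fun p : ℝ × Vec d => ub δ (2 * R) (f p.1 p.2)) (st d a t) :=
    iu.indicator hgdm
  have hst_ae : ∀ᵐ p ∂(st d a t), p ∈ Icc a t ×ˢ (univ : Set (Vec d)) := by
    have h1 : ∀ᵐ s ∂(volume.restrict (Icc a t)), s ∈ Icc a t := ae_restrict_mem measurableSet_Icc
    have h2 : (Icc a t ×ˢ (univ : Set (Vec d))) = Prod.fst ⁻¹' (Icc a t) := by
      ext p; simp
    rw [h2]
    exact Measure.quasiMeasurePreserving_fst.ae h1
  have I₂ : ∫ s in a..t, A₂ s = ∫ p, gd.indicator (fun p => ub δ (2 * R) (f p.1 p.2)) p ∂(st d a t) :=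
    (st_integral hab iug).symm
  have J₂ : ∫ p, gd.indicator (fun p => ub δ (2 * R) (f p.1 p.2)) p ∂(st d a t) ≤
      ε * h' / 8 * lam δ := by
    rw [integral_indicator hgdm]
    have h1 : ∫ p in gd, ub δ (2 * R) (f p.1 p.2) ∂(st d a t) =
        ∫ p in {p : ℝ × Vec d | Good m₁ N (f p.1 p.2)}, ub δ (2 * R) (f p.1 p.2) ∂(st d a t) := by
      refine setIntegral_congr_set ?_
      filter_upwards [hst_ae] with p hp
      exact propext ⟨fun h2 => h2.1, fun h2 => ⟨h2, hp⟩⟩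
    rw [h1]
    exact Hgd δ ⟨hδ0, hδb⟩ T f hf hG a t hap hab (by linarith) ht.2
  have v₂ : IntervalIntegrable A₂ volume a t := by
    rw [intervalIntegrable_iff_integrableOn_Icc_of_le hab]
    exact iug.integral_prod_left
  have vc : ∀ y : ℝ, IntervalIntegrable (fun _ => y) volume a t := fun y =>
    intervalIntegrable_const
  have hint : ∫ _s in a..t, L ≤ ∫ s in a..t, (A₂ s + (ε / 4 * lam δ + ε / 4 * lam δ)) :=
    intervalIntegral.integral_mono_on hab (vc _) (v₂.add (vc _)) key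
  rw [intervalIntegral.integral_add v₂ (vc _), intervalIntegral.integral_const,
    intervalIntegral.integral_const, smul_eq_mul, smul_eq_mul, hba, I₂] at hint
  have h1 : h' / 2 * L ≤ h' / 2 * (ε / 4 * lam δ + (ε / 4 * lam δ + ε / 4 * lam δ)) := by
    have h2 : ε * h' / 8 * lam δ = h' / 2 * (ε / 4 * lam δ) := by ring
    rw [h2] at J₂
    linarith
  have h3 : L ≤ ε / 4 * lam δ + (ε / 4 * lam δ + ε / 4 * lam δ) :=
    le_of_mul_le_mul_left h1 (by linarith)
  have h4 : 0 ≤ ε / 4 * lam δ := by positivity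
  linarith

end Pool.Agent.H85.LB
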