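import Pool.Agent.H85.LB.Defs

/-!
# Module VisB: if little deficit is seen from `v` then the fiber is `≥ √δ` on most of the ball

If `g w < √δ` then `uf δ (g w) ≥ lam δ / 2`. So `θ lam δ ≥ vis ≥ (lam δ / 2) r² (vol Bad - vol {‖w‖ ≤ R, |v_e - w_e| < r})`, and the slab has volume
`≤ 2r (2R)^(d-1)`. Choose `r`, then `θ`. (`χ ≥ 0`, `χ = 1` on the ball, `uf ≥ 0`; the integrand is integrable: continuous with compact support.)
-/

set_option autoImplicit false

open MeasureTheory Set Filter Topology Pool.Agent.H25.Kin Pool.Agent.H15.AV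

namespace Pool.Agent.H85.LB

variable {d : ℕ} {R K : ℝ} {χ : Vec d → ℝ}

theorem vis_nonneg (e : Fin d) (hχ : Cut R K χ) {δ : ℝ} (h0 : 0 < δ) (h1 : δ ≤ 1) {g : Vec d → ℝ}
    (g0 : ∀ v, 0 ≤ g v) (v : Vec d) : 0 ≤ vis e χ δ g v := by
  unfold vis
  refine integral_nonneg fun w => ?_
  exact mul_nonneg (mul_nonneg (sq_nonneg _) (hχ.nonneg w)) (uf_nonneg h0 h1 (g0 w))

/-- the deficit is large where the function is small -/
private lemma uf_low {δ a : ℝ} (h0 : 0 < δ) (h1 : δ ≤ 1 / 2) (ha : 0 ≤ a) (h : a < Real.sqrt δ) :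
    lam δ / 2 ≤ Pool.Agent.H15.AV.uf δ a := by
  have hs0 : 0 < Real.sqrt δ := Real.sqrt_pos.2 h0
  have hss : Real.sqrt δ * Real.sqrt δ = δ := Real.mul_self_sqrt h0.le
  have hs1 : Real.sqrt δ < 1 := by nlinarith
  have e1 : lam δ / 2 = -Real.log (Real.sqrt δ) := by
    unfold lam
    rw [Real.log_sqrt h0.le]
    ring
  have h2 : δ + a ≤ Real.sqrt δ * (1 + a) := by nlinarith
  have h3 : Real.log (δ + a) ≤ Real.log (Real.sqrt δ) + Real.log (1 + a) := by
    rw [← Real.log_mul hs0.ne' (by positivity)]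
    exact Real.log_le_log (by positivity) h2
  unfold Pool.Agent.H15.AV.uf
  rw [e1]
  linarith

private lemma vis_int (e : Fin d) (hχ : Cut R K χ) {δ : ℝ} (h0 : 0 < δ) {g : Vec d → ℝ}
    (hg : Continuous g) (g0 : ∀ v, 0 ≤ g v) (v : Vec d) :
    Integrable fun w => (v e - w e) ^ 2 * χ w * Pool.Agent.H15.AV.uf δ (g w) := by
  have c1 : Continuous fun w : Vec d => (v e - w e) ^ 2 :=
    (continuous_const.sub (continuous_apply e)).pow 2
  have c2 : Continuous fun w => Pool.Agent.H15.AV.uf δ (g w) := by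
    unfold Pool.Agent.H15.AV.uf
    refine Continuous.sub ?_ ?_
    · refine Continuous.log (f := fun w => 1 + g w) (continuous_const.add hg) fun w => ?_
      have := g0 w
      positivity
    · refine Continuous.log (f := fun w => δ + g w) (continuous_const.add hg) fun w => ?_
      have := g0 w
      positivity
  refine ((c1.mul hχ.tst.smooth.continuous).mul c2).integrable_of_hasCompactSupport ?_
  refine HasCompactSupport.intro (isCompact_closedBall (0 : Vec d) (2 * R)) fun w hw => ?_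
  rw [Metric.mem_closedBall, dist_zero_right, not_le] at hw
  show (v e - w e) ^ 2 * χ w * Pool.Agent.H15.AV.uf δ (g w) = 0
  rw [hχ.tst.supp w hw.le, mul_zero, zero_mul]

/-- the volume of a slab in the ball -/
private lemma slab_le (e : Fin d) (hR : 0 < R) {r : ℝ} (hr : 0 < r) (v : Vec d) :
    volume {w : Vec d | ‖w‖ ≤ R ∧ |v e - w e| < r} ≤
      ENNReal.ofReal (2 * r * (2 * R) ^ (d - 1)) := by
  classical
  set s : Fin d → Set ℝ := fun i => if i = e then Icc (v e - r) (v e + r) else Icc (-R) R with hs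
  have hsub : {w : Vec d | ‖w‖ ≤ R ∧ |v e - w e| < r} ⊆ Set.pi univ s := by
    rintro w ⟨h1, h2⟩ i _
    by_cases hi : i = e
    · subst hi
      simp only [hs, if_true]
      have := abs_lt.1 h2
      exact ⟨by linarith, by linarith⟩
    · simp only [hs, if_neg hi]
      have h3 : |w i| ≤ R := by
        have := norm_le_pi_norm w i
        rw [Real.norm_eq_abs] at this
        linarith
      exact abs_le.1 h3
  refine (measure_mono hsub).trans ?_
  rw [volume_pi_pi, ← Finset.mul_prod_erase Finset.univ _ (Finset.mem_univ e)]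
  have e1 : volume (s e) = ENNReal.ofReal (2 * r) := by
    simp only [hs, if_true]
    rw [Real.volume_Icc]
    congr 1
    ring
  have e2 : ∏ i ∈ Finset.univ.erase e, volume (s i) = ENNReal.ofReal (2 * R) ^ (d - 1) := by
    rw [Finset.prod_congr rfl (g := fun _ => ENNReal.ofReal (2 * R)) fun i hi => ?_]
    · rw [Finset.prod_const, Finset.card_erase_of_mem (Finset.mem_univ e), Finset.card_univ,
        Fintype.card_fin]
    · simp only [hs, if_neg (Finset.ne_of_mem_erase hi)]
      rw [Real.volume_Icc]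
      congr 1
      ring
  rw [e1, e2, ← ENNReal.ofReal_pow (by positivity), ← ENNReal.ofReal_mul (by positivity)]

theorem vis_bad (e : Fin d) (hR : 0 < R) {μ : ℝ} (hμ : 0 < μ) : ∃ θ : ℝ, 0 < θ ∧
    ∀ (K : ℝ) (χ : Vec d → ℝ), Cut R K χ → ∀ δ ∈ Ioc (0 : ℝ) (1 / 2), ∀ g : Vec d → ℝ, Nice g →
      (∀ v, 0 ≤ g v) → ∀ v : Vec d, vis e χ δ g v ≤ θ * lam δ →
        volume (Metric.closedBall (0 : Vec d) R \ {w | Real.sqrt δ ≤ g w}) ≤ ENNReal.ofReal μ := by
  set A : ℝ := (2 * R) ^ (d - 1) with hA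
  have hA0 : 0 < A := by positivity
  set r : ℝ := μ / (4 * A) with hr
  have hr0 : 0 < r := by positivity
  refine ⟨μ * r ^ 2 / 4, by positivity, ?_⟩
  rintro K χ hχ δ ⟨h0, h1⟩ g hg g0 v hv
  have hlam : 0 < lam δ := by
    unfold lam
    have := Real.log_neg h0 (by linarith)
    linarith
  set h : Vec d → ℝ := fun w => (v e - w e) ^ 2 * χ w * Pool.Agent.H15.AV.uf δ (g w) with hh
  have hint : Integrable h := vis_int e hχ h0 hg.cont g0 v
  have hnn : ∀ w, 0 ≤ h w := fun w =>
    mul_nonneg (mul_nonneg (sq_nonneg _) (hχ.nonneg w)) (uf_nonneg h0 (by linarith) (g0 w))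
  set ε : ℝ := r ^ 2 * (lam δ / 2) with hε
  have hε0 : 0 < ε := by positivity
  have m1 := mul_meas_ge_le_integral_of_nonneg (Eventually.of_forall hnn) hint ε
  have m2 : ∫ w, h w ≤ μ * r ^ 2 / 4 * lam δ := hv
  have m3 : volume.real {w | ε ≤ h w} ≤ μ / 2 := by
    have m4 : ε * volume.real {w | ε ≤ h w} ≤ ε * (μ / 2) := by
      refine (m1.trans m2).trans (le_of_eq ?_)
      rw [hε]; ring
    exact le_of_mul_le_mul_left m4 hε0
  have hfin : volume {w | ε ≤ h w} ≠ ⊤ := by
    refine ne_top_of_le_ne_top (b := volume (Metric.closedBall (0 : Vec d) (2 * R)))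
      (isCompact_closedBall (0 : Vec d) (2 * R)).measure_lt_top.ne (measure_mono fun w hw => ?_)
    by_contra hc
    rw [Metric.mem_closedBall, dist_zero_right, not_le] at hc
    have h3 : h w = 0 := by
      rw [hh]
      simp only
      rw [hχ.tst.supp w hc.le, mul_zero, zero_mul]
    have h4 : ε ≤ h w := hw
    linarith
  have m5 : volume {w | ε ≤ h w} ≤ ENNReal.ofReal (μ / 2) := by
    rw [← ENNReal.ofReal_toReal hfin]
    exact ENNReal.ofReal_le_ofReal m3
  have hsub : Metric.closedBall (0 : Vec d) R \ {w | Real.sqrt δ ≤ g w} ⊆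
      {w | ε ≤ h w} ∪ {w : Vec d | ‖w‖ ≤ R ∧ |v e - w e| < r} := by
    rintro w ⟨hw1, hw2⟩
    rw [Metric.mem_closedBall, dist_zero_right] at hw1
    have hw3 : g w < Real.sqrt δ := not_le.1 hw2
    by_cases hs : |v e - w e| < r
    · exact Or.inr ⟨hw1, hs⟩
    · refine Or.inl ?_
      rw [not_lt] at hs
      show ε ≤ h w
      rw [hh]
      simp only
      rw [hχ.eq_one w hw1, mul_one, hε]
      have h5 : r ^ 2 ≤ (v e - w e) ^ 2 := by
        rw [← sq_abs (v e - w e)]
        exact pow_le_pow_left₀ hr0.le hs 2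
      exact mul_le_mul h5 (uf_low h0 h1 (g0 w) hw3) (by linarith) (sq_nonneg _)
  refine (measure_mono hsub).trans ((measure_union_le _ _).trans ?_)
  refine (add_le_add m5 (slab_le e hR hr0 v)).trans ?_
  rw [← ENNReal.ofReal_add (by positivity) (by positivity)]
  refine ENNReal.ofReal_le_ofReal ?_
  have h6 : 2 * r * (2 * R) ^ (d - 1) = μ / 2 := by
    rw [← hA, hr]
    field_simp
    ring
  rw [h6]
  linarith

end Pool.Agent.H85.LB
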