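import Pool.Agent.H85.LB.PzD
import Pool.Agent.H85.LB.DissD
import Pool.Agent.H85.LB.SmallU
import Pool.Agent.H85.LB.VisB
import Pool.Agent.H85.LB.GeoG
import Pool.Agent.H85.LB.LowG
import Pool.Agent.H85.LB.Barr
import Pool.Agent.H85.LB.MomU

/-!
# Module Win: the lower bound on a window

Constants in this order (`κ₀`, `κ₁` from `kap_le`, `conv_le` with `V = 2`; `K` from `low_Q_gain`; `h ≤ 1`): `μ, c₃` (`geo_gain`); `χ` the cut-off with `R = 4`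
(`exists_chi`), `θ` (`vis_bad`); `C₁ = 2 K κ₁`; `M₀ = (1/h + C₁ + 1)/θ`; `η` small against `1/M₀`; `A₁, A₂, R', φ` (`pz_deriv`); `ε` small against `1/(M₀ (A₁ + A₂ + 1))`;
`δ` (`small_ub` for `R'` and `ε`, and `1/lam δ ≤ ε`, `exists_lam_ge`); `c₀` with `c₀ (1/h + C₁) < δ c₃/2` and `8 c₀ ≤ √δ`.
Put `t₀ = t - h ≥ h`, `Er r = (A₁/lam δ) (pU t₀ - pU r) + (2 A₂ ε + η) (r - t₀)`, and the barrier
`B r x v = c₀ ((r - t₀)/h - nsq v - M₀ (Pz r x v + Er r + 30 ε))`. `|Pz| ≤ (‖v‖ + 8) ε`, `|Er| ≤ (A₁ + 2 A₂) ε + η`.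
-/

set_option autoImplicit false

open MeasureTheory Set Filter Topology Pool.Agent.H25.Kin Pool.Agent.H15.AV Pool.Agent.H82.CM

namespace Pool.Agent.H85.LB

variable {d : ℕ} {γ s : ℝ} {b : ℝ → ℝ}

/-- the bounds of the operator at a touching point -/
private theorem op_low {C Ca cb : ℝ} (HL : HypL d γ s b C Ca cb) (e : Fin d) (U : ℕ → ℝ) :
    ∃ (C₁ c₃ θ Kχ : ℝ) (χ : Vec d → ℝ), 0 ≤ C₁ ∧ 0 < c₃ ∧ 0 < θ ∧ Cut 4 Kχ χ ∧
      ∀ δ ∈ Ioc (0 : ℝ) (1 / 2), ∀ g : Vec d → ℝ, Nice g → (∀ v, 0 ≤ g v) →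
        (∀ (N : ℕ) (v : Vec d), (1 + ‖v‖) ^ N * g v ≤ U N) → ∀ v : Vec d, ‖v‖ ≤ 2 →
        ∀ c₀ : ℝ, 0 < c₀ → 8 * c₀ ≤ Real.sqrt δ → g v ≤ 2 * c₀ →
        (∀ h, 2 * g v - 2 * c₀ * nsq h ≤ g (v + h) + g (v - h)) →
        -(C₁ * c₀) ≤ boltzQ γ b g v ∧
          (vis e χ δ g v ≤ θ * lam δ → c₃ * δ - C₁ * c₀ ≤ boltzQ γ b g v) := by
  have H := HL.H
  obtain ⟨K₁, hK₁, h1⟩ := Pool.Agent.H82.CL.low_Q H
  obtain ⟨K₂, hK₂, h2⟩ := low_Q_gain H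
  obtain ⟨μ, c₃, hμ, hc₃, h3⟩ := geo_gain HL
  obtain ⟨κ, hκ0, hκ⟩ := conv_le (d := d) U H.h0 H.h2 2
  obtain ⟨Kχ, χ, t1, t2, t3, t4⟩ := exists_chi d (R := 4) (by norm_num)
  obtain ⟨θ, hθ, h4⟩ := vis_bad e (R := 4) (by norm_num) hμ
  refine ⟨2 * (K₁ + K₂) * κ, c₃ / 2, θ, Kχ, χ, by positivity, by positivity, hθ, ⟨t1, t2, t3, t4⟩, ?_⟩
  intro δ hδ g hg g0 gU v hv c₀ hc₀ hcδ hgv hsec
  have hI := hκ g hg g0 gU v hv
  have hI0 : 0 ≤ ∫ z, g z * len (v - z) ^ (γ + 2 * s) :=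
    integral_nonneg fun z => mul_nonneg (g0 z) (Real.rpow_nonneg (len_nonneg _) _)
  have hsec' : ∀ h, 2 * g v - 2 * (2 * c₀) * nsq h ≤ g (v + h) + g (v - h) := by
    intro h
    have h5 := hsec h
    have h6 : 0 ≤ nsq h := sq_nonneg' h
    linarith [mul_nonneg hc₀.le h6]
  have q1 := h1 g hg g0 v (2 * c₀) (by positivity) hgv hsec'
  have b1 : K₁ * (2 * c₀) * ∫ z, g z * len (v - z) ^ (γ + 2 * s) ≤ K₁ * (2 * c₀) * κ :=
    mul_le_mul_of_nonneg_left hI (by positivity)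
  have b2 : K₂ * (2 * c₀) * ∫ z, g z * len (v - z) ^ (γ + 2 * s) ≤ K₂ * (2 * c₀) * κ :=
    mul_le_mul_of_nonneg_left hI (by positivity)
  have n1 : 0 ≤ K₁ * (2 * c₀) * κ := by positivity
  have n2 : 0 ≤ K₂ * (2 * c₀) * κ := by positivity
  have e1 : 2 * (K₁ + K₂) * κ * c₀ = K₁ * (2 * c₀) * κ + K₂ * (2 * c₀) * κ := by ring
  refine ⟨by rw [e1]; linarith, fun hvis => ?_⟩
  have hA : MeasurableSet {w : Vec d | Real.sqrt δ ≤ g w} :=
    (isClosed_le continuous_const hg.cont).measurableSet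
  have v1 := h4 Kχ χ ⟨t1, t2, t3, t4⟩ δ hδ g hg g0 v hvis
  have v2 := h3 _ hA v1 v hv
  have q2 := h2 g hg g0 v (2 * c₀) (Real.sqrt δ) c₃ (by positivity) (by linarith) hc₃.le hgv hsec'
    _ hA (fun w hw => hw) v2
  rw [Real.sq_sqrt hδ.1.le] at q2
  rw [e1]
  linarith

private theorem Win_sq {n : ℝ} (h : 2 ≤ n) : 2 * n ≤ n ^ 2 := by nlinarith

private theorem Win_q {n x : ℝ} (hx : 0 ≤ x) (hx1 : x ≤ 1 / 400) :
    (n + 8) * x ≤ n ^ 2 + 30 * x := by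
  nlinarith [sq_nonneg (n - x / 2), mul_nonneg hx (sub_nonneg.2 hx1)]

theorem window (hd : 2 ≤ d) (hs : s ∈ Ioo (0 : ℝ) 1) (h0 : 0 ≤ γ + 2 * s) (h2 : γ + 2 * s < 2) (hb : IsKernel d s b)
    (e : Fin d) (U : ℕ → ℝ) {m : ℝ} (hm : 0 < m) (M : ℝ) {h : ℝ} (hh : 0 < h) (hh1 : h ≤ 1) :
    ∃ c : ℝ, 0 < c ∧ ∀ (T : ℝ) (f : ℝ → Vec d → Vec d → ℝ), IsBoltzmannSol γ b T f →
      Pool.Agent.H48.PL.Planar e T f → UB U T f → (∀ t ∈ Ico 0 T, Glob m M (f t)) →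
      ∀ t ∈ Ico 0 T, 2 * h ≤ t → ∀ x v : Vec d, nsq v ≤ (1 / 2) ^ 2 → c ≤ f t x v := by
  obtain ⟨C, Ca, cb, HL⟩ := exists_hypL hd hs.1 hs.2 h0 h2.le hb
  have hQ : FibTh (d := d) (γ + 2 * s) (boltzQ γ b) := fibTh_boltz HL.H hb
  obtain ⟨C₁, c₃, θ, Kχ, χ, hC₁, hc₃, hθ, hχ, hop⟩ := op_low HL e U
  obtain ⟨κ₀, hκ₀, hκ⟩ := kap_le (d := d) U h0 h2.le
  obtain ⟨M₀, hM₀d⟩ : ∃ M₀ : ℝ, M₀ = (1 / h + C₁ + 1) / θ := ⟨_, rfl⟩
  have hM₀ : 0 < M₀ := by rw [hM₀d]; positivity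
  have hM₀θ : M₀ * θ = 1 / h + C₁ + 1 := by rw [hM₀d]; field_simp
  obtain ⟨η, hηd⟩ : ∃ η : ℝ, η = 1 / (16 * M₀) := ⟨_, rfl⟩
  have hη : 0 < η := by rw [hηd]; positivity
  have hMη : M₀ * η = 1 / 16 := by rw [hηd]; field_simp
  obtain ⟨A₁, A₂, R', φ, hA₁, hA₂, hR', hφ, hder⟩ := pz_deriv hQ e (R := 4) (by norm_num) hχ hη hκ₀
  obtain ⟨ε, hεd⟩ : ∃ ε : ℝ, ε = 1 / (400 * M₀ * (A₁ + A₂ + 1)) := ⟨_, rfl⟩
  have hε : 0 < ε := by rw [hεd]; positivity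
  have hMε0 : M₀ * ((A₁ + A₂ + 1) * ε) = 1 / 400 := by rw [hεd]; field_simp
  have hMε : M₀ * ε ≤ 1 / 400 := by
    rw [← hMε0]
    refine mul_le_mul_of_nonneg_left ?_ hM₀.le
    linarith [mul_nonneg hA₁ hε.le, mul_nonneg hA₂ hε.le]
  have hR'0 : 0 < R' := by linarith
  obtain ⟨δ₁, hδ₁, hδ₁', hsm⟩ := small_ub (d := d) hQ h0 h2 hm M (R := R') hR'0 hh hε
  obtain ⟨δ₂, hδ₂, hδ₂', hlam⟩ := exists_lam_ge (1 / ε)
  obtain ⟨δ₃, hδ₃, hδ₃', hsm8⟩ := small_ub (d := d) hQ h0 h2 hm M (R := 2 * 4) (by norm_num) hh hε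
  obtain ⟨δ, hδd⟩ : ∃ δ : ℝ, δ = min δ₁ (min δ₂ δ₃) := ⟨_, rfl⟩
  have hδ0 : 0 < δ := by rw [hδd]; exact lt_min hδ₁ (lt_min hδ₂ hδ₃)
  have hδl1 : δ ≤ δ₁ := by rw [hδd]; exact min_le_left _ _
  have hδl2 : δ ≤ δ₂ := by rw [hδd]; exact (min_le_right _ _).trans (min_le_left _ _)
  have hδl3 : δ ≤ δ₃ := by rw [hδd]; exact (min_le_right _ _).trans (min_le_right _ _)
  have hδh : δ ≤ 1 / 2 := hδl1.trans hδ₁'
  have hΛε := hlam δ ⟨hδ0, hδl2⟩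
  have hΛ : 0 < lam δ := lt_of_lt_of_le (by positivity) hΛε
  have hΛinv : 1 / lam δ ≤ ε := by
    rw [div_le_iff₀ hΛ]
    rw [div_le_iff₀ hε] at hΛε
    linarith
  obtain ⟨c₀, hc₀d⟩ : ∃ c₀ : ℝ, c₀ = min (Real.sqrt δ / 8) (c₃ * δ / (2 * (1 / h + C₁ + 1))) := ⟨_, rfl⟩
  have hc₀ : 0 < c₀ := by
    rw [hc₀d]
    exact lt_min (by have := Real.sqrt_pos.2 hδ0; positivity) (by positivity)
  have hc₀a : 8 * c₀ ≤ Real.sqrt δ := by
    have := min_le_left (Real.sqrt δ / 8) (c₃ * δ / (2 * (1 / h + C₁ + 1)))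
    rw [← hc₀d] at this
    linarith
  have hc₀b : c₀ * (1 / h + C₁ + 1) ≤ c₃ * δ / 2 := by
    have h5 := min_le_right (Real.sqrt δ / 8) (c₃ * δ / (2 * (1 / h + C₁ + 1)))
    rw [← hc₀d] at h5
    have h6 : 0 < 1 / h + C₁ + 1 := by positivity
    calc c₀ * (1 / h + C₁ + 1) ≤ c₃ * δ / (2 * (1 / h + C₁ + 1)) * (1 / h + C₁ + 1) :=
          mul_le_mul_of_nonneg_right h5 h6.le
      _ = c₃ * δ / 2 := by field_simp
  refine ⟨c₀ / 2, by positivity, fun T f hf hpl hU hG t ht h2t => ?_⟩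
  have hfc : IsClassicalSol T (fun t x => boltzQ γ b (f t x)) f := hf
  obtain ⟨t₀, ht₀d⟩ : ∃ t₀ : ℝ, t₀ = t - h := ⟨_, rfl⟩
  have ht₀h : h ≤ t₀ := by rw [ht₀d]; linarith
  have ht₀p : 0 < t₀ := lt_of_lt_of_le hh ht₀h
  have ht₀t : t₀ ≤ t := by rw [ht₀d]; linarith
  have hmemI : ∀ r ∈ Icc t₀ t, r ∈ Ico 0 T := fun r hr => ⟨ht₀p.le.trans hr.1, lt_of_le_of_lt hr.2 ht.2⟩
  have hmemO : ∀ r ∈ Icc t₀ t, r ∈ Ioo 0 T := fun r hr => ⟨lt_of_lt_of_le ht₀p hr.1, lt_of_le_of_lt hr.2 ht.2⟩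
  have hub : ∀ r ∈ Icc t₀ t, (∫ x, ub δ R' (f r x) ∂(muD d)) / lam δ ≤ ε := by
    intro r hr
    rw [div_le_iff₀ hΛ]
    exact hsm δ ⟨hδ0, hδl1⟩ T f hfc hG r (hmemI r hr) (ht₀h.trans hr.1)
  have hub8 : ∀ r ∈ Icc t₀ t, (∫ x, ub δ (2 * 4) (f r x) ∂(muD d)) / lam δ ≤ ε := by
    intro r hr
    rw [div_le_iff₀ hΛ]
    exact hsm8 δ ⟨hδ0, hδl3⟩ T f hfc hG r (hmemI r hr) (ht₀h.trans hr.1)
  have hPz : ∀ r ∈ Icc t₀ t, ∀ x v : Vec d, |Pz e χ δ f r x v| ≤ (‖v‖ + 2 * 4) * ε := by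
    intro r hr x v
    refine (pz_bound hfc hpl hδ0 hδh (by norm_num) hχ (hmemI r hr) x v).trans ?_
    exact mul_le_mul_of_nonneg_left (hub8 r hr) (by have := norm_nonneg v; linarith)
  have hp0 : ∀ r ∈ Icc t₀ t, 0 ≤ pU φ δ f r / lam δ := fun r hr =>
    div_nonneg (pU_nonneg hfc hδ0 (by linarith) hφ (hmemI r hr)) hΛ.le
  have hp1 : ∀ r ∈ Icc t₀ t, pU φ δ f r / lam δ ≤ ε := fun r hr =>
    (div_le_div_of_nonneg_right (pU_le hfc hδ0 (by linarith) hφ (by linarith) (hmemI r hr)) hΛ.le).trans (hub r hr)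
  -- the time corrector
  set Er : ℝ → ℝ := fun r => A₁ * ((pU φ δ f t₀ - pU φ δ f r) / lam δ) + (2 * A₂ * ε + η) * (r - t₀) with hEr
  have hEr0 : Er t₀ = 0 := by simp [hEr]
  have hErb : ∀ r ∈ Icc t₀ t, |Er r| ≤ (A₁ + 2 * A₂) * ε + η := by
    intro r hr
    have a1 := hp0 r hr
    have a2 := hp1 r hr
    have a3 := hp0 t₀ ⟨le_rfl, ht₀t⟩
    have a4 := hp1 t₀ ⟨le_rfl, ht₀t⟩
    have a5 : 0 ≤ r - t₀ := by linarith [hr.1]
    have a6 : r - t₀ ≤ 1 := by have := hr.2; rw [ht₀d]; linarith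
    have a7 : |(pU φ δ f t₀ - pU φ δ f r) / lam δ| ≤ ε := by
      rw [sub_div, abs_le]
      exact ⟨by linarith, by linarith⟩
    have a8 : 0 ≤ 2 * A₂ * ε + η := by positivity
    calc |Er r| ≤ |A₁ * ((pU φ δ f t₀ - pU φ δ f r) / lam δ)| + |(2 * A₂ * ε + η) * (r - t₀)| := abs_add_le _ _
      _ ≤ A₁ * ε + (2 * A₂ * ε + η) * 1 := by
          rw [abs_mul, abs_mul, abs_of_nonneg hA₁, abs_of_nonneg a8, abs_of_nonneg a5]
          exact add_le_add (mul_le_mul_of_nonneg_left a7 hA₁) (mul_le_mul_of_nonneg_left a6 a8)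
      _ = (A₁ + 2 * A₂) * ε + η := by ring
  have hMEr : ∀ r ∈ Icc t₀ t, M₀ * |Er r| ≤ 1 / 8 := by
    intro r hr
    have a1 : M₀ * |Er r| ≤ M₀ * ((A₁ + 2 * A₂) * ε + η) := mul_le_mul_of_nonneg_left (hErb r hr) hM₀.le
    have a2 : M₀ * ((A₁ + 2 * A₂) * ε) ≤ 2 * (M₀ * ((A₁ + A₂ + 1) * ε)) := by
      rw [show 2 * (M₀ * ((A₁ + A₂ + 1) * ε)) = M₀ * (2 * ((A₁ + A₂ + 1) * ε)) by ring]
      refine mul_le_mul_of_nonneg_left ?_ hM₀.le
      linarith [mul_nonneg hA₁ hε.le, hε.le]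
    rw [mul_add, hMη] at a1
    rw [hMε0] at a2
    linarith
  have hErd : ∀ r ∈ Icc t₀ t, HasDerivAt Er (A₁ * (sU (boltzQ γ b) φ δ f r / lam δ) + (2 * A₂ * ε + η)) r := by
    intro r hr
    have a1 := pU_deriv hfc hδ0 (by linarith : δ ≤ 1) hφ (hmemO r hr)
    have a2 := ((a1.const_sub (pU φ δ f t₀)).div_const (lam δ)).const_mul A₁
    have a3 := ((hasDerivAt_id r).sub_const t₀).const_mul (2 * A₂ * ε + η)
    have a4 := a2.add a3
    rw [neg_neg, mul_one] at a4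
    exact a4
  have hErc : ContinuousOn Er (Icc t₀ t) := fun r hr => (hErd r hr).continuousAt.continuousWithinAt
  -- the barrier
  set B : ℝ → Vec d → Vec d → ℝ := fun r x v =>
    c₀ * ((r - t₀) / h - nsq v - M₀ * (Pz e χ δ f r x v + Er r + 30 * ε)) with hB
  have hnsq : ∀ v : Vec d, ‖v‖ ^ 2 ≤ nsq v := by
    intro v
    have := norm_le_len v
    have h5 : ‖v‖ ^ 2 ≤ len v ^ 2 := pow_le_pow_left₀ (norm_nonneg v) this 2
    rwa [len_sq] at h5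
  have hBc : ContinuousOn (unc B) (Icc t₀ t ×ˢ univ) := by
    have c1 : ContinuousOn (unc (Pz e χ δ f)) (Icc t₀ t ×ˢ univ) :=
      (pz_cont hfc e hδ0 hδh hχ).mono fun p hp => ⟨hmemI p.1 hp.1, mem_univ _⟩
    have c2 : ContinuousOn (fun p : ℝ × Vec d × Vec d => Er p.1) (Icc t₀ t ×ˢ univ) :=
      hErc.comp continuousOn_fst fun p hp => hp.1
    have c3 : Continuous fun p : ℝ × Vec d × Vec d => (p.1 - t₀) / h - nsq p.2.2 := by
      unfold nsq; fun_prop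
    have c4 : ContinuousOn (fun p : ℝ × Vec d × Vec d => c₀ * (((p.1 - t₀) / h - nsq p.2.2) -
        M₀ * (unc (Pz e χ δ f) p + Er p.1 + 30 * ε))) (Icc t₀ t ×ˢ univ) :=
      continuousOn_const.mul (c3.continuousOn.sub (continuousOn_const.mul ((c1.add c2).add continuousOn_const)))
    exact c4
  have key := lower_barrier hfc ht₀p.le ht₀t ht.2 (V := 2) hBc ?_ ?_ ?_ ?_
  · intro x v hv
    have h5 := key t ⟨ht₀t, le_rfl⟩ x v
    refine le_trans ?_ h5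
    have hv' : ‖v‖ ≤ 1 / 2 := abs_le_of_sq_le_sq' ((hnsq v).trans hv) (by norm_num) |>.2
    have a1 := hPz t ⟨ht₀t, le_rfl⟩ x v
    have a2 := hMEr t ⟨ht₀t, le_rfl⟩
    have a3 : M₀ * |Pz e χ δ f t x v| ≤ 9 * (1 / 400) := by
      have : M₀ * |Pz e χ δ f t x v| ≤ M₀ * (9 * ε) := by
        refine mul_le_mul_of_nonneg_left (a1.trans ?_) hM₀.le
        exact mul_le_mul_of_nonneg_right (by linarith) hε.le
      linarith
    have a4 : M₀ * (Pz e χ δ f t x v + Er t + 30 * ε) ≤ 1 / 4 := by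
      have b1 : M₀ * Pz e χ δ f t x v ≤ M₀ * |Pz e χ δ f t x v| :=
        mul_le_mul_of_nonneg_left (le_abs_self _) hM₀.le
      have b2 : M₀ * Er t ≤ M₀ * |Er t| := mul_le_mul_of_nonneg_left (le_abs_self _) hM₀.le
      linarith
    have a5 : (t - t₀) / h = 1 := by rw [ht₀d]; field_simp; ring
    show c₀ / 2 ≤ c₀ * ((t - t₀) / h - nsq v - M₀ * (Pz e χ δ f t x v + Er t + 30 * ε))
    rw [a5]
    have a6 : 1 / 2 ≤ 1 - nsq v - M₀ * (Pz e χ δ f t x v + Er t + 30 * ε) := by linarith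
    have a7 := mul_le_mul_of_nonneg_left a6 hc₀.le
    linarith
  · intro r hr x v i
    show c₀ * ((r - t₀) / h - nsq v - M₀ * (Pz e χ δ f r (x + Pi.single i 1) v + Er r + 30 * ε)) =
      c₀ * ((r - t₀) / h - nsq v - M₀ * (Pz e χ δ f r x v + Er r + 30 * ε))
    rw [pz_per hfc e (hmemI r hr) x v i]
  · intro r hr x v hv
    have a1 := hPz r hr x v
    have a2 := hMEr r hr
    have a3 : M₀ * |Pz e χ δ f r x v| ≤ (‖v‖ + 8) * (1 / 400) := by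
      have b0 : M₀ * |Pz e χ δ f r x v| ≤ M₀ * ((‖v‖ + 2 * 4) * ε) := mul_le_mul_of_nonneg_left a1 hM₀.le
      have b1 : M₀ * ((‖v‖ + 2 * 4) * ε) = (‖v‖ + 8) * (M₀ * ε) := by ring
      rw [b1] at b0
      exact b0.trans (mul_le_mul_of_nonneg_left hMε (by linarith))
    have b1 : -(M₀ * |Pz e χ δ f r x v|) ≤ M₀ * Pz e χ δ f r x v := by
      have := mul_le_mul_of_nonneg_left (neg_abs_le (Pz e χ δ f r x v)) hM₀.le
      linarith
    have b2 : -(M₀ * |Er r|) ≤ M₀ * Er r := by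
      have := mul_le_mul_of_nonneg_left (neg_abs_le (Er r)) hM₀.le
      linarith
    have a5 : (r - t₀) / h ≤ 1 := by
      rw [div_le_one hh]
      have := hr.2
      rw [ht₀d]; linarith
    have a6 := hnsq v
    have a7 : 0 ≤ M₀ * (30 * ε) := by positivity
    show c₀ * ((r - t₀) / h - nsq v - M₀ * (Pz e χ δ f r x v + Er r + 30 * ε)) ≤ 0
    have a9 : 2 * ‖v‖ ≤ ‖v‖ ^ 2 := Win_sq hv
    have a8 : (r - t₀) / h - nsq v - M₀ * (Pz e χ δ f r x v + Er r + 30 * ε) ≤ 0 := by linarith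
    exact mul_nonpos_of_nonneg_of_nonpos hc₀.le a8
  · intro x v
    have hm0 : t₀ ∈ Icc t₀ t := ⟨le_rfl, ht₀t⟩
    refine le_trans ?_ (hf.nonneg t₀ (hmemI t₀ hm0) x v)
    have a1 := hPz t₀ hm0 x v
    show c₀ * ((t₀ - t₀) / h - nsq v - M₀ * (Pz e χ δ f t₀ x v + Er t₀ + 30 * ε)) ≤ 0
    rw [hEr0, sub_self, zero_div]
    have a2 : -((‖v‖ + 2 * 4) * ε) ≤ Pz e χ δ f t₀ x v := (abs_le.1 a1).1
    have a3 := mul_le_mul_of_nonneg_left a2 hM₀.le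
    have a6 := hnsq v
    have a8 : 0 - nsq v - M₀ * (Pz e χ δ f t₀ x v + 0 + 30 * ε) ≤ 0 := by
      have b1 : M₀ * -((‖v‖ + 2 * 4) * ε) = -((‖v‖ + 8) * (M₀ * ε)) := by ring
      rw [b1] at a3
      have b2 : M₀ * (Pz e χ δ f t₀ x v + 0 + 30 * ε) = M₀ * Pz e χ δ f t₀ x v + 30 * (M₀ * ε) := by ring
      rw [b2]
      have b3 : 0 ≤ M₀ * ε := by positivity
      have b4 := Win_q (n := ‖v‖) b3 hMε
      linarith
    exact mul_nonpos_of_nonneg_of_nonpos hc₀.le a8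
  · intro r hr x v hv hfB hmin
    have hr' : r ∈ Icc t₀ t := ⟨hr.1.le, hr.2⟩
    have hrO := hmemO r hr'
    have hn := IsClassicalSol.nice hfc hrO x
    have hnn : ∀ u, 0 ≤ f r x u := fun u => hf.nonneg r (hmemI r hr') x u
    have hUx : ∀ (N : ℕ) (u : Vec d), (1 + ‖u‖) ^ N * f r x u ≤ U N := fun N u => hU N r (hmemI r hr') x u
    have hkap : ∀ y, kap (γ + 2 * s) (f r y) ≤ κ₀ := fun y =>
      hκ (f r y) (IsClassicalSol.nice hfc hrO y) (fun u => hf.nonneg r (hmemI r hr') y u)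
        fun N u => hU N r (hmemI r hr') y u
    obtain ⟨D, hD, hDle⟩ := hder δ ⟨hδ0, hδh⟩ T f hfc hpl r hrO hkap (x - r • v) v hv.le
    rw [sub_add_cancel] at hDle
    have e1 : (fun ρ => Pz e χ δ f ρ (x - r • v + ρ • v) v) = fun ρ => Pz e χ δ f ρ (x + (ρ - r) • v) v := by
      funext ρ
      congr 1
      rw [sub_smul]
      abel
    rw [e1] at hD
    have hBd : HasDerivAt (fun ρ => B ρ (x + (ρ - r) • v) v)
        (c₀ * (1 / h - M₀ * (D + (A₁ * (sU (boltzQ γ b) φ δ f r / lam δ) + (2 * A₂ * ε + η))))) r := by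
      have d1 : HasDerivAt (fun ρ : ℝ => (ρ - t₀) / h - nsq v) (1 / h) r :=
        (((hasDerivAt_id r).sub_const t₀).div_const h).sub_const (nsq v)
      have d2 := ((hD.add (hErd r hr')).add_const (30 * ε)).const_mul M₀
      exact (d1.sub d2).const_mul c₀
    refine ⟨_, hBd, ?_⟩
    have hI := hub r hr'
    have hvn := vis_nonneg e hχ hδ0 (by linarith : δ ≤ 1) hnn v
    have hsum : vis e χ δ (f r x) v / lam δ ≤
        D + (A₁ * (sU (boltzQ γ b) φ δ f r / lam δ) + (2 * A₂ * ε + η)) := by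
      have b1 : (1 + ∫ y, ub δ R' (f r y) ∂(muD d)) / lam δ ≤ 2 * ε := by
        rw [add_div]; linarith
      have b2 := mul_le_mul_of_nonneg_left b1 hA₂
      linarith
    have hDB : c₀ * (1 / h - M₀ * (D + (A₁ * (sU (boltzQ γ b) φ δ f r / lam δ) + (2 * A₂ * ε + η)))) ≤
        c₀ * (1 / h - M₀ * (vis e χ δ (f r x) v / lam δ)) := by
      refine mul_le_mul_of_nonneg_left ?_ hc₀.le
      have := mul_le_mul_of_nonneg_left hsum hM₀.le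
      linarith
    refine lt_of_le_of_lt hDB ?_
    -- second differences and size
    have hf2 : f r x v ≤ 2 * c₀ := by
      refine hfB.le.trans ?_
      have a1 := hPz r hr' x v
      have a2 := hMEr r hr'
      have a3 : M₀ * |Pz e χ δ f r x v| ≤ 10 * (1 / 400) := by
        have b0 : M₀ * |Pz e χ δ f r x v| ≤ M₀ * ((‖v‖ + 2 * 4) * ε) := mul_le_mul_of_nonneg_left a1 hM₀.le
        have b1 : M₀ * ((‖v‖ + 2 * 4) * ε) = (‖v‖ + 8) * (M₀ * ε) := by ring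
        rw [b1] at b0
        refine b0.trans ?_
        have b2 : 0 ≤ M₀ * ε := by positivity
        exact mul_le_mul (by linarith) hMε b2 (by norm_num)
      have b1 : -(M₀ * |Pz e χ δ f r x v|) ≤ M₀ * Pz e χ δ f r x v := by
        have := mul_le_mul_of_nonneg_left (neg_abs_le (Pz e χ δ f r x v)) hM₀.le
        linarith
      have b2 : -(M₀ * |Er r|) ≤ M₀ * Er r := by
        have := mul_le_mul_of_nonneg_left (neg_abs_le (Er r)) hM₀.le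
        linarith
      have a5 : (r - t₀) / h ≤ 1 := by
        rw [div_le_one hh]
        have := hr.2
        rw [ht₀d]; linarith
      have a6 : 0 ≤ nsq v := sq_nonneg' v
      have a7 : 0 ≤ M₀ * (30 * ε) := by positivity
      show c₀ * ((r - t₀) / h - nsq v - M₀ * (Pz e χ δ f r x v + Er r + 30 * ε)) ≤ 2 * c₀
      have a8 : (r - t₀) / h - nsq v - M₀ * (Pz e χ δ f r x v + Er r + 30 * ε) ≤ 2 := by linarith
      have a9 := mul_le_mul_of_nonneg_left a8 hc₀.le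
      linarith
    have hsec : ∀ k, 2 * f r x v - 2 * c₀ * nsq k ≤ f r x (v + k) + f r x (v - k) := by
      intro k
      have s1 := hmin (v + k)
      have s2 := hmin (v - k)
      have s3 := pz_affine hfc e hδ0 hδh hχ (hmemI r hr') x v k
      have s4 := nsq_par v k
      have s5 : B r x (v + k) + B r x (v - k) = 2 * B r x v - 2 * c₀ * nsq k := by
        simp only [hB]
        have : nsq (v - k) = 2 * nsq v + 2 * nsq k - nsq (v + k) := by linarith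
        rw [this]
        have s6 : Pz e χ δ f r x (v - k) = 2 * Pz e χ δ f r x v - Pz e χ δ f r x (v + k) := by linarith
        rw [s6]
        ring
      linarith
    obtain ⟨q1, q2⟩ := hop δ ⟨hδ0, hδh⟩ (f r x) hn hnn hUx v hv.le c₀ hc₀ hc₀a hf2 hsec
    rcases le_or_gt (vis e χ δ (f r x) v) (θ * lam δ) with hcase | hcase
    · refine lt_of_lt_of_le ?_ (q2 hcase)
      have b1 : 0 ≤ M₀ * (vis e χ δ (f r x) v / lam δ) := mul_nonneg hM₀.le (div_nonneg hvn hΛ.le)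
      have b2 : c₀ * (1 / h - M₀ * (vis e χ δ (f r x) v / lam δ)) ≤ c₀ * (1 / h) :=
        mul_le_mul_of_nonneg_left (by linarith) hc₀.le
      have b3 : 0 < c₃ * δ := by positivity
      linarith
    · refine lt_of_lt_of_le ?_ q1
      have b1 : θ ≤ vis e χ δ (f r x) v / lam δ := by
        rw [le_div_iff₀ hΛ]; exact hcase.le
      have b2 : M₀ * θ ≤ M₀ * (vis e χ δ (f r x) v / lam δ) := mul_le_mul_of_nonneg_left b1 hM₀.le
      rw [hM₀θ] at b2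
      have b3 : c₀ * (1 / h - M₀ * (vis e χ δ (f r x) v / lam δ)) ≤ c₀ * (-(C₁ + 1)) :=
        mul_le_mul_of_nonneg_left (by linarith) hc₀.le
      linarith

end Pool.Agent.H85.LB
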