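import Pool.Agent.H85.LB.Defs

/-!
# Module Comp: renormalised solutions are classical solutions with the renormalised source

`comp_sol`: chain rule for `unc f` at points of `(0,T) × ..` (`f ≥ 0` there and `β` is `C²` near `[0,∞)`): `D(β∘f) = β'(f) Df`,
`D²(β∘f) = β''(f) Df ⊗ Df + β'(f) D²f`; `|β|(f) ≤ K f` (mean value, `β 0 = 0`), `|β'|, |β''| ≤ K`. The decay of `derivs12` follows from the
decay of order `N` and of order `0` of `f`. `solves`: `transport (β∘f) = β'(f) transport f`. `ren_sol`: `β = kf δ` (`hasDerivAt_kf`, `kf_zero`,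
`kf_nonneg`, H15/AV/Kfun), `β' = kd δ`, `|kd δ| ≤ 1/δ`, `|kd'| ≤ 2/δ²` on `[0,∞)`.
-/

set_option autoImplicit false

open MeasureTheory Set Filter Topology Pool.Agent.H25.Kin Pool.Agent.H15.AV

namespace Pool.Agent.H85.LB

variable {d : ℕ} {T : ℝ} {Q : (Vec d → ℝ) → Vec d → ℝ} {f : ℝ → Vec d → Vec d → ℝ}

private theorem beta_le {β : ℝ → ℝ} {r₀ K : ℝ} (hr : 0 < r₀) (hβ : ContDiffOn ℝ 2 β (Ioi (-r₀))) (h0 : β 0 = 0)
    (h1 : ∀ r, 0 ≤ r → |deriv β r| ≤ K) {r : ℝ} (hr0 : 0 ≤ r) : β r ≤ K * r := by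
  have hd : ∀ x ∈ Ici (0 : ℝ), HasDerivWithinAt β (deriv β x) (Ici (0 : ℝ)) x := by
    intro x hx
    have hx1 : -r₀ < x := lt_of_lt_of_le (neg_lt_zero.2 hr) hx
    have h2 : ContDiffAt ℝ 2 β x := hβ.contDiffAt (Ioi_mem_nhds hx1)
    exact (h2.differentiableAt (by norm_num)).hasDerivAt.hasDerivWithinAt
  have h2 := Convex.norm_image_sub_le_of_norm_hasDerivWithin_le hd (fun x hx => h1 x hx) (convex_Ici 0)
    (show (0 : ℝ) ∈ Ici (0 : ℝ) from Set.mem_Ici.2 le_rfl) (show r ∈ Ici (0 : ℝ) from hr0)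
  rw [h0, sub_zero, sub_zero, Real.norm_eq_abs, Real.norm_eq_abs, abs_of_nonneg hr0] at h2
  exact (le_abs_self _).trans h2

/-- the derivatives of `β ∘ F` -/
private theorem derivs_comp {E : Type*} [NormedAddCommGroup E] [NormedSpace ℝ E] {F : E → ℝ} {Ω : Set E} (hΩ : IsOpen Ω)
    (hF : ContDiffOn ℝ 2 F Ω) {β : ℝ → ℝ} {r₀ K : ℝ} (hr : 0 < r₀) (hβ : ContDiffOn ℝ 2 β (Ioi (-r₀)))
    (h1 : ∀ r, 0 ≤ r → |deriv β r| ≤ K) (h2 : ∀ r, 0 ≤ r → |deriv (deriv β) r| ≤ K) (hn : ∀ q ∈ Ω, 0 ≤ F q) {p : E}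
    (hp : p ∈ Ω) : fderiv ℝ (fun q => β (F q)) p = deriv β (F p) • fderiv ℝ F p ∧
      derivs (fun q => β (F q)) p ≤ K * derivs F p + K * derivs F p * derivs F p := by
  have hFa : ∀ q ∈ Ω, ContDiffAt ℝ 2 F q := fun q hq => hF.contDiffAt (hΩ.mem_nhds hq)
  have hβa : ∀ r, 0 ≤ r → ContDiffAt ℝ 2 β r := by
    intro r hr0
    exact hβ.contDiffAt (Ioi_mem_nhds (lt_of_lt_of_le (neg_lt_zero.2 hr) hr0))
  have e1 : ∀ q ∈ Ω, fderiv ℝ (fun q => β (F q)) q = deriv β (F q) • fderiv ℝ F q := by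
    intro q hq
    have d1 : HasDerivAt β (deriv β (F q)) (F q) := ((hβa _ (hn q hq)).differentiableAt (by norm_num)).hasDerivAt
    have d2 : HasFDerivAt F (fderiv ℝ F q) q := ((hFa q hq).differentiableAt (by norm_num)).hasFDerivAt
    exact (d1.comp_hasFDerivAt q d2).fderiv
  have e2 : fderiv ℝ (fun q => β (F q)) =ᶠ[𝓝 p] fun q => deriv β (F q) • fderiv ℝ F q := by
    filter_upwards [hΩ.mem_nhds hp] with q hq
    exact e1 q hq
  have d1 : HasDerivAt (deriv β) (deriv (deriv β) (F p)) (F p) := by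
    have h3 : ContDiffAt ℝ (1 + 1) β (F p) := by
      have := hβa _ (hn p hp)
      norm_num
      exact this
    have h4 : ContDiffAt ℝ 1 (deriv β) (F p) := by
      have h5 : ContDiffAt ℝ 1 (fderiv ℝ β) (F p) := h3.fderiv_right (m := 1) le_rfl
      have h6 : deriv β = fun x => fderiv ℝ β x 1 := by
        funext x
        exact (fderiv_apply_one_eq_deriv).symm
      rw [h6]
      exact h5.clm_apply contDiffAt_const
    exact (h4.differentiableAt (by norm_num)).hasDerivAt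
  have d2 : HasFDerivAt F (fderiv ℝ F p) p := ((hFa p hp).differentiableAt (by norm_num)).hasFDerivAt
  have d3 : HasFDerivAt (fun q => deriv β (F q)) (deriv (deriv β) (F p) • fderiv ℝ F p) p := d1.comp_hasFDerivAt p d2
  have d4 : HasFDerivAt (fderiv ℝ F) (fderiv ℝ (fderiv ℝ F) p) p := by
    have h3 : ContDiffAt ℝ (1 + 1) F p := by
      have := hFa p hp
      norm_num
      exact this
    exact ((h3.fderiv_right (m := 1) le_rfl).differentiableAt (by norm_num)).hasFDerivAt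
  have e3 : fderiv ℝ (fderiv ℝ (fun q => β (F q))) p =
      deriv β (F p) • fderiv ℝ (fderiv ℝ F) p + (deriv (deriv β) (F p) • fderiv ℝ F p).smulRight (fderiv ℝ F p) := by
    rw [e2.fderiv_eq]
    exact (d3.smul d4).fderiv
  have hK : 0 ≤ K := (abs_nonneg _).trans (h1 0 le_rfl)
  refine ⟨e1 p hp, ?_⟩
  unfold derivs
  rw [e1 p hp, e3]
  have a1 : |deriv β (F p)| ≤ K := h1 _ (hn p hp)
  have a2 : |deriv (deriv β) (F p)| ≤ K := h2 _ (hn p hp)
  have n0 : 0 ≤ ‖fderiv ℝ F p‖ := norm_nonneg _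
  have n1 : 0 ≤ ‖fderiv ℝ (fderiv ℝ F) p‖ := norm_nonneg (fderiv ℝ (fderiv ℝ F) p)
  have b1 : ‖deriv β (F p) • fderiv ℝ F p‖ ≤ K * ‖fderiv ℝ F p‖ := by
    rw [norm_smul, Real.norm_eq_abs]
    exact mul_le_mul_of_nonneg_right a1 n0
  have b2 : ‖deriv β (F p) • fderiv ℝ (fderiv ℝ F) p‖ ≤ K * ‖fderiv ℝ (fderiv ℝ F) p‖ := by
    refine (ContinuousLinearMap.opNorm_smul_le (deriv β (F p)) (fderiv ℝ (fderiv ℝ F) p)).trans ?_
    rw [Real.norm_eq_abs]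
    exact mul_le_mul_of_nonneg_right a1 n1
  have b3 : ‖(deriv (deriv β) (F p) • fderiv ℝ F p).smulRight (fderiv ℝ F p)‖ ≤ K * ‖fderiv ℝ F p‖ * ‖fderiv ℝ F p‖ := by
    rw [ContinuousLinearMap.norm_smulRight_apply, norm_smul, Real.norm_eq_abs]
    exact mul_le_mul_of_nonneg_right (mul_le_mul_of_nonneg_right a2 n0) n0
  have b4 := norm_add_le (deriv β (F p) • fderiv ℝ (fderiv ℝ F) p)
    ((deriv (deriv β) (F p) • fderiv ℝ F p).smulRight (fderiv ℝ F p))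
  have b5 : K * ‖fderiv ℝ F p‖ * ‖fderiv ℝ F p‖ ≤
      K * (‖fderiv ℝ F p‖ + ‖fderiv ℝ (fderiv ℝ F) p‖) * (‖fderiv ℝ F p‖ + ‖fderiv ℝ (fderiv ℝ F) p‖) := by
    have c1 : K * ‖fderiv ℝ F p‖ ≤ K * (‖fderiv ℝ F p‖ + ‖fderiv ℝ (fderiv ℝ F) p‖) :=
      mul_le_mul_of_nonneg_left (by linarith) hK
    exact mul_le_mul c1 (by linarith) n0 (mul_nonneg hK (by linarith))
  linarith [mul_add K ‖fderiv ℝ F p‖ ‖fderiv ℝ (fderiv ℝ F) p‖]

theorem comp_sol {Q' : ℝ → Vec d → Vec d → ℝ} (hf : IsClassicalSol T Q' f) {β : ℝ → ℝ} {r₀ K : ℝ} (hr : 0 < r₀)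
    (hβ : ContDiffOn ℝ 2 β (Ioi (-r₀))) (h0 : β 0 = 0) (hp : ∀ r, 0 ≤ r → 0 ≤ β r)
    (h1 : ∀ r, 0 ≤ r → |deriv β r| ≤ K) (h2 : ∀ r, 0 ≤ r → |deriv (deriv β) r| ≤ K) :
    IsClassicalSol T (fun t x v => deriv β (f t x v) * Q' t x v) (fun t x v => β (f t x v)) := by
  have hK : 0 ≤ K := (abs_nonneg _).trans (h1 0 le_rfl)
  have hΩ : IsOpen (Ioo (0 : ℝ) T ×ˢ (univ : Set (Vec d × Vec d))) := isOpen_Ioo.prod isOpen_univ
  have hn : ∀ q ∈ Ioo (0 : ℝ) T ×ˢ (univ : Set (Vec d × Vec d)), 0 ≤ unc f q := by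
    intro q hq
    exact hf.nonneg q.1 ⟨hq.1.1.le, hq.1.2⟩ q.2.1 q.2.2
  have hder : ∀ t ∈ Ioo (0 : ℝ) T, ∀ x v, fderiv ℝ (unc fun t x v => β (f t x v)) (t, x, v) =
      deriv β (f t x v) • fderiv ℝ (unc f) (t, x, v) ∧ derivs12 (fun t x v => β (f t x v)) t x v ≤
        K * derivs12 f t x v + K * derivs12 f t x v * derivs12 f t x v := by
    intro t ht x v
    exact derivs_comp hΩ hf.isC2 hr hβ h1 h2 hn (p := (t, x, v)) ⟨ht, mem_univ _⟩
  refine ⟨fun t ht x v => hp _ (hf.nonneg t ht x v), fun t ht x v i => ?_, ?_, ?_, ?_, ?_, ?_⟩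
  · show β (f t (x + Pi.single i 1) v) = β (f t x v)
    rw [hf.periodic t ht x v i]
  · refine hβ.continuousOn.comp hf.isCont ?_
    intro q hq
    exact lt_of_lt_of_le (neg_lt_zero.2 hr) (hf.nonneg q.1 hq.1 q.2.1 q.2.2)
  · refine hβ.comp hf.isC2 ?_
    intro q hq
    exact lt_of_lt_of_le (neg_lt_zero.2 hr) (hn q hq)
  · intro T₁ hT₁ N
    obtain ⟨C, hC⟩ := hf.decay T₁ hT₁ N
    refine ⟨K * C, fun t ht x v => ?_⟩
    have hf0 : 0 ≤ f t x v := hf.nonneg t ⟨ht.1, lt_of_le_of_lt ht.2 hT₁⟩ x v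
    have h3 := beta_le hr hβ h0 h1 hf0
    have hw : 0 ≤ (1 + ‖v‖) ^ N := by positivity
    calc (1 + ‖v‖) ^ N * β (f t x v) ≤ (1 + ‖v‖) ^ N * (K * f t x v) := mul_le_mul_of_nonneg_left h3 hw
      _ = K * ((1 + ‖v‖) ^ N * f t x v) := by ring
      _ ≤ K * C := mul_le_mul_of_nonneg_left (hC t ht x v) hK
  · intro T₀ hT₀ T₁ hT₁ N
    obtain ⟨C, hC⟩ := hf.decay12 T₀ hT₀ T₁ hT₁ N
    obtain ⟨C', hC'⟩ := hf.decay12 T₀ hT₀ T₁ hT₁ 0
    refine ⟨K * C + K * C * C', fun t ht x v => ?_⟩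
    have ht' : t ∈ Ioo (0 : ℝ) T := ⟨lt_of_lt_of_le hT₀ ht.1, lt_of_le_of_lt ht.2 hT₁⟩
    have h3 := (hder t ht' x v).2
    have hD : 0 ≤ derivs12 f t x v := by
      unfold derivs12 derivs
      positivity
    have h4 := hC t ht x v
    have h5 := hC' t ht x v
    rw [pow_zero, one_mul] at h5
    have hw : 0 ≤ (1 + ‖v‖) ^ N := by positivity
    have hC0 : 0 ≤ C := (mul_nonneg hw hD).trans h4
    calc (1 + ‖v‖) ^ N * derivs12 (fun t x v => β (f t x v)) t x v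
        ≤ (1 + ‖v‖) ^ N * (K * derivs12 f t x v + K * derivs12 f t x v * derivs12 f t x v) :=
          mul_le_mul_of_nonneg_left h3 hw
      _ = K * ((1 + ‖v‖) ^ N * derivs12 f t x v) + K * ((1 + ‖v‖) ^ N * derivs12 f t x v) * derivs12 f t x v := by ring
      _ ≤ K * C + K * C * C' := by
          have c1 : K * ((1 + ‖v‖) ^ N * derivs12 f t x v) ≤ K * C := mul_le_mul_of_nonneg_left h4 hK
          have c2 : K * ((1 + ‖v‖) ^ N * derivs12 f t x v) * derivs12 f t x v ≤ K * C * C' :=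
            mul_le_mul c1 h5 hD (mul_nonneg hK hC0)
          linarith
  · intro t ht x v
    have h3 := (hder t ht x v).1
    unfold transport
    rw [h3, smul_apply, smul_eq_mul]
    have h4 := hf.solves t ht x v
    unfold transport at h4
    rw [h4]

theorem ren_sol (hf : IsClassicalSol T (fun t x => Q (f t x)) f) {δ : ℝ} (h0 : 0 < δ) (h1 : δ ≤ 1) :
    IsClassicalSol T (renS Q δ f) (ren δ f) := by
  have e1 : ∀ r : ℝ, -δ < r → deriv (kf δ) r = kd δ r := fun r hr => (hasDerivAt_kf h0 h1 hr).deriv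
  have e2 : ∀ r : ℝ, -δ < r → deriv (deriv (kf δ)) r = -((δ + r) ^ 2)⁻¹ + ((1 + r) ^ 2)⁻¹ := by
    intro r hr
    have h3 : deriv (kf δ) =ᶠ[𝓝 r] kd δ := by
      filter_upwards [Ioi_mem_nhds hr] with s hs
      exact e1 s hs
    rw [h3.deriv_eq, (hasDerivAt_kd h0 h1 hr).deriv]
  have hsq : 1 / δ ≤ 1 / δ ^ 2 := by
    refine one_div_le_one_div_of_le (by positivity) ?_
    nlinarith
  have h := comp_sol hf (β := kf δ) (r₀ := δ) (K := 1 / δ ^ 2) h0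
    (fun r hr => (contDiffAt_kf h0 h1 hr).contDiffWithinAt) (kf_zero δ) (fun r hr => kf_nonneg h0 h1 hr) ?_ ?_
  · refine ⟨h.nonneg, h.periodic, h.isCont, h.isC2, h.decay, h.decay12, fun t ht x v => ?_⟩
    have h3 := h.solves t ht x v
    have h4 : -δ < f t x v := lt_of_lt_of_le (neg_lt_zero.2 h0) (hf.nonneg t ⟨ht.1.le, ht.2⟩ x v)
    show transport (fun t x v => kf δ (f t x v)) t x v = kd δ (f t x v) * Q (f t x) v
    rw [h3, e1 _ h4]
  · intro r hr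
    rw [e1 r (lt_of_lt_of_le (neg_lt_zero.2 h0) hr), abs_of_nonneg (kd_nonneg h0 h1 hr)]
    exact (kd_le h0 h1 hr).trans hsq
  · intro r hr
    rw [e2 r (lt_of_lt_of_le (neg_lt_zero.2 h0) hr)]
    have a1 : 0 < ((δ + r) ^ 2)⁻¹ := by positivity
    have a2 : 0 < ((1 + r) ^ 2)⁻¹ := by positivity
    have a3 : ((1 + r) ^ 2)⁻¹ ≤ ((δ + r) ^ 2)⁻¹ := by
      refine inv_anti₀ (by positivity) ?_
      exact pow_le_pow_left₀ (by positivity) (by linarith) 2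
    have a4 : ((δ + r) ^ 2)⁻¹ ≤ (δ ^ 2)⁻¹ := by
      refine inv_anti₀ (by positivity) ?_
      exact pow_le_pow_left₀ h0.le (by linarith) 2
    rw [one_div, abs_le]
    constructor
    · linarith
    · linarith

end Pool.Agent.H85.LB
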