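import Pool.Agent.H48.PL.PotD
import Pool.Agent.H48.PL.Glob
import Pool.Agent.H15.AVB.BFinU
import Pool.Agent.H82.CL.LowQ

/-!
# No vacuum, uniformly in time, for plane symmetric solutions with uniform upper bounds: definitions (MP_c15324_an)

`z = uf δ f / lam δ` in `[0,1]` is the normalised logarithmic deficit of helper15 (H15/AV), small where `f ≥ √δ`.
`Pz` is a potential of `z` whose derivative along the characteristics with velocity `v` is `vis / lam δ` (the deficit seen from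
`v`, with the weight `(v_e - w_e)²`) up to an error which is small in time average. It is affine in `v_e`.
-/

set_option autoImplicit false

open MeasureTheory Set Filter Topology Pool.Agent.H25.Kin Pool.Agent.H15.AV

namespace Pool.Agent.H85.LB

variable {d : ℕ}

/-- rapid decay up to time `T` with given constants -/
def UB (U : ℕ → ℝ) (T : ℝ) (f : ℝ → Vec d → Vec d → ℝ) : Prop :=
  ∀ N : ℕ, ∀ t ∈ Ico 0 T, ∀ x v, (1 + ‖v‖) ^ N * f t x v ≤ U N

/-- the deficit of `g` seen from the velocity `v` -/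
noncomputable def vis (e : Fin d) (χ : Vec d → ℝ) (δ : ℝ) (g : Vec d → ℝ) (v : Vec d) : ℝ :=
  ∫ w, (v e - w e) ^ 2 * χ w * Pool.Agent.H15.AV.uf δ (g w)

/-- the weight of the potential -/
def Pw (e : Fin d) (χ : Vec d → ℝ) (v w : Vec d) : ℝ := (v e - w e) * χ w

/-- the potential of the normalised deficit -/
noncomputable def Pz (e : Fin d) (χ : Vec d → ℝ) (δ : ℝ) (f : ℝ → Vec d → Vec d → ℝ) (t : ℝ) (x v : Vec d) : ℝ :=
  -(1 / lam δ) * Pool.Agent.H48.PL.pot e 1 (Pw e χ) (ren δ f t) x v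

/-- the pairing of the deficit with a function of the velocity -/
noncomputable def pU (φ : Vec d → ℝ) (δ : ℝ) (f : ℝ → Vec d → Vec d → ℝ) (t : ℝ) : ℝ :=
  ∫ q, φ q.1 * Pool.Agent.H15.AV.uf δ (f t q.2 q.1) ∂(nu d)

/-- the total source tested with `φ` -/
noncomputable def sU (Q : (Vec d → ℝ) → Vec d → ℝ) (φ : Vec d → ℝ) (δ : ℝ) (f : ℝ → Vec d → Vec d → ℝ) (t : ℝ) : ℝ :=
  ∫ x, src Q δ (f t x) φ ∂(muD d)

/-- the part of the angular kernel with `1/4 ≤ cos θ ≤ 1/2` -/
noncomputable def bmid (b : ℝ → ℝ) (x : ℝ) : ℝ := if 1 / 4 ≤ x ∧ x ≤ 1 / 2 then b x else 0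

/-- cut-off functions -/
structure Cut (R K : ℝ) (χ : Vec d → ℝ) : Prop where
  tst : Tst (2 * R) K χ
  nonneg : ∀ v, 0 ≤ χ v
  le_one : ∀ v, χ v ≤ 1
  eq_one : ∀ v, ‖v‖ ≤ R → χ v = 1

end Pool.Agent.H85.LB
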