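import Pool.Agent.H85.LB.Defs

/-!
# Module Line: the integral over one period of the line `x + ℝ e` of a function of `x_e` is the integral over the torus

`muD d` is Lebesgue measure on `[0,1]^d`; a function of the coordinate `e` is integrated with `volume_preserving_eval`-type facts (or
`MeasureTheory.integral_fin_nat_prod`..., or `Measure.pi` and `measurePreserving_eval`), then the period is shifted
(`Function.Periodic.intervalIntegral_add_eq`).
-/

set_option autoImplicit false

open MeasureTheory Set Filter Topology Pool.Agent.H25.Kin Pool.Agent.H15.AV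

namespace Pool.Agent.H85.LB

variable {d : ℕ}

theorem line_torus (e : Fin d) {G : Vec d → ℝ} (cG : Continuous G) (pG : Per G)
    (plG : ∀ x y : Vec d, x e = y e → G x = G y) (x : Vec d) :
    ∫ z in Ioo (-(1 / 2 : ℝ)) (1 / 2), G (x - Pi.single e z) = ∫ y, G y ∂(muD d) := by
  set Γ : ℝ → ℝ := fun t => G (Pi.single e t) with hΓ
  have cΓ : Continuous Γ := cG.comp (continuous_single (A := fun _ : Fin d => ℝ) e)
  have hG : ∀ y : Vec d, G y = Γ (y e) := fun y => plG _ _ (by simp)
  have hper : Function.Periodic Γ 1 := by
    intro t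
    have h := pG (Pi.single e t) e
    rw [← Pi.single_add] at h
    exact h
  -- the torus side
  have hp : IsProbabilityMeasure ((volume : Measure ℝ).restrict (Icc 0 1)) :=
    ⟨by rw [Measure.restrict_apply_univ, Real.volume_Icc]; simp⟩
  have hmu : muD d = Measure.pi (fun _ : Fin d => (volume : Measure ℝ).restrict (Icc 0 1)) := by
    unfold muD
    rw [← Measure.restrict_pi_pi, ← volume_pi]
    congr 1
    ext y
    simp only [mem_Icc, Set.mem_pi, mem_univ, true_imp_iff, Pi.le_def, Pi.zero_apply, Pi.one_apply]
    exact forall_and.symm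
  have h1 : ∫ y, G y ∂(muD d) = ∫ t in (0 : ℝ)..1, Γ t := by
    have hmp := measurePreserving_eval
      (μ := fun _ : Fin d => (volume : Measure ℝ).restrict (Icc 0 1)) e
    rw [hmu]
    calc ∫ y, G y ∂(Measure.pi fun _ : Fin d => (volume : Measure ℝ).restrict (Icc 0 1))
        = ∫ y, Γ (Function.eval e y)
            ∂(Measure.pi fun _ : Fin d => (volume : Measure ℝ).restrict (Icc 0 1)) :=
          integral_congr_ae (Filter.Eventually.of_forall fun y => hG y)
      _ = ∫ t, Γ t ∂(Measure.map (Function.eval e)
            (Measure.pi fun _ : Fin d => (volume : Measure ℝ).restrict (Icc 0 1))) :=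
          (integral_map hmp.measurable.aemeasurable cΓ.aestronglyMeasurable).symm
      _ = ∫ t in Icc (0 : ℝ) 1, Γ t := by rw [hmp.map_eq]
      _ = ∫ t in (0 : ℝ)..1, Γ t := by
          rw [integral_Icc_eq_integral_Ioc, intervalIntegral.integral_of_le zero_le_one]
  -- the line side
  have h2 : ∫ z in Ioo (-(1 / 2 : ℝ)) (1 / 2), G (x - Pi.single e z) =
      ∫ z in (-(1 / 2 : ℝ))..(1 / 2), Γ (x e - z) := by
    rw [intervalIntegral.integral_of_le (by norm_num), integral_Ioc_eq_integral_Ioo]
    refine integral_congr_ae (Filter.Eventually.of_forall fun z => ?_)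
    simp only
    rw [hG]
    simp
  rw [h1, h2, intervalIntegral.integral_comp_sub_left Γ (x e)]
  have h3 := hper.intervalIntegral_add_eq (x e - 1 / 2) 0
  rw [zero_add] at h3
  rw [← h3]
  congr 1
  ring

end Pool.Agent.H85.LB
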