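import Pool.Agent.H85.LB.Defs

/-!
# Module PushH: image of the Lebesgue measure under a collision, `cos ≥ -1/2`

Copy of `push_le` (H15/AVB/Push) with `-1/2 ≤ cosTh` in place of `0 ≤ cosTh`: then `2c² - 1 ≥ -1/2`, `c² ≥ 1/4` and the weight is `≤ 2^(d+1)`.
-/

set_option autoImplicit false

open MeasureTheory Set Filter Topology Pool.Agent.H25.Kin Pool.Agent.H15.AV
open scoped ENNReal

namespace Pool.Agent.H85.LB

variable {d : ℕ}

private lemma push_point {z σ m : Vec d} (hd : 1 ≤ d) (hσ : nsq σ = 1) (h : 0 < dot m σ)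
    (hc : -(1 / 2) ≤ cosTh (z + Pool.Agent.H82.BK.kap σ m) z σ) :
    post (z + Pool.Agent.H82.BK.kap σ m) z σ = z + m ∧
      2 ^ (d - 1) * (nsq m / dot m σ ^ 2) ≤ (2 : ℝ) ^ (d + 1) := by
  have hleft := Pool.Agent.H82.BK.kap_left hσ h
  have e1 : z + Pool.Agent.H82.BK.kap σ m - z = Pool.Agent.H82.BK.kap σ m := by abel
  have hm := Pool.Agent.H82.BK.ne_zero_of_dot h
  constructor
  · unfold post
    rw [e1]
    conv_rhs => rw [← hleft]
    module
  · unfold cosTh at hc
    rw [e1, dot_comm, Pool.Agent.H82.BK.dot_kap hσ, Pool.Agent.H82.BK.len_kap hσ h] at hc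
    have hn : 0 < nsq m := by
      rw [← len_sq m]
      have := len_pos hm
      positivity
    have h1 : 0 < nsq m / dot m σ := div_pos hn h
    have h2 : -(1 / 2) * (nsq m / dot m σ) ≤ 2 * dot m σ - nsq m / dot m σ := (le_div_iff₀ h1).1 hc
    have h3 : nsq m / dot m σ ^ 2 ≤ 4 := by
      rw [div_le_iff₀ (by positivity)]
      have h4 : nsq m / dot m σ * dot m σ = nsq m := by field_simp
      nlinarith
    obtain ⟨e, rfl⟩ : ∃ e, d = e + 1 := ⟨d - 1, by omega⟩
    rw [Nat.add_sub_cancel, show (2 : ℝ) ^ (e + 1 + 1) = 2 ^ e * 4 by ring]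
    exact mul_le_mul_of_nonneg_left h3 (by positivity)

theorem push_half (hd : 2 ≤ d) : ∃ A : ℝ, 0 ≤ A ∧ ∀ (z : Vec d) (G : Vec d → ℝ≥0∞), Measurable G →
    ∫⁻ a, ∫⁻ σ in {σ : Vec d | -(1 / 2) ≤ cosTh a z σ}, G (post a z σ) ∂(surf d) ≤
      ENNReal.ofReal A * ∫⁻ v, G v := by
  refine ⟨2 ^ (d + 1) * (surf d univ).toReal, by positivity, fun z G hG => ?_⟩
  have hi : Measurable fun q : Vec d × Vec d => ((q.1, z, q.2) : Vec d × Vec d × Vec d) := by
    fun_prop
  have hm1 : Measurable fun q : Vec d × Vec d => cosTh q.1 z q.2 := measurable_cosTh.comp hi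
  have hm2 : Measurable fun q : Vec d × Vec d => post q.1 z q.2 :=
    continuous_post.measurable.comp hi
  have hS : MeasurableSet {q : Vec d × Vec d | -(1 / 2) ≤ cosTh q.1 z q.2} :=
    measurableSet_le measurable_const hm1
  set I : Vec d × Vec d → ℝ≥0∞ :=
    indicator {q : Vec d × Vec d | -(1 / 2) ≤ cosTh q.1 z q.2} (fun q => G (post q.1 z q.2)) with hIdef
  have hI : Measurable I := (hG.comp hm2).indicator hS
  have e1 : ∀ a, ∫⁻ σ in {σ : Vec d | -(1 / 2) ≤ cosTh a z σ}, G (post a z σ) ∂(surf d) =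
      ∫⁻ σ, I (a, σ) ∂(surf d) := by
    intro a
    have hT : MeasurableSet {σ : Vec d | -(1 / 2) ≤ cosTh a z σ} :=
      hS.preimage (f := fun σ : Vec d => ((a, σ) : Vec d × Vec d))
        (measurable_const.prodMk measurable_id)
    rw [← lintegral_indicator hT]
    refine lintegral_congr fun σ => ?_
    by_cases h : -(1 / 2) ≤ cosTh a z σ
    · rw [indicator_of_mem (show σ ∈ {σ : Vec d | -(1 / 2) ≤ cosTh a z σ} from h), hIdef,
        indicator_of_mem (show (a, σ) ∈ {q : Vec d × Vec d | -(1 / 2) ≤ cosTh q.1 z q.2} from h)]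
    · rw [indicator_of_notMem (show σ ∉ {σ : Vec d | -(1 / 2) ≤ cosTh a z σ} from h), hIdef,
        indicator_of_notMem (show (a, σ) ∉ {q : Vec d × Vec d | -(1 / 2) ≤ cosTh q.1 z q.2} from h)]
  rw [lintegral_congr e1, lintegral_lintegral_swap (f := fun a σ => I (a, σ)) hI.aemeasurable]
  have h1 : ∀ᵐ σ ∂(surf d), ∫⁻ a, I (a, σ) ≤ ENNReal.ofReal (2 ^ (d + 1)) * ∫⁻ v, G v := by
    filter_upwards [surf_ae] with σ hσ
    have hF : Measurable fun a : Vec d => I (a, σ) :=
      hI.comp (measurable_id.prodMk measurable_const)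
    have hF2 : Measurable fun k : Vec d => I (z + k, σ) :=
      hF.comp (g := fun a : Vec d => I (a, σ)) (f := fun k : Vec d => z + k) (by fun_prop)
    have e2 : ∫⁻ a, I (a, σ) = ∫⁻ k, I (z + k, σ) :=
      (lintegral_add_left_eq_self (μ := (volume : Measure (Vec d)))
        (fun a : Vec d => I (a, σ)) z).symm
    have e3 : ∫⁻ v, G v = ∫⁻ m, G (z + m) :=
      (lintegral_add_left_eq_self (μ := (volume : Measure (Vec d))) G z).symm
    have hT : MeasurableSet {m : Vec d | 0 < dot m σ} := by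
      have hcont : Continuous fun m : Vec d => dot m σ := by
        unfold dot
        fun_prop
      exact (isOpen_lt continuous_const hcont).measurableSet
    rw [e2, Pool.Agent.H82.BK.cv hd hσ hF2, e3, ← lintegral_const_mul' _ _ ENNReal.ofReal_ne_top]
    refine le_trans (setLIntegral_mono' hT (g := fun m => ENNReal.ofReal (2 ^ (d + 1)) * G (z + m)) ?_)
      (setLIntegral_le_lintegral _ _)
    intro m hm
    have hm' : 0 < dot m σ := hm
    by_cases h : -(1 / 2) ≤ cosTh (z + Pool.Agent.H82.BK.kap σ m) z σ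
    · obtain ⟨h2, h3⟩ := push_point (by omega) hσ hm' h
      rw [hIdef, indicator_of_mem (show (z + Pool.Agent.H82.BK.kap σ m, σ) ∈
        {q : Vec d × Vec d | -(1 / 2) ≤ cosTh q.1 z q.2} from h)]
      simp only
      rw [h2, mul_comm]
      exact mul_le_mul_left (ENNReal.ofReal_le_ofReal h3) _
    · rw [hIdef, indicator_of_notMem (show (z + Pool.Agent.H82.BK.kap σ m, σ) ∉
        {q : Vec d × Vec d | -(1 / 2) ≤ cosTh q.1 z q.2} from h), zero_mul]
      exact zero_le
  calc ∫⁻ σ, (∫⁻ a, I (a, σ)) ∂(surf d)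
      ≤ ∫⁻ _σ, (ENNReal.ofReal (2 ^ (d + 1)) * ∫⁻ v, G v) ∂(surf d) := lintegral_mono_ae h1
    _ = ENNReal.ofReal (2 ^ (d + 1)) * (∫⁻ v, G v) * surf d univ := lintegral_const _
    _ = ENNReal.ofReal (2 ^ (d + 1) * (surf d univ).toReal) * ∫⁻ v, G v := by
        rw [ENNReal.ofReal_mul (by positivity), ENNReal.ofReal_toReal (measure_ne_top _ _)]
        ring

end Pool.Agent.H85.LB
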