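import Pool.Agent.H85.LB.Comp

/-!
# Module PzA: the potential is continuous, periodic, and affine in the velocity

`pgw_Pw`: `χ` is continuous and bounded. `pz_affine`: `Pw` is affine in `v` (integrability in `w`: `χ` has compact support, `ren δ f t` is continuous;
in `z`: continuity of the inner integral, `avg_cont` or `zint_cont` in H48/PL/PotA, for the `UC` family given by `ren_sol`, `uc_sol`).
`pz_cont`, `pz_per`: `pot_cont`, `pot_per` (H48/PL/PotC) for `ren_sol`.
-/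

set_option autoImplicit false

open MeasureTheory Set Filter Topology Pool.Agent.H25.Kin Pool.Agent.H15.AV

namespace Pool.Agent.H85.LB

variable {d : ℕ} {T R K : ℝ} {Q : (Vec d → ℝ) → Vec d → ℝ} {f : ℝ → Vec d → Vec d → ℝ} {χ : Vec d → ℝ}

theorem pgw_Pw (e : Fin d) (hχ : Cut R K χ) : Pool.Agent.H48.PL.PGW (Pw e χ) := by
  have hc : Continuous χ := hχ.tst.smooth.continuous
  have hcont : Continuous fun p : Vec d × Vec d => Pw e χ p.1 p.2 := by
    unfold Pw
    have h1 : Continuous fun p : Vec d × Vec d => p.1 e - p.2 e := by fun_prop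
    exact h1.mul (hc.comp continuous_snd)
  refine ⟨hcont, 1, 1, zero_le_one, ?_⟩
  intro v w
  have hv := norm_nonneg v
  have hw := norm_nonneg w
  have h1 : |v e - w e| ≤ (1 + ‖v‖) * (1 + ‖w‖) := by
    have a1 := norm_le_pi_norm v e
    have a2 := norm_le_pi_norm w e
    rw [Real.norm_eq_abs] at a1 a2
    have a3 : |v e - w e| ≤ |v e| + |w e| := abs_sub _ _
    nlinarith [mul_nonneg hv hw]
  have h2 : |χ w| ≤ 1 := by
    rw [abs_of_nonneg (hχ.nonneg w)]
    exact hχ.le_one w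
  unfold Pw
  rw [abs_mul, pow_one, pow_one, one_mul]
  calc |v e - w e| * |χ w| ≤ ((1 + ‖v‖) * (1 + ‖w‖)) * 1 := by gcongr
    _ = (1 + ‖v‖) * (1 + ‖w‖) := mul_one _

private lemma inner_affine {e : Fin d} (hχ : Cut R K χ) {g : Vec d → ℝ} (hg : RD g) (hc : Continuous g)
    (v h : Vec d) : (∫ w, Pw e χ (v + h) w * g w) + (∫ w, Pw e χ (v - h) w * g w) =
      2 * ∫ w, Pw e χ v w * g w := by
  have hP := pgw_Pw e hχ
  rw [← integral_add (Pool.Agent.H48.PL.avg_int hP hg hc (v + h))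
    (Pool.Agent.H48.PL.avg_int hP hg hc (v - h)), ← integral_const_mul]
  refine integral_congr_ae (Eventually.of_forall fun w => ?_)
  simp only [Pw, Pi.add_apply, Pi.sub_apply]
  ring

private lemma pot_int {g : ℝ → Vec d → Vec d → ℝ} (hu : Pool.Agent.H48.PL.UC (Ico 0 T) g) {e : Fin d}
    {Φ : Vec d → Vec d → ℝ} {t : ℝ} (ht : t ∈ Ico 0 T) (x u : Vec d) (hP : Pool.Agent.H48.PL.PGW Φ) :
    Integrable (fun z => Pool.Agent.H48.PL.kl 1 z * ∫ w, Φ u w * g t (x - Pi.single e z) w)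
      (volume.restrict (Ioo (-((1 : ℝ) / 2)) (1 / 2))) := by
  obtain ⟨U, hU, hdec⟩ := hu.dec t ht
  have htU : t ∈ U := mem_of_mem_nhdsWithin ht hU
  obtain ⟨N, M, C₁, hC₁0, hC₁⟩ := Pool.Agent.H48.PL.avg_le hP
  obtain ⟨C, hC⟩ := hdec M
  have hG := Pool.Agent.H48.PL.avg_cont hu hP
  have h4 : Continuous fun z : ℝ => (t, x - Pi.single e z, u) := by
    have h2 : Continuous fun z : ℝ => (Pi.single e z : Vec d) :=
      continuous_single (A := fun _ : Fin d => ℝ) e
    fun_prop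
  have h5 := hG.comp h4.continuousOn (s := univ) fun z _ => ⟨ht, mem_univ _⟩
  have h6 := continuousOn_univ.1 h5
  refine Integrable.mono' (integrable_const ((1 / 2) * (C₁ * C * (1 + ‖u‖) ^ N))) ?_ ?_
  · exact ((Pool.Agent.H48.PL.kl_meas 1).mul h6.measurable).aestronglyMeasurable
  · rw [ae_restrict_iff' measurableSet_Ioo]
    refine Eventually.of_forall fun z hz => ?_
    rw [norm_mul, Real.norm_eq_abs, Real.norm_eq_abs]
    have h7 := hC₁ (fun w => g t (x - Pi.single e z) w) C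
      (fun w => hC t htU (x - Pi.single e z) w) u
    exact mul_le_mul (Pool.Agent.H48.PL.kl_abs one_pos hz) h7 (abs_nonneg _) (by norm_num)

private lemma pot_affine {g : ℝ → Vec d → Vec d → ℝ} (hu : Pool.Agent.H48.PL.UC (Ico 0 T) g) (e : Fin d)
    (hχ : Cut R K χ) {t : ℝ} (ht : t ∈ Ico 0 T) (x v h : Vec d) :
    Pool.Agent.H48.PL.pot e 1 (Pw e χ) (g t) x (v + h) +
      Pool.Agent.H48.PL.pot e 1 (Pw e χ) (g t) x (v - h) =
      2 * Pool.Agent.H48.PL.pot e 1 (Pw e χ) (g t) x v := by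
  have hP := pgw_Pw e hχ
  have hsl : ∀ y : Vec d, Continuous (g t y) := fun y => by
    have h2 : Continuous fun w : Vec d => (t, y, w) := by fun_prop
    have h3 := hu.cont.comp h2.continuousOn (s := univ) fun w _ => ⟨ht, mem_univ _⟩
    exact continuousOn_univ.1 h3
  obtain ⟨U, hU, hdec⟩ := hu.dec t ht
  have htU : t ∈ U := mem_of_mem_nhdsWithin ht hU
  have hRD : ∀ y : Vec d, RD (g t y) := fun y N => by
    obtain ⟨C, hC⟩ := hdec N
    exact ⟨C, fun w => by rw [Real.norm_eq_abs]; exact hC t htU y w⟩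
  unfold Pool.Agent.H48.PL.pot
  rw [← integral_add (pot_int hu ht x (v + h) hP) (pot_int hu ht x (v - h) hP),
    ← integral_const_mul]
  congr 1
  funext z
  rw [← mul_add, inner_affine hχ (hRD _) (hsl _) v h]
  ring

theorem pz_affine (hf : IsClassicalSol T (fun t x => Q (f t x)) f) (e : Fin d) {δ : ℝ} (h0 : 0 < δ) (h1 : δ ≤ 1 / 2)
    (hχ : Cut R K χ) {t : ℝ} (ht : t ∈ Ico 0 T) (x v h : Vec d) :
    Pz e χ δ f t x (v + h) + Pz e χ δ f t x (v - h) = 2 * Pz e χ δ f t x v := by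
  have hr := ren_sol hf h0 (by linarith : δ ≤ 1)
  have key := pot_affine (Pool.Agent.H48.PL.uc_sol hr) e hχ ht x v h
  unfold Pz
  rw [← mul_add, key]
  ring

theorem pz_cont (hf : IsClassicalSol T (fun t x => Q (f t x)) f) (e : Fin d) {δ : ℝ} (h0 : 0 < δ) (h1 : δ ≤ 1 / 2)
    (hχ : Cut R K χ) : ContinuousOn (unc (Pz e χ δ f)) (Ico 0 T ×ˢ univ) := by
  have hr := ren_sol hf h0 (by linarith : δ ≤ 1)
  have h2 := Pool.Agent.H48.PL.pot_cont hr (pgw_Pw e hχ) e one_pos
  exact continuousOn_const.mul h2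

theorem pz_per (hf : IsClassicalSol T (fun t x => Q (f t x)) f) (e : Fin d) {δ : ℝ} {t : ℝ} (ht : t ∈ Ico 0 T)
    (x v : Vec d) (i : Fin d) : Pz e χ δ f t (x + Pi.single i 1) v = Pz e χ δ f t x v := by
  unfold Pz
  rw [Pool.Agent.H48.PL.pot_per (fun y w j => by unfold ren; rw [hf.periodic t ht y w j]) e x v i]

end Pool.Agent.H85.LB
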