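import Pool.Agent.H85.LB.PzA
import Pool.Agent.H85.LB.Line

/-!
# Module PzB: the potential is small

`kf δ = lam δ - uf δ` (`kf_add_uf`) and the kernel `kl 1` is odd (its integral over `(-1/2,1/2)` is `0`), so
`Pz = (1/lam δ) ∫ kl 1 z ∫ (v_e - w_e) χ(w) uf δ (f(x - z e, w)) dw dz`; `|kl 1| ≤ 1/2`, `|v_e - w_e| ≤ ‖v‖ + 2R` on the support of `χ`,
`0 ≤ χ ≤ 1`, and `line_torus` for `G x = ub δ (2R) (f t x)` (continuous, periodic, planar). `ub_cont` is stated for later use.
-/

set_option autoImplicit false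

open MeasureTheory Set Filter Topology Pool.Agent.H25.Kin Pool.Agent.H15.AV

namespace Pool.Agent.H85.LB

variable {d : ℕ} {T R K : ℝ} {Q : (Vec d → ℝ) → Vec d → ℝ} {f : ℝ → Vec d → Vec d → ℝ} {χ : Vec d → ℝ}

private lemma PzB_uf_cont (hf : IsClassicalSol T (fun t x => Q (f t x)) f) {δ : ℝ} (h0 : 0 < δ) {t : ℝ}
    (ht : t ∈ Ico 0 T) : Continuous fun q : Vec d × Vec d => Pool.Agent.H15.AV.uf δ (f t q.1 q.2) := by
  have hc : Continuous fun q : Vec d × Vec d => f t q.1 q.2 := hf.cont_slice ht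
  have hn : ∀ q : Vec d × Vec d, 0 ≤ f t q.1 q.2 := fun q => hf.nonneg t ht q.1 q.2
  unfold Pool.Agent.H15.AV.uf
  refine Continuous.sub ((continuous_const.add hc).log fun q => ?_)
    ((continuous_const.add hc).log fun q => ?_)
  · have := hn q
    exact (by linarith : (0 : ℝ) < 1 + f t q.1 q.2).ne'
  · have := hn q
    exact (by linarith : (0 : ℝ) < δ + f t q.1 q.2).ne'

private lemma PzB_kl0 : ∫ z in Ioo (-((1 : ℝ) / 2)) (1 / 2), Pool.Agent.H48.PL.kl 1 z = 0 := by
  have h := Pool.Agent.H48.PL.kl_ibp (l := 1) one_pos (F := fun x => x) (F' := fun _ => 1)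
    (fun x => hasDerivAt_id x) continuous_const 0
  simp only [mul_one, zero_sub] at h
  have h2 : ∫ z in (-((1 : ℝ) / 2))..(1 / 2), -z = 0 :=
    (intervalIntegral.integral_neg (f := fun z : ℝ => z)).trans (by rw [integral_id]; norm_num)
  rw [h, ← integral_Ioc_eq_integral_Ioo, ← intervalIntegral.integral_of_le (by norm_num), h2]
  norm_num

private lemma PzB_out (hχ : Cut R K χ) {w : Vec d} (hw : w ∉ Metric.closedBall (0 : Vec d) (2 * R)) :
    χ w = 0 := by
  apply hχ.tst.supp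
  rw [Metric.mem_closedBall, dist_zero_right, not_le] at hw
  exact hw.le

private lemma PzB_Pw_cont (e : Fin d) (hχ : Cut R K χ) (v : Vec d) : Continuous fun w => Pw e χ v w := by
  unfold Pw
  have := hχ.tst.smooth.continuous
  fun_prop

private lemma PzB_Pw_le (e : Fin d) (hR : 0 < R) (hχ : Cut R K χ) (v w : Vec d) :
    |Pw e χ v w| ≤ ‖v‖ + 2 * R := by
  by_cases hw : w ∈ Metric.closedBall (0 : Vec d) (2 * R)
  · rw [Metric.mem_closedBall, dist_zero_right] at hw
    unfold Pw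
    rw [abs_mul, abs_of_nonneg (hχ.nonneg w)]
    have h1 : |v e| ≤ ‖v‖ := norm_le_pi_norm v e
    have h2 : |w e| ≤ ‖w‖ := norm_le_pi_norm w e
    have h3 : |v e - w e| ≤ ‖v‖ + 2 * R := (abs_sub _ _).trans (by linarith)
    calc |v e - w e| * χ w ≤ (‖v‖ + 2 * R) * 1 :=
          mul_le_mul h3 (hχ.le_one w) (hχ.nonneg w) ((abs_nonneg _).trans h3)
      _ = ‖v‖ + 2 * R := mul_one _
  · unfold Pw
    rw [PzB_out hχ hw, mul_zero, abs_zero]
    positivity

theorem ub_cont (hf : IsClassicalSol T (fun t x => Q (f t x)) f) {δ : ℝ} (h0 : 0 < δ) (h1 : δ ≤ 1) {t : ℝ}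
    (ht : t ∈ Ico 0 T) (R' : ℝ) : Continuous fun x => ub δ R' (f t x) := by
  unfold ub
  exact continuous_parametric_integral_of_continuous (PzB_uf_cont hf h0 ht)
    (isCompact_closedBall (0 : Vec d) R')

private lemma PzB_g_eq (e : Fin d) (hχ : Cut R K χ) (v : Vec d) (F : Vec d → ℝ) :
    ∫ w, Pw e χ v w * F w = ∫ w in Metric.closedBall (0 : Vec d) (2 * R), Pw e χ v w * F w := by
  refine (setIntegral_eq_integral_of_forall_compl_eq_zero fun w hw => ?_).symm
  unfold Pw
  rw [PzB_out hχ hw, mul_zero, zero_mul]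

private lemma PzB_int (e : Fin d) (hχ : Cut R K χ) (v : Vec d) {F : Vec d → ℝ} (hF : Continuous F) :
    Integrable fun w => Pw e χ v w * F w := by
  refine ((PzB_Pw_cont e hχ v).mul hF).integrable_of_hasCompactSupport ?_
  refine HasCompactSupport.intro (isCompact_closedBall (0 : Vec d) (2 * R)) fun w hw => ?_
  simp only [Pi.mul_apply, Pw, PzB_out hχ hw, mul_zero, zero_mul]

theorem pz_bound (hf : IsClassicalSol T (fun t x => Q (f t x)) f) {e : Fin d} (hpl : Pool.Agent.H48.PL.Planar e T f)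
    {δ : ℝ} (h0 : 0 < δ) (h1 : δ ≤ 1 / 2) (hR : 0 < R) (hχ : Cut R K χ) {t : ℝ} (ht : t ∈ Ico 0 T) (x v : Vec d) :
    |Pz e χ δ f t x v| ≤ (‖v‖ + 2 * R) * ((∫ y, ub δ (2 * R) (f t y) ∂(muD d)) / lam δ) := by
  have h1' : δ ≤ 1 := by linarith
  have hlam : 0 < lam δ := lam_pos h0 (by linarith)
  have hu := PzB_uf_cont hf h0 ht
  have hu' : ∀ y : Vec d, Continuous fun w => Pool.Agent.H15.AV.uf δ (f t y w) := fun y =>
    hu.comp (by fun_prop : Continuous fun w : Vec d => (y, w))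
  have hub := ub_cont hf h0 h1' ht (2 * R)
  have hA0 : 0 ≤ ‖v‖ + 2 * R := by positivity
  obtain ⟨g, hg⟩ : ∃ g : Vec d → ℝ,
      g = fun y => ∫ w, Pw e χ v w * Pool.Agent.H15.AV.uf δ (f t y w) := ⟨_, rfl⟩
  have hgc : Continuous g := by
    rw [hg]
    have : (fun y => ∫ w, Pw e χ v w * Pool.Agent.H15.AV.uf δ (f t y w)) = fun y =>
        ∫ w in Metric.closedBall (0 : Vec d) (2 * R),
          Pw e χ v w * Pool.Agent.H15.AV.uf δ (f t y w) := by
      funext y
      exact PzB_g_eq e hχ v _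
    rw [this]
    refine continuous_parametric_integral_of_continuous ?_ (isCompact_closedBall (0 : Vec d) (2 * R))
    exact ((PzB_Pw_cont e hχ v).comp continuous_snd).mul hu
  have hgb : ∀ y, |g y| ≤ (‖v‖ + 2 * R) * ub δ (2 * R) (f t y) := by
    intro y
    rw [hg]
    simp only
    rw [PzB_g_eq e hχ v, ← Real.norm_eq_abs]
    unfold ub
    rw [← integral_const_mul]
    refine norm_integral_le_of_norm_le ?_ (Eventually.of_forall fun w => ?_)
    · exact ((hu' y).continuousOn.integrableOn_compact (isCompact_closedBall _ _)).const_mul _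
    · have h3 : 0 ≤ Pool.Agent.H15.AV.uf δ (f t y w) := uf_nonneg h0 h1' (hf.nonneg t ht y w)
      rw [norm_mul, Real.norm_eq_abs, Real.norm_eq_abs, abs_of_nonneg h3]
      exact mul_le_mul_of_nonneg_right (PzB_Pw_le e hR hχ v w) h3
  obtain ⟨c, hc⟩ : ∃ c : ℝ, c = lam δ * ∫ w, Pw e χ v w := ⟨_, rfl⟩
  have hren : ∀ y, ∫ w, Pw e χ v w * ren δ f t y w = c - g y := by
    intro y
    have h3 : ∀ w, Pw e χ v w * ren δ f t y w =
        lam δ * Pw e χ v w - Pw e χ v w * Pool.Agent.H15.AV.uf δ (f t y w) := by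
      intro w
      have h4 := kf_add_uf δ (f t y w)
      have h5 : ren δ f t y w = lam δ - Pool.Agent.H15.AV.uf δ (f t y w) := by
        unfold ren
        linarith
      rw [h5]
      ring
    have h6 : Integrable fun w => lam δ * Pw e χ v w := by
      have := (PzB_int e hχ v (F := fun _ => (1 : ℝ)) continuous_const).const_mul (lam δ)
      simpa only [mul_one] using this
    simp only [h3]
    rw [integral_sub h6 (PzB_int e hχ v (hu' y)), integral_const_mul, hc, hg]
  have hsing : Continuous fun z : ℝ => x - (Pi.single e z : Vec d) := by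
    refine continuous_const.sub ?_
    refine continuous_pi fun i => ?_
    by_cases hi : i = e
    · subst hi
      simp only [Pi.single_eq_same]
      exact continuous_id
    · simp only [Pi.single_eq_of_ne hi]
      exact continuous_const
  have hfin : IsFiniteMeasure ((volume : Measure ℝ).restrict (Ioo (-((1 : ℝ) / 2)) (1 / 2))) := by
    refine ⟨?_⟩
    rw [Measure.restrict_apply_univ]
    exact measure_Ioo_lt_top
  have hklb : ∀ᵐ z ∂((volume : Measure ℝ).restrict (Ioo (-((1 : ℝ) / 2)) (1 / 2))),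
      ‖Pool.Agent.H48.PL.kl 1 z‖ ≤ 1 / 2 :=
    (ae_restrict_iff' measurableSet_Ioo).2 (Eventually.of_forall fun z hz =>
      Pool.Agent.H48.PL.kl_abs one_pos hz)
  have hkm : AEStronglyMeasurable (Pool.Agent.H48.PL.kl 1)
      ((volume : Measure ℝ).restrict (Ioo (-((1 : ℝ) / 2)) (1 / 2))) :=
    (Pool.Agent.H48.PL.kl_meas 1).aestronglyMeasurable
  have hkint : Integrable (Pool.Agent.H48.PL.kl 1)
      ((volume : Measure ℝ).restrict (Ioo (-((1 : ℝ) / 2)) (1 / 2))) :=
    Integrable.of_bound hkm (1 / 2) hklb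
  have hcint : ∀ {G : ℝ → ℝ}, Continuous G → Integrable G
      ((volume : Measure ℝ).restrict (Ioo (-((1 : ℝ) / 2)) (1 / 2))) := fun hG =>
    (hG.integrableOn_Icc (a := -((1 : ℝ) / 2)) (b := 1 / 2)).mono_set Ioo_subset_Icc_self
  have hkg : Integrable (fun z => Pool.Agent.H48.PL.kl 1 z * g (x - Pi.single e z))
      ((volume : Measure ℝ).restrict (Ioo (-((1 : ℝ) / 2)) (1 / 2))) :=
    (hcint (hgc.comp hsing)).bdd_mul hkm hklb
  have hpot : Pool.Agent.H48.PL.pot e 1 (Pw e χ) (ren δ f t) x v =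
      -∫ z in Ioo (-((1 : ℝ) / 2)) (1 / 2), Pool.Agent.H48.PL.kl 1 z * g (x - Pi.single e z) := by
    unfold Pool.Agent.H48.PL.pot
    simp only [hren, mul_sub]
    rw [integral_sub (hkint.mul_const c) hkg, integral_mul_const, PzB_kl0, zero_mul, zero_sub]
  have hbd : |∫ z in Ioo (-((1 : ℝ) / 2)) (1 / 2),
      Pool.Agent.H48.PL.kl 1 z * g (x - Pi.single e z)| ≤
      (‖v‖ + 2 * R) / 2 * ∫ y, ub δ (2 * R) (f t y) ∂(muD d) := by
    rw [← line_torus e hub (fun y i => ?_) (fun y z hyz => ?_) x, ← Real.norm_eq_abs,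
      ← integral_const_mul]
    · refine norm_integral_le_of_norm_le ((hcint (hub.comp hsing)).const_mul _) ?_
      filter_upwards [hklb] with z hz
      rw [norm_mul, Real.norm_eq_abs (g _)]
      calc ‖Pool.Agent.H48.PL.kl 1 z‖ * |g (x - Pi.single e z)|
          ≤ 1 / 2 * ((‖v‖ + 2 * R) * ub δ (2 * R) (f t (x - Pi.single e z))) :=
            mul_le_mul hz (hgb _) (abs_nonneg _) (by norm_num)
        _ = (‖v‖ + 2 * R) / 2 * ub δ (2 * R) (f t (x - Pi.single e z)) := by ring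
    · show ub δ (2 * R) (f t (y + Pi.single i 1)) = ub δ (2 * R) (f t y)
      congr 1
      funext w
      exact hf.periodic t ht y w i
    · show ub δ (2 * R) (f t y) = ub δ (2 * R) (f t z)
      congr 1
      funext w
      exact hpl t ht y z w hyz
  have hI : 0 ≤ ∫ y, ub δ (2 * R) (f t y) ∂(muD d) := by
    refine integral_nonneg fun y => ?_
    exact integral_nonneg fun w => uf_nonneg h0 h1' (hf.nonneg t ht y w)
  unfold Pz
  rw [hpot, abs_mul, abs_neg, abs_neg, abs_of_pos (by positivity : (0 : ℝ) < 1 / lam δ)]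
  calc 1 / lam δ * |∫ z in Ioo (-((1 : ℝ) / 2)) (1 / 2),
        Pool.Agent.H48.PL.kl 1 z * g (x - Pi.single e z)|
      ≤ 1 / lam δ * ((‖v‖ + 2 * R) / 2 * ∫ y, ub δ (2 * R) (f t y) ∂(muD d)) :=
        mul_le_mul_of_nonneg_left hbd (by positivity)
    _ ≤ 1 / lam δ * ((‖v‖ + 2 * R) * ∫ y, ub δ (2 * R) (f t y) ∂(muD d)) := by
        refine mul_le_mul_of_nonneg_left ?_ (by positivity)
        exact mul_le_mul_of_nonneg_right (by linarith) hI
    _ = (‖v‖ + 2 * R) * ((∫ y, ub δ (2 * R) (f t y) ∂(muD d)) / lam δ) := by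
        field_simp

end Pool.Agent.H85.LB
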