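import Pool.Agent.H85.LB.PzA

/-!
# Module PzF: the derivative of the potential along the characteristics, exact formula

`pot_char` (H48/PL/PotD) for `ren_sol`, `Pw e χ` (`pgw_Pw`): the derivative is `-(1/lam δ) dpot e 1 (Pw e χ) (ren δ f t) (renS Q δ f t) (x + t v) v`. With
`ren = lam δ - uf` (`kf_add_uf`) and the length `1` of the interval the constant `lam δ ∫ (v_e-w_e)² χ` cancels; `(v_e - w_e) Pw e χ v w = (v_e-w_e)² χ w`;
`∫ Pw e χ v w renS = src Q δ (f t y) (Pw e χ v)` by definition.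
-/

set_option autoImplicit false

open MeasureTheory Set Filter Topology Pool.Agent.H25.Kin Pool.Agent.H15.AV

namespace Pool.Agent.H85.LB

variable {d : ℕ} {T R K : ℝ} {Q : (Vec d → ℝ) → Vec d → ℝ} {f : ℝ → Vec d → Vec d → ℝ} {χ : Vec d → ℝ}

private lemma PzF_cpt (hχ : Cut R K χ) (e : Fin d) (v : Vec d) : Integrable fun w : Vec d => (v e - w e) ^ 2 * χ w := by
  have hc : Continuous χ := hχ.tst.smooth.continuous
  have h1 : Continuous fun w : Vec d => (v e - w e) ^ 2 * χ w := by fun_prop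
  refine h1.integrable_of_hasCompactSupport ?_
  refine HasCompactSupport.intro (isCompact_closedBall (0 : Vec d) (2 * R)) fun w hw => ?_
  rw [Metric.mem_closedBall, dist_zero_right, not_le] at hw
  rw [hχ.tst.supp w hw.le, mul_zero]

private lemma PzF_int {δ' : ℝ} (hfr : IsClassicalSol T (renS Q δ' f) (ren δ' f)) (e : Fin d) (hχ : Cut R K χ)
    {t : ℝ} (ht : t ∈ Ioo 0 T) (v y : Vec d) :
    ∫ w, (v e - w e) * Pw e χ v w * ren δ' f t y w =
      lam δ' * (∫ w : Vec d, (v e - w e) ^ 2 * χ w) - vis e χ δ' (f t y) v := by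
  have hP := pgw_Pw e hχ
  have i1 := PzF_cpt hχ e v
  have hn := IsClassicalSol.nice hfr ht y
  have i2 : Integrable fun w => ((v e - w e) * Pw e χ v w) * ren δ' f t y w :=
    Pool.Agent.H48.PL.avg_int (hP.vmul e) hn.rd hn.cont v
  have ep : ∀ w, lam δ' * ((v e - w e) ^ 2 * χ w) - ((v e - w e) * Pw e χ v w) * ren δ' f t y w =
      (v e - w e) ^ 2 * χ w * Pool.Agent.H15.AV.uf δ' (f t y w) := by
    intro w
    have h1 := kf_add_uf δ' (f t y w)
    unfold ren Pw
    rw [← h1]
    ring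
  have i3 : Integrable fun w => (v e - w e) ^ 2 * χ w * Pool.Agent.H15.AV.uf δ' (f t y w) :=
    ((i1.const_mul (lam δ')).sub i2).congr (Eventually.of_forall ep)
  unfold vis
  rw [← integral_const_mul, ← integral_sub (i1.const_mul _) i3]
  refine integral_congr_ae (Eventually.of_forall fun w => ?_)
  have h1 := ep w
  simp only
  linarith

theorem pz_formula (hf : IsClassicalSol T (fun t x => Q (f t x)) f) {e : Fin d} (hpl : Pool.Agent.H48.PL.Planar e T f)
    {δ : ℝ} (h0 : 0 < δ) (h1 : δ ≤ 1 / 2) (hχ : Cut R K χ) {t : ℝ} (ht : t ∈ Ioo 0 T) (x v : Vec d) :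
    HasDerivAt (fun r => Pz e χ δ f r (x + r • v) v)
      (1 / lam δ * (vis e χ δ (f t (x + t • v)) v -
          ∫ z in Ioo (-(1 / 2 : ℝ)) (1 / 2), vis e χ δ (f t (x + t • v - Pi.single e z)) v) -
        1 / lam δ * ∫ z in Ioo (-(1 / 2 : ℝ)) (1 / 2), Pool.Agent.H48.PL.kl 1 z *
          src Q δ (f t (x + t • v - Pi.single e z)) (Pw e χ v)) t := by
  have hfr : IsClassicalSol T (renS Q δ f) (ren δ f) := ren_sol hf h0 (by linarith)
  have hplr : Pool.Agent.H48.PL.Planar e T (ren δ f) := fun t ht x y v hxy => by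
    unfold ren
    rw [hpl t ht x y v hxy]
  have hP := pgw_Pw e hχ
  have h := (Pool.Agent.H48.PL.pot_char hfr hplr hP one_pos ht x v).const_mul (-(1 / lam δ))
  refine HasDerivAt.congr_deriv (f := fun r => Pz e χ δ f r (x + r • v) v) h ?_
  set X := x + t • v with hX
  have key := PzF_int hfr e hχ ht v
  -- continuity of the inner integral
  have hc : Continuous fun z : ℝ => ∫ w, (v e - w e) * Pw e χ v w * ren δ f t (X - Pi.single e z) w := by
    have hu := Pool.Agent.H48.PL.avg_cont (Pool.Agent.H48.PL.uc_sol hfr) (hP.vmul e)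
    have h1 : Continuous fun z : ℝ => ((t, X - Pi.single e z, v) : ℝ × Vec d × Vec d) := by
      have h2 : Continuous fun z : ℝ => (Pi.single e z : Vec d) := continuous_single (A := fun _ : Fin d => ℝ) e
      fun_prop
    have h3 := hu.comp h1.continuousOn (s := univ) fun z _ => ⟨⟨ht.1.le, ht.2⟩, mem_univ _⟩
    exact continuousOn_univ.1 h3
  have hi : IntegrableOn (fun z : ℝ => ∫ w, (v e - w e) * Pw e χ v w * ren δ f t (X - Pi.single e z) w)
      (Ioo (-(1 / 2 : ℝ)) (1 / 2)) :=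
    (hc.integrableOn_Icc (a := -(1 / 2 : ℝ)) (b := 1 / 2)).mono_set Ioo_subset_Icc_self
  have e2 : ∫ z in Ioo (-(1 / 2 : ℝ)) (1 / 2), vis e χ δ (f t (X - Pi.single e z)) v =
      lam δ * (∫ w : Vec d, (v e - w e) ^ 2 * χ w) -
        ∫ z in Ioo (-(1 / 2 : ℝ)) (1 / 2), ∫ w, (v e - w e) * Pw e χ v w * ren δ f t (X - Pi.single e z) w := by
    have e3 : ∀ z : ℝ, vis e χ δ (f t (X - Pi.single e z)) v = lam δ * (∫ w : Vec d, (v e - w e) ^ 2 * χ w) -
        ∫ w, (v e - w e) * Pw e χ v w * ren δ f t (X - Pi.single e z) w := by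
      intro z
      have := key (X - Pi.single e z)
      linarith
    have hfin : volume (Ioo (-(1 / 2 : ℝ)) (1 / 2)) ≠ ⊤ := by
      rw [Real.volume_Ioo]
      exact ENNReal.ofReal_ne_top
    have hvol : volume.real (Ioo (-(1 / 2 : ℝ)) (1 / 2)) = 1 := by
      rw [Real.volume_real_Ioo_of_le (by norm_num)]
      norm_num
    have hcon : IntegrableOn (fun _ : ℝ => lam δ * (∫ w : Vec d, (v e - w e) ^ 2 * χ w)) (Ioo (-(1 / 2 : ℝ)) (1 / 2)) :=
      integrableOn_const hfin
    rw [integral_congr_ae (Eventually.of_forall e3), integral_sub hcon hi, setIntegral_const, hvol, one_smul]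
  have e4 : ∀ z : ℝ, src Q δ (f t (X - Pi.single e z)) (Pw e χ v) =
      ∫ w, Pw e χ v w * renS Q δ f t (X - Pi.single e z) w := fun z => rfl
  have e5 := key X
  rw [e2]
  simp only [e4]
  unfold Pool.Agent.H48.PL.dpot
  rw [e5]
  ring

end Pool.Agent.H85.LB
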