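import Pool.Agent.H85.LB.Defs

/-!
# Module SrcA: the source of the renormalised equation tested with a function of any sign

From `FibTh.drift` only. `exists_chi d hR` (H15/AV/One) gives a cut-off `φ`, `Tst (2R) Kφ φ`, `0 ≤ φ ≤ 1`, `φ = 1` on `‖v‖ ≤ R`. For `Tst R K Θ`:
`K φ + Θ` and `K φ - Θ` are `≥ 0` and `Tst (2R) (K (Kφ + 1))`; `drift` with the radius `2R` and `η/(Kφ+1)`, and the linearity of `src` in the test
function (`Q g` is continuous, the test functions are continuous with compact support).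
-/

set_option autoImplicit false

open MeasureTheory Set Filter Topology Pool.Agent.H25.Kin Pool.Agent.H15.AV

namespace Pool.Agent.H85.LB

variable {d : ℕ} {q : ℝ} {Q : (Vec d → ℝ) → Vec d → ℝ}

private theorem srcA_tst {R K K' s : ℝ} {χ Θ : Vec d → ℝ} (hR : 0 ≤ R) (hχ : Tst (2 * R) K' χ)
    (hΘ : Tst R K Θ) (hs : |s| = 1) :
    Tst (2 * R) (K * (K' + 1)) (fun v => K * χ v + s * Θ v) := by
  have hK : 0 ≤ K := (abs_nonneg _).trans (hΘ.le0 0)
  have dχ : Differentiable ℝ χ := hχ.smooth.differentiable (by norm_num)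
  have dΘ : Differentiable ℝ Θ := hΘ.smooth.differentiable (by norm_num)
  have d1χ : Differentiable ℝ (fderiv ℝ χ) :=
    (hχ.smooth.fderiv_right (m := 1) (by norm_num)).differentiable (by norm_num)
  have d1Θ : Differentiable ℝ (fderiv ℝ Θ) :=
    (hΘ.smooth.fderiv_right (m := 1) (by norm_num)).differentiable (by norm_num)
  have e1 : fderiv ℝ (fun v => K * χ v + s * Θ v) = fun v => K • fderiv ℝ χ v + s • fderiv ℝ Θ v := by
    funext v
    exact (((dχ v).hasFDerivAt.const_mul K).add ((dΘ v).hasFDerivAt.const_mul s)).fderiv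
  have e2 : fderiv ℝ (fderiv ℝ (fun v => K * χ v + s * Θ v)) =
      fun v => K • fderiv ℝ (fderiv ℝ χ) v + s • fderiv ℝ (fderiv ℝ Θ) v := by
    rw [e1]
    funext v
    exact (((d1χ v).hasFDerivAt.const_smul K).add ((d1Θ v).hasFDerivAt.const_smul s)).fderiv
  refine ⟨?_, fun v hv => ?_, fun v => ?_, fun v => ?_, fun v => ?_⟩
  · exact (contDiff_const.mul hχ.smooth).add (contDiff_const.mul hΘ.smooth)
  · rw [hχ.supp v hv, hΘ.supp v (by linarith)]
    ring
  · have h1 := hχ.le0 v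
    have h2 := hΘ.le0 v
    calc |K * χ v + s * Θ v| ≤ |K * χ v| + |s * Θ v| := abs_add_le _ _
      _ = K * |χ v| + |Θ v| := by rw [abs_mul, abs_mul, abs_of_nonneg hK, hs, one_mul]
      _ ≤ K * K' + K := add_le_add (mul_le_mul_of_nonneg_left h1 hK) h2
      _ = K * (K' + 1) := by ring
  · rw [e1]
    have h1 := hχ.le1 v
    have h2 := hΘ.le1 v
    calc ‖K • fderiv ℝ χ v + s • fderiv ℝ Θ v‖ ≤ ‖K • fderiv ℝ χ v‖ + ‖s • fderiv ℝ Θ v‖ :=
          norm_add_le _ _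
      _ = K * ‖fderiv ℝ χ v‖ + ‖fderiv ℝ Θ v‖ := by
          rw [norm_smul, norm_smul, Real.norm_eq_abs, Real.norm_eq_abs, abs_of_nonneg hK, hs, one_mul]
      _ ≤ K * K' + K := add_le_add (mul_le_mul_of_nonneg_left h1 hK) h2
      _ = K * (K' + 1) := by ring
  · rw [e2]
    have h1 := hχ.le2 v
    have h2 := hΘ.le2 v
    have n1 : ‖K • fderiv ℝ (fderiv ℝ χ) v‖ ≤ K * K' := by
      refine (ContinuousLinearMap.opNorm_smul_le K (fderiv ℝ (fderiv ℝ χ) v)).trans ?_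
      rw [Real.norm_eq_abs, abs_of_nonneg hK]
      exact mul_le_mul_of_nonneg_left h1 hK
    have n2 : ‖s • fderiv ℝ (fderiv ℝ Θ) v‖ ≤ K := by
      refine (ContinuousLinearMap.opNorm_smul_le s (fderiv ℝ (fderiv ℝ Θ) v)).trans ?_
      rw [Real.norm_eq_abs, hs, one_mul]
      exact h2
    calc ‖K • fderiv ℝ (fderiv ℝ χ) v + s • fderiv ℝ (fderiv ℝ Θ) v‖
        ≤ ‖K • fderiv ℝ (fderiv ℝ χ) v‖ + ‖s • fderiv ℝ (fderiv ℝ Θ) v‖ :=
          norm_add_le (K • fderiv ℝ (fderiv ℝ χ) v) (s • fderiv ℝ (fderiv ℝ Θ) v)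
      _ ≤ K * K' + K := add_le_add n1 n2
      _ = K * (K' + 1) := by ring

private theorem srcA_int {R K δ : ℝ} {Ψ g : Vec d → ℝ} (hΨ : Tst R K Ψ) (hδ : 0 < δ)
    (hg : Continuous g) (hg0 : ∀ v, 0 ≤ g v) (hQ : Continuous (Q g)) :
    Integrable fun v => Ψ v * (kd δ (g v) * Q g v) := by
  have hkd : Continuous fun v => kd δ (g v) := by
    unfold kd
    refine ((continuous_const.add hg).inv₀ fun v => ?_).sub
      ((continuous_const.add hg).inv₀ fun v => ?_)
    · have := hg0 v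
      exact (by linarith : (0 : ℝ) < δ + g v).ne'
    · have := hg0 v
      exact (by linarith : (0 : ℝ) < 1 + g v).ne'
  refine (hΨ.smooth.continuous.mul (hkd.mul hQ)).integrable_of_hasCompactSupport ?_
  refine HasCompactSupport.of_support_subset_isCompact (isCompact_closedBall (0 : Vec d) R) ?_
  intro v hv
  rw [Metric.mem_closedBall, dist_zero_right]
  by_contra h
  have h' : R ≤ ‖v‖ := (not_le.1 h).le
  exact hv (by simp [hΨ.supp v h'])

theorem src_abs (hQ : FibTh q Q) {R : ℝ} (hR : 0 < R) {η : ℝ} (hη : 0 < η) :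
    ∃ (C R' : ℝ) (φ : Vec d → ℝ), 0 ≤ C ∧ 2 * R ≤ R' ∧ Cut R C φ ∧
      ∀ δ ∈ Ioc (0 : ℝ) (1 / 2), ∀ g : Vec d → ℝ, Nice g → (∀ v, 0 ≤ g v) → Continuous (Q g) →
      ∀ (K : ℝ) (Θ : Vec d → ℝ), Tst R K Θ →
        |src Q δ g Θ| ≤ K * (src Q δ g φ + kap q g * (C * (1 + ub δ R' g) + η * lam δ)) := by
  obtain ⟨Kφ, φ, hφ, hφ0, hφ1, hφe⟩ := exists_chi d hR
  have hKφ : 0 ≤ Kφ := (abs_nonneg _).trans (hφ.le0 0)
  have hK1 : 0 < Kφ + 1 := by linarith
  obtain ⟨C1, R', hC1, hR', hdr⟩ := hQ.drift (2 * R) (by linarith) (η / (Kφ + 1)) (div_pos hη hK1)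
  have hC10 : 0 ≤ (Kφ + 1) * C1 := mul_nonneg hK1.le hC1
  have hm1 : (Kφ + 1) * C1 ≤ max ((Kφ + 1) * C1) Kφ := le_max_left _ _
  have hm2 : Kφ ≤ max ((Kφ + 1) * C1) Kφ := le_max_right _ _
  refine ⟨max ((Kφ + 1) * C1) Kφ, R', φ, hKφ.trans hm2, hR', ⟨⟨hφ.smooth, hφ.supp,
    fun v => (hφ.le0 v).trans hm2, fun v => (hφ.le1 v).trans hm2, fun v => (hφ.le2 v).trans hm2⟩,
    hφ0, hφ1, hφe⟩, ?_⟩
  intro δ hδ g hg hg0 hQg K Θ hΘ
  have hK : 0 ≤ K := (abs_nonneg _).trans (hΘ.le0 0)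
  have hδ0 : 0 < δ := hδ.1
  have hδ1 : δ ≤ 1 := by have := hδ.2; linarith
  have iφ := srcA_int (Q := Q) hφ hδ0 hg.cont hg0 hQg
  have iΘ := srcA_int (Q := Q) hΘ hδ0 hg.cont hg0 hQg
  have lin : ∀ s : ℝ, src Q δ g (fun v => K * φ v + s * Θ v) = K * src Q δ g φ + s * src Q δ g Θ := by
    intro s
    unfold src
    rw [← integral_const_mul, ← integral_const_mul, ← integral_add (iφ.const_mul K) (iΘ.const_mul s)]
    refine integral_congr_ae (Eventually.of_forall fun v => ?_)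
    simp only
    ring
  have pos : ∀ s : ℝ, |s| = 1 → ∀ v, 0 ≤ K * φ v + s * Θ v := by
    intro s hs v
    have h2 : |s * Θ v| ≤ K := by
      rw [abs_mul, hs, one_mul]
      exact hΘ.le0 v
    rcases le_or_gt ‖v‖ R with h | h
    · rw [hφe v h]
      have := (abs_le.1 h2).1
      linarith
    · rw [hΘ.supp v h.le, mul_zero, add_zero]
      exact mul_nonneg hK (hφ0 v)
  have hub : 0 ≤ ub δ R' g := by
    unfold ub
    refine integral_nonneg fun v => ?_
    unfold Pool.Agent.H15.AV.uf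
    have h1 := hg0 v
    have h3 : Real.log (δ + g v) ≤ Real.log (1 + g v) :=
      Real.log_le_log (by linarith) (by linarith)
    change 0 ≤ Real.log (1 + g v) - Real.log (δ + g v)
    linarith
  have hkap : 0 ≤ kap q g := by
    unfold kap
    exact integral_nonneg fun w => mul_nonneg (hg0 w)
      (Real.rpow_nonneg (by have := norm_nonneg w; linarith) _)
  have main : ∀ s : ℝ, |s| = 1 → -(s * src Q δ g Θ) ≤
      K * (src Q δ g φ + kap q g * (max ((Kφ + 1) * C1) Kφ * (1 + ub δ R' g) + η * lam δ)) := by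
    intro s hs
    have h1 := hdr δ hδ g hg hg0 (K * (Kφ + 1)) _ (srcA_tst hR.le hφ hΘ hs) (pos s hs)
    rw [lin s] at h1
    have h2 : K * (Kφ + 1) * kap q g * (C1 * (1 + ub δ R' g) + η / (Kφ + 1) * lam δ) =
        K * (kap q g * ((Kφ + 1) * C1 * (1 + ub δ R' g) + η * lam δ)) := by
      field_simp
    rw [h2] at h1
    have h3 : (Kφ + 1) * C1 * (1 + ub δ R' g) ≤ max ((Kφ + 1) * C1) Kφ * (1 + ub δ R' g) :=
      mul_le_mul_of_nonneg_right hm1 (by linarith)
    have h4 : K * (kap q g * ((Kφ + 1) * C1 * (1 + ub δ R' g) + η * lam δ)) ≤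
        K * (kap q g * (max ((Kφ + 1) * C1) Kφ * (1 + ub δ R' g) + η * lam δ)) :=
      mul_le_mul_of_nonneg_left (mul_le_mul_of_nonneg_left (by linarith) hkap) hK
    rw [mul_add K]
    linarith
  rw [abs_le]
  constructor
  · have := main 1 (by norm_num)
    linarith
  · have := main (-1) (by norm_num)
    linarith

end Pool.Agent.H85.LB
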