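import Pool.Agent.H85.LB.PzB
import Pool.Agent.H85.LB.PzF
import Pool.Agent.H85.LB.SrcA

/-!
# Module PzD: the derivative of the potential along the characteristics, lower bound

From `pz_formula`. `Pw e χ v` is a `Tst (2R) K₁` function with `K₁` uniform in `‖v‖ ≤ 2` (product rule). `0 ≤ vis ≤ (2 + 2R)² ub δ (2R) ≤ (2+2R)² ub δ R'`
(`‖v‖ ≤ 2`, `uf ≥ 0`), `|kl 1| ≤ 1/2`, `src_abs` with the radius `2R` and a small multiple of `η`, `kap ≤ κ₀`, and `line_torus` for the continuous planar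
periodic functions `x ↦ src Q δ (f t x) φ` (`src_cont`, H15/AV/TrC) and `x ↦ ub δ R' (f t x)` (`ub_cont`). `C₁ = K₁ / 2` is the coefficient of the total source.
-/

set_option autoImplicit false

open MeasureTheory Set Filter Topology Pool.Agent.H25.Kin Pool.Agent.H15.AV

namespace Pool.Agent.H85.LB

variable {d : ℕ} {q R K : ℝ} {Q : (Vec d → ℝ) → Vec d → ℝ} {χ : Vec d → ℝ}

private lemma pzD_abs {v w : Vec d} {R : ℝ} (e : Fin d) (hv : ‖v‖ ≤ 2) (hw : ‖w‖ ≤ 2 * R) : |v e - w e| ≤ 2 + 2 * R := by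
  have h1 : |v e| ≤ ‖v‖ := norm_le_pi_norm v e
  have h2 : |w e| ≤ ‖w‖ := norm_le_pi_norm w e
  have h3 := abs_sub (v e) (w e)
  linarith

private lemma pzD_tst (hR : 0 < R) (hχ : Cut R K χ) (e : Fin d) {v : Vec d} (hv : ‖v‖ ≤ 2) :
    Tst (2 * R) ((4 + 2 * R) * K) (Pw e χ v) := by
  have hχt := hχ.tst
  have hK : 0 ≤ K := (abs_nonneg _).trans (hχt.le0 0)
  set p : Vec d →L[ℝ] ℝ := ContinuousLinearMap.proj (R := ℝ) (φ := fun _ : Fin d => ℝ) e with hp
  have hp1 : ‖-p‖ ≤ 1 := by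
    rw [norm_neg]
    refine ContinuousLinearMap.opNorm_le_bound _ zero_le_one fun w => ?_
    rw [one_mul]
    exact norm_le_pi_norm w e
  have da : ∀ w : Vec d, HasFDerivAt (fun w : Vec d => v e - w e) (-p) w := fun w =>
    (p.hasFDerivAt (x := w)).const_sub (v e)
  have dχ : Differentiable ℝ χ := hχt.smooth.differentiable (by norm_num)
  have d1χ : Differentiable ℝ (fderiv ℝ χ) :=
    (hχt.smooth.fderiv_right (m := 1) (by norm_num)).differentiable (by norm_num)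
  have e1 : fderiv ℝ (Pw e χ v) = fun w => (v e - w e) • fderiv ℝ χ w + χ w • (-p) := by
    funext w
    exact ((da w).mul (dχ w).hasFDerivAt).fderiv
  have e2 : fderiv ℝ (fderiv ℝ (Pw e χ v)) = fun w =>
      ((v e - w e) • fderiv ℝ (fderiv ℝ χ) w + (-p).smulRight (fderiv ℝ χ w)) +
        (fderiv ℝ χ w).smulRight (-p) := by
    rw [e1]
    funext w
    exact (((da w).smul (d1χ w).hasFDerivAt).add ((dχ w).hasFDerivAt.smul_const (-p))).fderiv
  have van : ∀ w : Vec d, 2 * R < ‖w‖ → χ w = 0 ∧ fderiv ℝ χ w = 0 ∧ fderiv ℝ (fderiv ℝ χ) w = 0 := by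
    intro w hw
    have h1 : χ =ᶠ[𝓝 w] fun _ => (0 : ℝ) := by
      have ho : IsOpen {u : Vec d | 2 * R < ‖u‖} := isOpen_lt continuous_const continuous_norm
      exact Filter.eventuallyEq_of_mem (ho.mem_nhds hw) fun u hu => hχt.supp u (le_of_lt hu)
    have h2 := h1.fderiv (𝕜 := ℝ)
    have h3 := h2.fderiv (𝕜 := ℝ)
    refine ⟨h1.eq_of_nhds, ?_, ?_⟩
    · rw [h2.eq_of_nhds]
      simp
    · rw [h3.eq_of_nhds]
      simp
  have bd : ∀ (w : Vec d), (|v e - w e| * |χ w| ≤ (2 + 2 * R) * K) ∧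
      (|v e - w e| * ‖fderiv ℝ χ w‖ ≤ (2 + 2 * R) * K) ∧
      (|v e - w e| * ‖fderiv ℝ (fderiv ℝ χ) w‖ ≤ (2 + 2 * R) * K) := by
    intro w
    have hb : 0 ≤ (2 + 2 * R) * K := by positivity
    rcases le_or_gt ‖w‖ (2 * R) with h | h
    · have h1 := pzD_abs e hv h
      have h2 : (0 : ℝ) ≤ 2 + 2 * R := by positivity
      exact ⟨mul_le_mul h1 (hχt.le0 w) (abs_nonneg _) h2, mul_le_mul h1 (hχt.le1 w) (norm_nonneg _) h2,
        mul_le_mul h1 (hχt.le2 w) (norm_nonneg (fderiv ℝ (fderiv ℝ χ) w)) h2⟩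
    · obtain ⟨h1, h2, h3⟩ := van w h
      refine ⟨?_, ?_, ?_⟩
      · rw [h1, abs_zero, mul_zero]
        exact hb
      · rw [h2, norm_zero, mul_zero]
        exact hb
      · rw [h3, ContinuousLinearMap.opNorm_zero, mul_zero]
        exact hb
  refine ⟨?_, fun w hw => ?_, fun w => ?_, fun w => ?_, fun w => ?_⟩
  · have h1 : ContDiff ℝ 2 fun w : Vec d => v e - w e := by fun_prop
    exact h1.mul hχt.smooth
  · show (v e - w e) * χ w = 0
    rw [hχt.supp w hw, mul_zero]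
  · show |(v e - w e) * χ w| ≤ _
    rw [abs_mul]
    have := (bd w).1
    nlinarith
  · rw [e1]
    have h1 := (bd w).2.1
    have h2 := hχt.le0 w
    have n2 : ‖χ w • (-p)‖ ≤ K := by
      rw [norm_smul, Real.norm_eq_abs]
      calc |χ w| * ‖-p‖ ≤ K * 1 := mul_le_mul h2 hp1 (norm_nonneg _) hK
        _ = K := mul_one K
    calc ‖(v e - w e) • fderiv ℝ χ w + χ w • (-p)‖ ≤ ‖(v e - w e) • fderiv ℝ χ w‖ + ‖χ w • (-p)‖ :=
          norm_add_le _ _
      _ = |v e - w e| * ‖fderiv ℝ χ w‖ + ‖χ w • (-p)‖ := by rw [norm_smul, Real.norm_eq_abs]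
      _ ≤ (4 + 2 * R) * K := by linarith
  · rw [e2]
    have h1 := (bd w).2.2
    have h2 := hχt.le1 w
    have n1 : ‖(v e - w e) • fderiv ℝ (fderiv ℝ χ) w‖ ≤ (2 + 2 * R) * K := by
      refine (ContinuousLinearMap.opNorm_smul_le (v e - w e) (fderiv ℝ (fderiv ℝ χ) w)).trans ?_
      rw [Real.norm_eq_abs]
      exact h1
    have n2 : ‖(-p).smulRight (fderiv ℝ χ w)‖ ≤ K := by
      rw [ContinuousLinearMap.norm_smulRight_apply]
      calc ‖-p‖ * ‖fderiv ℝ χ w‖ ≤ 1 * K := mul_le_mul hp1 h2 (norm_nonneg _) zero_le_one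
        _ = K := one_mul K
    have n3 : ‖(fderiv ℝ χ w).smulRight (-p)‖ ≤ K := by
      rw [ContinuousLinearMap.norm_smulRight_apply]
      calc ‖fderiv ℝ χ w‖ * ‖-p‖ ≤ K * 1 := mul_le_mul h2 hp1 (norm_nonneg _) hK
        _ = K := mul_one K
    have n4 := norm_add_le ((v e - w e) • fderiv ℝ (fderiv ℝ χ) w) ((-p).smulRight (fderiv ℝ χ w))
    have n5 := norm_add_le ((v e - w e) • fderiv ℝ (fderiv ℝ χ) w + (-p).smulRight (fderiv ℝ χ w))
      ((fderiv ℝ χ w).smulRight (-p))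
    linarith

private lemma pzD_vis (hχ : Cut R K χ) (e : Fin d) {v : Vec d} (hv : ‖v‖ ≤ 2) {δ : ℝ} (h0 : 0 < δ)
    (h1 : δ ≤ 1) {g : Vec d → ℝ} (hc : Continuous g) (hg : ∀ v, 0 ≤ g v) :
    0 ≤ vis e χ δ g v ∧ vis e χ δ g v ≤ (2 + 2 * R) ^ 2 * ub δ (2 * R) g := by
  have hu : ∀ w, 0 ≤ Pool.Agent.H15.AV.uf δ (g w) := fun w => uf_nonneg h0 h1 (hg w)
  have hp : ∀ w, 0 ≤ (v e - w e) ^ 2 * χ w * Pool.Agent.H15.AV.uf δ (g w) := fun w =>
    mul_nonneg (mul_nonneg (sq_nonneg _) (hχ.nonneg w)) (hu w)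
  refine ⟨integral_nonneg hp, ?_⟩
  have hcu : Continuous fun w => Pool.Agent.H15.AV.uf δ (g w) := by
    unfold Pool.Agent.H15.AV.uf
    refine Continuous.sub (Continuous.log (continuous_const.add hc) fun w => ?_)
      (Continuous.log (continuous_const.add hc) fun w => ?_)
    · have := hg w
      exact (by linarith : (0 : ℝ) < 1 + g w).ne'
    · have := hg w
      exact (by linarith : (0 : ℝ) < δ + g w).ne'
  unfold vis ub
  rw [← setIntegral_eq_integral_of_forall_compl_eq_zero (s := Metric.closedBall (0 : Vec d) (2 * R)),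
    ← integral_const_mul]
  · have hi : IntegrableOn (fun w => (2 + 2 * R) ^ 2 * Pool.Agent.H15.AV.uf δ (g w))
        (Metric.closedBall (0 : Vec d) (2 * R)) :=
      (hcu.continuousOn.integrableOn_compact (isCompact_closedBall _ _)).const_mul _
    refine integral_mono_of_nonneg (Eventually.of_forall hp) hi ?_
    refine (ae_restrict_iff' Metric.isClosed_closedBall.measurableSet).2 (Eventually.of_forall fun w hw => ?_)
    rw [Metric.mem_closedBall, dist_zero_right] at hw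
    refine mul_le_mul_of_nonneg_right ?_ (hu w)
    have h2 := pzD_abs e hv hw
    have h3 : (v e - w e) ^ 2 ≤ (2 + 2 * R) ^ 2 := by
      rw [← sq_abs (v e - w e)]
      exact pow_le_pow_left₀ (abs_nonneg _) h2 2
    calc (v e - w e) ^ 2 * χ w ≤ (v e - w e) ^ 2 * 1 := mul_le_mul_of_nonneg_left (hχ.le_one w) (sq_nonneg _)
      _ ≤ (2 + 2 * R) ^ 2 := by rw [mul_one]; exact h3
  · intro w hw
    rw [Metric.mem_closedBall, dist_zero_right, not_le] at hw
    rw [hχ.tst.supp w hw.le, mul_zero, zero_mul]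

theorem pz_deriv (hQ : FibTh q Q) (e : Fin d) (hR : 0 < R) (hχ : Cut R K χ) {η : ℝ} (hη : 0 < η) {κ₀ : ℝ}
    (hκ : 0 ≤ κ₀) : ∃ (C₁ C₂ R' : ℝ) (φ : Vec d → ℝ), 0 ≤ C₁ ∧ 0 ≤ C₂ ∧ 4 * R ≤ R' ∧ Cut (2 * R) C₂ φ ∧
    ∀ δ ∈ Ioc (0 : ℝ) (1 / 2), ∀ (T : ℝ) (f : ℝ → Vec d → Vec d → ℝ),
      IsClassicalSol T (fun t x => Q (f t x)) f → Pool.Agent.H48.PL.Planar e T f →
      ∀ t ∈ Ioo 0 T, (∀ x, kap q (f t x) ≤ κ₀) → ∀ x v : Vec d, ‖v‖ ≤ 2 →
      ∃ D : ℝ, HasDerivAt (fun r => Pz e χ δ f r (x + r • v) v) D t ∧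
        vis e χ δ (f t (x + t • v)) v / lam δ -
          (C₁ * (sU Q φ δ f t / lam δ) + C₂ * ((1 + ∫ y, ub δ R' (f t y) ∂(muD d)) / lam δ) + η) ≤ D := by
  have hK : 0 ≤ K := (abs_nonneg _).trans (hχ.tst.le0 0)
  set K₁ : ℝ := (4 + 2 * R) * K with hK₁
  have hK₁0 : 0 ≤ K₁ := by positivity
  have hden : 0 < K₁ * κ₀ / 2 + 1 := by positivity
  obtain ⟨C, R', φ, hC, hR', hφ, hsrc⟩ := src_abs hQ (R := 2 * R) (by linarith) (η := η / (K₁ * κ₀ / 2 + 1))
    (div_pos hη hden)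
  set η' : ℝ := η / (K₁ * κ₀ / 2 + 1) with hη'
  have hη'0 : 0 < η' := div_pos hη hden
  have hη'1 : K₁ * κ₀ / 2 * η' ≤ η := by
    rw [hη', mul_div_assoc', div_le_iff₀ hden]
    nlinarith
  set C₂ : ℝ := C + ((2 + 2 * R) ^ 2 + K₁ * κ₀ / 2 * C) with hC₂
  have hCC : C ≤ C₂ := by
    have : 0 ≤ (2 + 2 * R) ^ 2 + K₁ * κ₀ / 2 * C := by positivity
    linarith
  refine ⟨K₁ / 2, C₂, R', φ, by positivity, by positivity, by linarith, ⟨⟨hφ.tst.smooth, hφ.tst.supp,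
    fun v => (hφ.tst.le0 v).trans hCC, fun v => (hφ.tst.le1 v).trans hCC, fun v => (hφ.tst.le2 v).trans hCC⟩,
    hφ.nonneg, hφ.le_one, hφ.eq_one⟩, ?_⟩
  intro δ hδ T f hf hpl t ht hkap x v hv
  have h0 : 0 < δ := hδ.1
  have h1 : δ ≤ 1 := by linarith [hδ.2]
  have hlam : 0 < lam δ := lam_pos h0 (by linarith [hδ.2])
  refine ⟨_, pz_formula hf hpl h0 hδ.2 hχ ht x v, ?_⟩
  set X := x + t • v with hX
  have ht' : t ∈ Ico 0 T := ⟨ht.1.le, ht.2⟩
  have hg0 : ∀ y w, 0 ≤ f t y w := fun y w => hf.nonneg t ht' y w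
  have hn : ∀ y, Nice (f t y) := fun y => IsClassicalSol.nice hf ht y
  have hcQ : ∀ y, Continuous (Q (f t y)) := fun y => by
    have := (hf.cont_Q ht).comp (by fun_prop : Continuous fun w : Vec d => (y, w))
    exact this
  -- the two functions of the position
  have cU : Continuous fun y => ub δ R' (f t y) := ub_cont hf h0 h1 ht' R'
  have cS : Continuous fun y => src Q δ (f t y) φ := by
    have h2 := src_cont hf h0 h1 hφ.tst.smooth.continuous hφ.tst.le0 hφ.tst.supp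
    exact h2.comp_continuous (f := fun y : Vec d => (t, y)) (by fun_prop) fun y => ⟨ht, mem_univ _⟩
  have hper : ∀ (y : Vec d) (i : Fin d), f t (y + Pi.single i 1) = f t y := fun y i => by
    funext w
    exact hf.periodic t ht' y w i
  have hplx : ∀ y z : Vec d, y e = z e → f t y = f t z := fun y z hyz => by
    funext w
    exact hpl t ht' y z w hyz
  have lU := line_torus e cU (fun y i => by simp only [hper]) (fun y z hyz => by simp only [hplx y z hyz]) X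
  have lS := line_torus e cS (fun y i => by simp only [hper]) (fun y z hyz => by simp only [hplx y z hyz]) X
  have cz : Continuous fun z : ℝ => X - Pi.single e z := by
    have h2 : Continuous fun z : ℝ => (Pi.single e z : Vec d) := continuous_single (A := fun _ : Fin d => ℝ) e
    fun_prop
  have iU : IntegrableOn (fun z : ℝ => ub δ R' (f t (X - Pi.single e z))) (Ioo (-(1 / 2 : ℝ)) (1 / 2)) :=
    ((cU.comp cz).integrableOn_Icc (a := -(1 / 2 : ℝ)) (b := 1 / 2)).mono_set Ioo_subset_Icc_self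
  have iS : IntegrableOn (fun z : ℝ => src Q δ (f t (X - Pi.single e z)) φ) (Ioo (-(1 / 2 : ℝ)) (1 / 2)) :=
    ((cS.comp cz).integrableOn_Icc (a := -(1 / 2 : ℝ)) (b := 1 / 2)).mono_set Ioo_subset_Icc_self
  have hfin : volume (Ioo (-(1 / 2 : ℝ)) (1 / 2)) ≠ ⊤ := by
    rw [Real.volume_Ioo]
    exact ENNReal.ofReal_ne_top
  have hvol : volume.real (Ioo (-(1 / 2 : ℝ)) (1 / 2)) = 1 := by
    rw [Real.volume_real_Ioo_of_le (by norm_num)]
    norm_num
  -- the deficit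
  have b1 : ∫ z in Ioo (-(1 / 2 : ℝ)) (1 / 2), vis e χ δ (f t (X - Pi.single e z)) v ≤
      (2 + 2 * R) ^ 2 * ∫ y, ub δ R' (f t y) ∂(muD d) := by
    rw [← lU, ← integral_const_mul]
    refine integral_mono_of_nonneg (Eventually.of_forall fun z => ?_) (iU.const_mul _)
      (Eventually.of_forall fun z => ?_)
    · exact (pzD_vis hχ e hv h0 h1 (hn _).cont (hg0 _)).1
    · refine (pzD_vis hχ e hv h0 h1 (hn _).cont (hg0 _)).2.trans ?_
      exact mul_le_mul_of_nonneg_left (ub_mono h0 h1 (by linarith) (hn _).cont (hg0 _)) (sq_nonneg _)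
  -- the source
  have iA : IntegrableOn (fun z : ℝ => K₁ / 2 * src Q δ (f t (X - Pi.single e z)) φ) (Ioo (-(1 / 2 : ℝ)) (1 / 2)) :=
    iS.const_mul _
  have iB : IntegrableOn (fun z : ℝ => (K₁ / 2 * κ₀ * C) * ub δ R' (f t (X - Pi.single e z)))
      (Ioo (-(1 / 2 : ℝ)) (1 / 2)) := iU.const_mul _
  have iAB : IntegrableOn (fun z : ℝ => K₁ / 2 * src Q δ (f t (X - Pi.single e z)) φ +
      (K₁ / 2 * κ₀ * C) * ub δ R' (f t (X - Pi.single e z))) (Ioo (-(1 / 2 : ℝ)) (1 / 2)) := iA.add iB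
  have b2 : ‖∫ z in Ioo (-(1 / 2 : ℝ)) (1 / 2), Pool.Agent.H48.PL.kl 1 z *
      src Q δ (f t (X - Pi.single e z)) (Pw e χ v)‖ ≤
      K₁ / 2 * (sU Q φ δ f t + κ₀ * (C * (1 + ∫ y, ub δ R' (f t y) ∂(muD d)) + η' * lam δ)) := by
    have e1 : K₁ / 2 * (sU Q φ δ f t + κ₀ * (C * (1 + ∫ y, ub δ R' (f t y) ∂(muD d)) + η' * lam δ)) =
        ∫ z in Ioo (-(1 / 2 : ℝ)) (1 / 2), (K₁ / 2 * src Q δ (f t (X - Pi.single e z)) φ +
          (K₁ / 2 * κ₀ * C) * ub δ R' (f t (X - Pi.single e z)) +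
          K₁ / 2 * κ₀ * (C + η' * lam δ)) := by
      rw [integral_add iAB (integrableOn_const hfin), integral_add iA iB, integral_const_mul, integral_const_mul,
        lU, lS, setIntegral_const, hvol, one_smul]
      unfold sU
      ring
    rw [e1]
    refine norm_integral_le_of_norm_le (iAB.add (integrableOn_const hfin)) ?_
    refine (ae_restrict_iff' measurableSet_Ioo).2 (Eventually.of_forall fun z hz => ?_)
    have hz' : z ∈ Ioo (-((1 : ℝ) / 2)) (1 / 2) := hz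
    have h2 := Pool.Agent.H48.PL.kl_abs one_pos hz'
    set Y := X - Pi.single e z with hY
    have h3 := hsrc δ hδ (f t Y) (hn Y) (hg0 Y) (hcQ Y) K₁ (Pw e χ v) (pzD_tst hR hχ e hv)
    have h4 : 0 ≤ ub δ R' (f t Y) := ub_nonneg h0 h1 R' (hg0 Y)
    have h5 : 0 ≤ C * (1 + ub δ R' (f t Y)) + η' * lam δ := by positivity
    have h6 := mul_le_mul_of_nonneg_right (hkap Y) h5
    rw [norm_mul, Real.norm_eq_abs, Real.norm_eq_abs]
    have h7 : |src Q δ (f t Y) (Pw e χ v)| ≤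
        K₁ * (src Q δ (f t Y) φ + κ₀ * (C * (1 + ub δ R' (f t Y)) + η' * lam δ)) :=
      h3.trans (mul_le_mul_of_nonneg_left (by linarith) hK₁0)
    calc |Pool.Agent.H48.PL.kl 1 z| * |src Q δ (f t Y) (Pw e χ v)|
        ≤ 1 / 2 * |src Q δ (f t Y) (Pw e χ v)| := mul_le_mul_of_nonneg_right h2 (abs_nonneg _)
      _ ≤ 1 / 2 * (K₁ * (src Q δ (f t Y) φ + κ₀ * (C * (1 + ub δ R' (f t Y)) + η' * lam δ))) :=
          mul_le_mul_of_nonneg_left h7 (by norm_num)
      _ = K₁ / 2 * src Q δ (f t Y) φ + (K₁ / 2 * κ₀ * C) * ub δ R' (f t Y) +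
          K₁ / 2 * κ₀ * (C + η' * lam δ) := by ring
  have b3 := (Real.le_norm_self _).trans b2
  have hUn : 0 ≤ ∫ y, ub δ R' (f t y) ∂(muD d) := integral_nonneg fun y => ub_nonneg h0 h1 R' (hg0 y)
  set U := ∫ y, ub δ R' (f t y) ∂(muD d) with hU
  set V := ∫ z in Ioo (-(1 / 2 : ℝ)) (1 / 2), vis e χ δ (f t (X - Pi.single e z)) v with hV
  set W := ∫ z in Ioo (-(1 / 2 : ℝ)) (1 / 2), Pool.Agent.H48.PL.kl 1 z *
      src Q δ (f t (X - Pi.single e z)) (Pw e χ v) with hW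
  have key : V + W ≤ K₁ / 2 * sU Q φ δ f t + C₂ * (1 + U) + η * lam δ := by
    have h2 : K₁ / 2 * κ₀ * (η' * lam δ) ≤ η * lam δ := by
      have h3 := mul_le_mul_of_nonneg_right hη'1 hlam.le
      linarith
    have h4 : (2 + 2 * R) ^ 2 * U ≤ (2 + 2 * R) ^ 2 * (1 + U) :=
      mul_le_mul_of_nonneg_left (by linarith) (sq_nonneg _)
    have h5 : 0 ≤ C * (1 + U) := by positivity
    rw [hC₂]
    linarith
  have e3 : 1 / lam δ * (vis e χ δ (f t X) v - V) - 1 / lam δ * W =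
      vis e χ δ (f t X) v / lam δ - (V + W) / lam δ := by
    ring
  rw [e3]
  have e4 : K₁ / 2 * (sU Q φ δ f t / lam δ) + C₂ * ((1 + U) / lam δ) + η =
      (K₁ / 2 * sU Q φ δ f t + C₂ * (1 + U) + η * lam δ) / lam δ := by
    field_simp
  rw [e4]
  have h9 := (div_le_div_iff_of_pos_right hlam).2 key
  linarith

end Pool.Agent.H85.LB
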